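import Pool.Agent.MP_bc14e1_gt.K.CD

/-! Soundness of the determinant certificates. -/

open Polynomial

namespace Pool.Agent.MP_bc14e1_gt

theorem CA_w : ∃ w : integralClosure ℤ ℂ, w ^ 4 = -1 := by
  obtain ⟨w, hw⟩ := IsAlgClosed.exists_pow_nat_eq (-1 : ℂ) (n := 4) (by norm_num)
  exact ⟨⟨w, IsIntegral.of_pow (n := 4) (by norm_num) (hw ▸ isIntegral_one.neg)⟩, Subtype.ext hw⟩

/-- A residue field of the ring of algebraic integers in which `a` reduces to `a₀`. -/
theorem exists_residue {l a₀ : ℕ} (hl : 1 < l) (ha : (a₀ ^ 4 + 1) % l = 0) :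
    ∃ (k : Type) (_ : Field k) (φ : integralClosure ℤ ℂ →+* k) (a : integralClosure ℤ ℂ),
      (l : k) = 0 ∧ a ^ 4 = -1 ∧ φ a = a₀ := by
  have hu : (l : integralClosure ℤ ℂ) ∈ nonunits (integralClosure ℤ ℂ) := fun h => by
    have h1 : IsUnit (l : ℤ) :=
      isUnit_of_map_unit (algebraMap ℤ (integralClosure ℤ ℂ)) _ (by rwa [map_natCast])
    rcases Int.isUnit_iff.1 h1 with h2 | h2 <;> omega
  obtain ⟨M, hM, hlM⟩ := exists_max_ideal_of_mem_nonunits hu
  obtain ⟨k, _, φ, h0⟩ : ∃ (k : Type) (_ : Field k) (φ : integralClosure ℤ ℂ →+* k),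
      (l : k) = 0 :=
    ⟨_, Ideal.Quotient.field M, Ideal.Quotient.mk M, (map_natCast (Ideal.Quotient.mk M) l).symm.trans
      (Ideal.Quotient.eq_zero_iff_mem.2 hlM)⟩
  obtain ⟨w, hw⟩ := CA_w
  have h1 : (a₀ : k) ^ 4 + 1 = 0 := by
    have h := cast_mod_eq h0 (a₀ ^ 4 + 1)
    rw [ha] at h
    exact_mod_cast h.symm
  have h2 : φ w ^ 4 = -1 := by rw [← map_pow, hw, map_neg, map_one]
  have h3 : (φ w - a₀) * (-φ w - a₀) * (φ w ^ 3 - a₀) * (-φ w ^ 3 - a₀) = 0 := by
    linear_combination h1 + (φ w ^ 4 - 1 - (a₀ : k) ^ 2 * φ w ^ 2) * h2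
  have h4 : (w ^ 3) ^ 4 = -1 := by rw [← pow_mul, mul_comm, pow_mul, hw]; norm_num
  simp only [mul_eq_zero, sub_eq_zero] at h3
  rcases h3 with ((h | h) | h) | h
  · exact ⟨k, inferInstance, φ, w, h0, hw, h⟩
  · exact ⟨k, inferInstance, φ, -w, h0, by rw [← hw]; ring, by rw [map_neg, h]⟩
  · exact ⟨k, inferInstance, φ, w ^ 3, h0, h4, by rw [map_pow, h]⟩
  · exact ⟨k, inferInstance, φ, -w ^ 3, h0, by rw [← h4]; ring, by rw [map_neg, map_pow, h]⟩

/-- Evaluation of an integer list. -/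
def CA_ev {R : Type} [CommRing R] (x : R) : List ℤ → R
  | [] => 0
  | c :: p => c + x * CA_ev x p

section

variable {R : Type} [CommRing R]

theorem CA_ofInts (a x : R) (p : List ℤ) : evZ a x (ofInts p) = CA_ev x p := by
  induction p with
  | nil => rfl
  | cons c p ih =>
    rw [CA_ev, ← ih]
    simp [ofInts, evZ, Z8.ev]

theorem CA_map {S : Type} [CommRing S] (φ : R →+* S) (x : R) (p : List ℤ) :
    φ (CA_ev x p) = CA_ev (φ x) p := by
  induction p with
  | nil => simp [CA_ev]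
  | cons c p ih => simp [CA_ev, ih]

theorem CA_rep (x : R) (n : ℕ) (c : ℤ) : CA_ev x (List.replicate n 0 ++ [c]) = x ^ n * c := by
  induction n with
  | zero => simp [CA_ev]
  | succ n ih =>
    rw [List.replicate_succ, List.cons_append, CA_ev, ih]
    push_cast
    ring

theorem CA_hom {a s t : R} (ha : a ^ 4 = -1) (h : s * t = 1) (g : List ℤ) :
    s * evZ a s (homZ g) = s ^ g.length * CA_ev (s + t) g := by
  induction g with
  | nil => simp [homZ, evZ, CA_ev]
  | cons c g ih =>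
    rw [homZ, evZ_addZ, evZ_mulZ a s ha, CA_ofInts, CA_ofInts, CA_rep, List.length_cons]
    simp only [CA_ev]
    push_cast
    linear_combination (1 + s ^ 2) * ih - s ^ g.length * CA_ev (s + t) g * h

theorem CA_repN (x : R) (n : ℕ) : evN x (List.replicate n 0 ++ [1]) = x ^ n := by
  induction n with
  | zero => simp [evN]
  | succ n ih =>
    rw [List.replicate_succ, List.cons_append, evN, ih]
    push_cast
    ring

theorem CA_lin {l : ℕ} (hl : (l : R) = 0) (h0 : 0 < l) (x : R) : evN x [l - 1, 1] = x - 1 := by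
  simp only [evN]
  rw [Nat.cast_sub h0, hl]
  push_cast
  ring

theorem CA_powN (x : R) (p : List ℕ) (n : ℕ) : evN x (powN p n) = evN x p ^ n := by
  induction n with
  | zero => simp [powN, evN]
  | succ n ih => rw [powN, evN_mulN, ih, pow_succ']

theorem CA_sumN {ι : Type} (x : R) (f : ι → List ℕ) (L : List ι) :
    evN x (sumN (L.map f)) = (L.map fun i => evN x (f i)).sum := by
  induction L with
  | nil => rfl
  | cons i L ih => rw [List.map_cons, sumN, evN_addN, ih, List.map_cons, List.sum_cons]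

theorem CA_sumZ {ι : Type} (a x : R) (f : ι → List Z8) (L : List ι) :
    evZ a x (sumZ (L.map f)) = (L.map fun i => evZ a x (f i)).sum := by
  induction L with
  | nil => rfl
  | cons i L ih => rw [List.map_cons, sumZ, evZ_addZ, ih, List.map_cons, List.sum_cons]

end

theorem CA_evQ (x : ℚ) (p : List ℤ) : ((evQ x p : ℚ) : ℝ) = CA_ev (x : ℝ) p := by
  induction p with
  | nil => simp [evQ, CA_ev]
  | cons c p ih => simp [evQ, CA_ev, ih]

theorem CA_cont (p : List ℤ) : Continuous fun x : ℝ => CA_ev x p := by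
  induction p with
  | nil => exact continuous_const
  | cons c p ih => exact continuous_const.add (continuous_id.mul ih)

theorem CA_monic (L : List ℤ) : (CA_ev (X : ℤ[X]) (L ++ [1])).Monic := by
  induction L with
  | nil => simp [CA_ev]
  | cons c L ih =>
    rw [List.cons_append, CA_ev]
    refine (monic_X.mul ih).add_of_right (degree_lt_degree ?_)
    rw [natDegree_intCast, natDegree_X_mul ih.ne_zero]
    omega

theorem CA_chk₁ (c : NCert) (h : c.chk₁ = true) : c.l % 2 = 1 ∧ 1 < c.l ∧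
    (c.a₀ ^ 4 + 1) % c.l = 0 ∧ (subZ (homZ c.g) c.p).all Z8.isZero = true ∧ -2 ≤ c.x₁ ∧
    c.x₁ ≤ c.x₂ ∧ c.x₂ ≤ 2 ∧ evQ c.x₁ c.g * evQ c.x₂ c.g < 0 := by
  simpa only [NCert.chk₁, Bool.and_eq_true, decide_eq_true_eq, beq_iff_eq, and_assoc] using h

/-- A unit root of `p`. -/
theorem NCert.exists_root (c : NCert) (h : c.chk₁ = true) :
    ∃ s₀ : integralClosure ℤ ℂ, ‖(s₀ : ℂ)‖ = 1 ∧
      ∀ a : integralClosure ℤ ℂ, a ^ 4 = -1 → evZ a s₀ c.p = 0 := by
  obtain ⟨-, -, -, h4, h5, h6, h7, h8⟩ := CA_chk₁ c h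
  have h5' : (-2 : ℝ) ≤ c.x₁ := by exact_mod_cast h5
  have h6' : (c.x₁ : ℝ) ≤ c.x₂ := by exact_mod_cast h6
  have h7' : (c.x₂ : ℝ) ≤ 2 := by exact_mod_cast h7
  have h8' : CA_ev (c.x₁ : ℝ) c.g * CA_ev (c.x₂ : ℝ) c.g < 0 := by
    rw [← CA_evQ, ← CA_evQ]
    exact_mod_cast h8
  obtain ⟨x, ⟨hx1, hx2⟩, hx⟩ : ∃ x ∈ Set.Icc (c.x₁ : ℝ) c.x₂, CA_ev x c.g = 0 := by
    rcases mul_neg_iff.1 h8' with ⟨p, q⟩ | ⟨p, q⟩
    · exact intermediate_value_Icc' h6' (CA_cont c.g).continuousOn ⟨q.le, p.le⟩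
    · exact intermediate_value_Icc h6' (CA_cont c.g).continuousOn ⟨p.le, q.le⟩
  obtain ⟨y, hy⟩ : ∃ y : ℝ, y * y = 1 - x ^ 2 / 4 := ⟨_, Real.mul_self_sqrt (by nlinarith)⟩
  obtain ⟨s, hs, hsx⟩ : ∃ s : ℂ, Complex.normSq s = 1 ∧ s + (starRingEnd ℂ) s = (x : ℂ) :=
    ⟨⟨x / 2, y⟩, by rw [Complex.normSq_mk, hy]; ring, by
      rw [Complex.add_conj]; push_cast; ring⟩
  have hst : s * (starRingEnd ℂ) s = 1 := by rw [Complex.mul_conj, hs, Complex.ofReal_one]
  obtain ⟨w, hw⟩ := CA_w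
  have hw' : (w : ℂ) ^ 4 = -1 := congrArg Subtype.val hw
  have e1 := CA_hom hw' hst c.g
  have e2 := CA_map Complex.ofRealHom x c.g
  rw [hx, map_zero, Complex.ofRealHom_eq_coe] at e2
  rw [hsx, ← e2, mul_zero] at e1
  have e3 := evZ_of_all (w : ℂ) s h4
  rw [evZ_subZ, (mul_eq_zero.1 e1).resolve_left (left_ne_zero_of_mul_eq_one hst), NCert.p,
    CA_ofInts, zero_sub, neg_eq_zero] at e3
  have hi : IsIntegral ℤ s := ⟨_, CA_monic c.L, by
    have e := CA_map (eval₂RingHom (algebraMap ℤ ℂ) s) X (c.L ++ [1])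
    rw [coe_eval₂RingHom, eval₂_X, e3] at e
    exact e⟩
  refine ⟨⟨s, hi⟩, ?_, fun a _ => ?_⟩
  · rw [Complex.normSq_eq_norm_sq] at hs
    exact (pow_eq_one_iff_of_nonneg (norm_nonneg _) two_ne_zero).1 hs
  · rw [NCert.p, CA_ofInts]
    exact Subtype.ext ((CA_map (algebraMap (integralClosure ℤ ℂ) ℂ) ⟨s, hi⟩ _).trans e3)

theorem CA_P (c : NCert) {R : Type} [CommRing R] (hl : (c.l : R) = 0) (h0 : 0 < c.l) (x : R) :
    evN x c.P = (x - 1) * evN x (c.red c.p) := by
  rw [NCert.P, evN_mulN, CA_lin hl h0]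

/-- The roots of `p` in a field of characteristic `l`. -/
theorem NCert.roots (c : NCert) (h₁ : c.chk₁ = true) (h₂ : c.chk₂ = true) {k : Type} [Field k]
    (hl : (c.l : k) = 0) {r : k} (hr : evN r (c.red c.p) = 0) :
    r ≠ 0 ∧ r ≠ 1 ∧ (derivative (evN (X : k[X]) (c.red c.p))).eval r ≠ 0 ∧
      ∀ (j : ℕ) (ζ : k), ζ ^ 2 ^ j = 1 → (ζ * r = 1 ∨ evN (ζ * r) (c.red c.p) = 0) → ζ = 1 := by
  have h0 : 0 < c.l := by have := (CA_chk₁ c h₁).2.1; omega
  simp only [NCert.chk₂, Bool.and_eq_true, decide_eq_true_eq] at h₂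
  obtain ⟨⟨⟨⟨k1, k2⟩, k3⟩, k4⟩, k5⟩ := h₂
  have hlX : (c.l : k[X]) = 0 := by rw [← C_eq_natCast, hl, C_0]
  have b1 := evN_of_eqN (X : k[X]) hlX h0 k2
  rw [evN_addN, evN_mulN, evN_mulN, ← derivative_evN 0, CA_P c hlX h0] at b1
  have b2 := congrArg (eval r) b1
  simp only [evN, eval_add, eval_mul, eval_sub, eval_X, eval_one, evN_eq_eval, hr, derivative_mul,
    Nat.cast_zero, Nat.cast_one, mul_zero, add_zero, zero_add, zero_mul] at b2
  have b3 := right_ne_zero_of_mul_eq_one b2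
  have b4 := right_ne_zero_of_mul b3
  have hr0 := left_ne_zero_of_mul b3
  have root : ∀ x : k, evN x c.P = 0 →
      x ^ (2 ^ c.J * (2 * c.N + 1)) = 1 ∧ evN (x ^ 2 ^ c.J) c.q = x := fun x hx => by
    have hm := evN_of_eqN x hl h0 k1
    rw [CA_repN, evN_addN, hx, add_zero] at hm
    obtain ⟨u, u1, u2⟩ := powmodN_spec x hl hm 64 _ k3 fun r => eqN c.l r [1]
    obtain ⟨y, y1, y2⟩ := powmodN_spec x hl hm 64 (2 ^ c.J)
      (lt_of_le_of_lt (Nat.le_mul_of_pos_right _ (Nat.succ_pos _)) k3)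
      fun y => compmodN c.l c.D c.m y c.q fun r => eqN c.l r [0, 1]
    obtain ⟨z, z1, z2⟩ := compmodN_spec x hl hm y c.q fun r => eqN c.l r [0, 1]
    have e1 := evN_of_eqN x hl h0 (u2.symm.trans k4)
    have e2 := evN_of_eqN x hl h0 (z2.symm.trans (y2.symm.trans k5))
    rw [u1] at e1
    rw [z1, y1] at e2
    exact ⟨by simpa [evN] using e1, by simpa [evN] using e2⟩
  refine ⟨hr0, sub_ne_zero.1 (left_ne_zero_of_mul b4), right_ne_zero_of_mul b4,
    fun j ζ hζ h => ?_⟩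
  obtain ⟨r1, r2⟩ := root r (by rw [CA_P c hl h0, hr, mul_zero])
  obtain ⟨z1, z2⟩ := root (ζ * r) (by
    rw [CA_P c hl h0]
    rcases h with h | h
    · rw [h, sub_self, zero_mul]
    · rw [h, mul_zero])
  rw [mul_pow, r1, mul_one, pow_mul] at z1
  have z3 : ζ ^ 2 ^ c.J = 1 :=
    (pow_eq_one_iff_of_coprime (m := 2 ^ j) (n := 2 * c.N + 1)
      (Nat.Coprime.pow_left j (by simp))).1
      ⟨by rw [← pow_mul, mul_comm, pow_mul, hζ, one_pow], z1⟩
  rw [mul_pow, z3, one_mul, r2] at z2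
  exact (mul_eq_right₀ hr0).1 z2.symm

/-- The matrix `C` evaluated at `x`. -/
def CA_C (c : NCert) {R : Type} [CommRing R] (x : R) : Matrix (Fin 12) (Fin 12) R :=
  Matrix.of fun i k => evN x ((c.C.getD i []).getD k [])

/-- The matrix `A` evaluated at `x`. -/
def CA_A (A : Fin 12 → Fin 12 → List Z8) {R : Type} [CommRing R] (a x : R) :
    Matrix (Fin 12) (Fin 12) R := Matrix.of fun i j => evZ a x (A i j)

/-- The trivial part of a diagonal entry. -/
def CA_E (c : NCert) {R : Type} [CommRing R] (x : R) (i : Fin 12) : R :=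
  x ^ c.kk.getD i 0 * (x - 1) ^ c.bb.getD i 0

section

variable (c : NCert) (A : Fin 12 → Fin 12 → List Z8) {R S : Type} [CommRing R] [CommRing S]

theorem CA_mapA (ψ : R →+* S) (a x : R) : (CA_A A a x).map ψ = CA_A A (ψ a) (ψ x) :=
  Matrix.ext fun _ _ => map_evZ a x ψ _

theorem CA_mapG (ψ : R →+* S) (a x : R) :
    (CA_C c x * CA_A A a x).map ψ = CA_C c (ψ x) * CA_A A (ψ a) (ψ x) := by
  rw [Matrix.map_mul, CA_mapA]
  congr 1
  exact Matrix.ext fun _ _ => map_evN x ψ _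

theorem CA_detG (ψ : R →+* S) (a x : R) :
    ψ (CA_C c x * CA_A A a x).det = (CA_C c (ψ x) * CA_A A (ψ a) (ψ x)).det := by
  rw [RingHom.map_det, RingHom.mapMatrix_apply, CA_mapG]

theorem CA_tri (h₄ : c.chk₄ A = true) (hl : (c.l : R) = 0) (h0 : 0 < c.l) (x : R) (i j : Fin 12)
    (hij : j ≤ i) : (CA_C c x * CA_A A (c.a₀ : R) x) i j =
      if i = j then CA_E c x i * (if i = 11 then evN x (c.red c.p) else 1) else 0 := by
  simp only [NCert.chk₄, List.all_eq_true, List.mem_finRange, forall_true_left, Bool.or_eq_true,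
    decide_eq_true_eq] at h₄
  have h := evN_of_eqN x hl h0 ((h₄ i j).resolve_left (not_lt.2 hij))
  rw [CA_sumN, ← Fin.sum_univ_def] at h
  simp only [evN_mulN, NCert.red, evN_red x hl h0] at h
  rw [Matrix.mul_apply]
  refine ((Finset.sum_congr rfl fun k _ => mul_comm _ _).trans h).trans ?_
  by_cases e : i = j
  · rw [if_pos e, if_pos e, NCert.dg, evN_mulN, evN_mulN, CA_repN, CA_powN, CA_lin hl h0, CA_E]
    split_ifs <;> simp [evN]
  · rw [if_neg e, if_neg e, evN]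

theorem CA_det (h₄ : c.chk₄ A = true) (hl : (c.l : R) = 0) (h0 : 0 < c.l) (x : R) :
    (CA_C c x * CA_A A (c.a₀ : R) x).det = (∏ i, CA_E c x i) * evN x (c.red c.p) := by
  rw [Matrix.det_of_isUpperTriangular fun i j h => by
    rw [CA_tri c A h₄ hl h0 x i j (le_of_lt h), if_neg (show i ≠ j from ne_of_gt h)]]
  simp only [CA_tri c A h₄ hl h0 x _ _ le_rfl, if_true, Finset.prod_mul_distrib,
    Finset.prod_ite_eq', Finset.mem_univ]

theorem CA_blk (h₄ : c.chk₄ A = true) (hl : (c.l : R) = 0) (h0 : 0 < c.l) (x : R) :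
    ((CA_C c x * CA_A A (c.a₀ : R) x).submatrix Fin.castSucc Fin.castSucc).det =
      ∏ i : Fin 11, CA_E c x i.castSucc := by
  rw [Matrix.det_of_isUpperTriangular fun i j h => by
    have h' : j.castSucc < i.castSucc := h
    rw [Matrix.submatrix_apply, CA_tri c A h₄ hl h0 x _ _ h'.le, if_neg h'.ne']]
  refine Finset.prod_congr rfl fun i _ => ?_
  rw [Matrix.submatrix_apply, CA_tri c A h₄ hl h0 x _ _ le_rfl, if_pos rfl,
    if_neg (show i.castSucc ≠ 11 from (Fin.castSucc_lt_last i).ne), mul_one]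

theorem CA_E_ne [IsDomain R] {x : R} (h0 : x ≠ 0) (h1 : x ≠ 1) (i : Fin 12) : CA_E c x i ≠ 0 :=
  mul_ne_zero (pow_ne_zero _ h0) (pow_ne_zero _ (sub_ne_zero.2 h1))

theorem CA_unity [IsDomain R] (φ : R →+* S) (h2 : (2 : S) ≠ 0) {ζ : R} (h1 : φ ζ = 1) (j : ℕ)
    (h : ζ ^ 2 ^ j = 1) : ζ = 1 := by
  induction j with
  | zero => simpa using h
  | succ j ih =>
    rw [pow_succ, pow_mul, sq_eq_one_iff] at h
    rcases h with h | h
    · exact ih h
    · have h3 := congrArg φ h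
      rw [map_pow, h1, one_pow, map_neg, map_one] at h3
      exact absurd (by linear_combination h3) h2

end

theorem good_of_cert (c : NCert) (A : Fin 12 → Fin 12 → List Z8) (h₁ : c.chk₁ = true)
    (h₂ : c.chk₂ = true) (h₃ : c.chk₃ A = true) (h₄ : c.chk₄ A = true) :
    ∃ a s₀ : ℂ, a ^ 4 = -1 ∧ GoodMat (Matrix.of fun i j => evZ (C a) X (A i j)) s₀ := by
  obtain ⟨l1, l2, l3, -⟩ := CA_chk₁ c h₁
  have h0 : 0 < c.l := by omega
  obtain ⟨k, _, φ, a, hl, ha, hφ⟩ := exists_residue l2 l3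
  obtain ⟨s, hs, hp⟩ := c.exists_root h₁
  obtain ⟨ι, hι, hi⟩ : ∃ ι : integralClosure ℤ ℂ →+* ℂ, (∀ x, ι x = (x : ℂ)) ∧
    Function.Injective ι := ⟨algebraMap _ _, fun _ => rfl, Subtype.val_injective⟩
  have hr : evN (φ s) (c.red c.p) = 0 := by
    rw [NCert.red, evN_red _ hl h0, ← hφ, ← map_evZ, hp a ha, map_zero]
  obtain ⟨r0, r1, r2, r3⟩ := c.roots h₁ h₂ hl hr
  have h2 : (2 : k) ≠ 0 := fun h => by
    have e : c.l = 2 * (c.l / 2) + 1 := by omega
    rw [e] at hl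
    push_cast at hl
    rw [h, zero_mul, zero_add] at hl
    exact one_ne_zero hl
  simp only [NCert.chk₃, Bool.and_eq_true, List.all_eq_true, List.mem_finRange,
    forall_true_left] at h₃
  have dA : (CA_A A a s).det = 0 := by
    refine Matrix.exists_vecMul_eq_zero_iff.1 ⟨fun i => evZ a s (c.v.getD i []), fun h => ?_, ?_⟩
    · have e1 : evZ a s (c.v.getD 0 []) = 0 := congrFun h 0
      have e2 := evN_of_eqN (φ s) hl h0 h₃.2
      rw [evN_addN, evN_mulN, evN_mulN, hr, NCert.red, evN_red _ hl h0, ← hφ, ← map_evZ, e1] at e2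
      simp [evN] at e2
    · funext j
      have e := evZ_of_all a s (List.all_eq_true.2 (h₃.1 j))
      rw [evZ_subZ, CA_sumZ, ← Fin.sum_univ_def, evZ_mulZ a s ha, hp a ha, zero_mul, sub_zero] at e
      simp only [evZ_mulZ a s ha] at e
      exact e
  have ev : ∀ x, (CA_C c X * CA_A A (C a) X).det.eval x = (CA_C c x * CA_A A a x).det := fun x => by
    have e := CA_detG c A (evalRingHom x) (C a) X
    simpa only [coe_evalRingHom, eval_X, eval_C] using e
  obtain ⟨D, hD⟩ : X - C s ∣ (CA_C c X * CA_A A (C a) X).det :=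
    dvd_iff_isRoot.2 (by rw [IsRoot.def, ev, Matrix.det_mul, dA, mul_zero])
  have hlX : (c.l : k[X]) = 0 := by rw [← C_eq_natCast, hl, C_0]
  have key : ∀ (j : ℕ) (ζ : integralClosure ℤ ℂ), ζ ^ 2 ^ j = 1 → D.eval (ζ * s) ≠ 0 := by
    intro j ζ hζ hz
    by_cases h1 : φ ζ = 1
    · rw [CA_unity φ h2 h1 j hζ, one_mul] at hz
      have e := CA_detG c A (mapRingHom φ) (C a) X
      rw [hD, coe_mapRingHom, map_X, map_C, hφ, C_eq_natCast, CA_det c A h₄ hlX h0] at e
      have e2 := congrArg (fun p => (derivative p).eval (φ s)) e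
      have e3 : (D.map φ).eval (φ s) = 0 := by rw [eval_map, eval₂_at_apply, hz, map_zero]
      simp only [Polynomial.map_mul, Polynomial.map_sub, map_X, map_C, derivative_mul, eval_add,
        eval_mul, eval_sub, eval_X, eval_C, sub_self, e3, evN_eq_eval, hr, mul_zero, zero_mul,
        add_zero, zero_add] at e2
      refine mul_ne_zero ?_ r2 e2.symm
      rw [eval_prod]
      refine Finset.prod_ne_zero_iff.2 fun i _ => ?_
      have e4 := CA_E_ne c r0 r1 i
      simpa only [CA_E, eval_mul, eval_pow, eval_sub, eval_X, eval_one] using e4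
    · have hz' : φ ζ ^ 2 ^ j = 1 := by rw [← map_pow, hζ, map_one]
      have e := ev (ζ * s)
      rw [hD, eval_mul, hz, mul_zero] at e
      have e2 := CA_detG c A φ a (ζ * s)
      rw [← e, map_zero, hφ, CA_det c A h₄ hl h0, map_mul] at e2
      refine mul_ne_zero (Finset.prod_ne_zero_iff.2 fun i _ => CA_E_ne c ?_ ?_ i) ?_ e2.symm
      · refine mul_ne_zero (fun h => ?_) r0
        rw [h, zero_pow (by positivity)] at hz'
        exact zero_ne_one hz'
      · exact fun h => h1 (r3 j _ hz' (Or.inl h))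
      · exact fun h => h1 (r3 j _ hz' (Or.inr h))
  have hA : (CA_A A (C (ι a)) X).map (eval (ι s)) = CA_A A (ι a) (ι s) := by
    have e := CA_mapA A (evalRingHom (ι s)) (C (ι a)) X
    simpa only [coe_evalRingHom, eval_X, eval_C] using e
  change ∃ a s₀ : ℂ, a ^ 4 = -1 ∧ GoodMat (CA_A A (C a) X) s₀
  refine ⟨ι a, ι s, by rw [← map_pow, ha, map_neg, map_one], by rw [hι, hs], fun j hj => ?_, ?_,
    ⟨((CA_C c X * CA_A A (C a) X).adjugate * CA_C c X).map (mapRingHom ι), D.map ι, ?_,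
      fun j ζ hζ => ?_⟩, fun u => ?_⟩
  · have e : φ s ^ 2 ^ j = 1 := by
      rw [← map_pow, hi (show ι (s ^ 2 ^ j) = ι 1 by rw [map_pow, hj, map_one]), map_one]
    have e1 : φ s ^ (2 ^ j - 1) * φ s = 1 := by
      rw [← pow_succ, Nat.sub_add_cancel Nat.one_le_two_pow, e]
    have e2 := r3 j _ (by rw [← pow_mul, mul_comm, pow_mul, e, one_pow]) (Or.inl e1)
    rw [e2, one_mul] at e1
    exact r1 e1
  · rw [hA]
    refine Matrix.exists_mulVec_eq_zero_iff.2 ?_
    rw [← CA_mapA, ← RingHom.mapMatrix_apply, ← RingHom.map_det, dA, map_zero]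
  · have e := CA_mapA A (mapRingHom ι) (C a) X
    rw [coe_mapRingHom, map_X, map_C, ← coe_mapRingHom] at e
    rw [← e, ← Matrix.map_mul, Matrix.mul_assoc, Matrix.adjugate_mul, hD]
    ext i j : 1
    by_cases h : i = j <;> simp [h]
  · have hz : IsIntegral ℤ ζ := IsIntegral.of_pow (n := 2 ^ j) (by positivity) (hζ ▸ isIntegral_one)
    have e : ζ = ι ⟨ζ, hz⟩ := (hι ⟨ζ, hz⟩).symm
    rw [e, ← map_mul, eval_map, eval₂_at_apply]
    exact (map_ne_zero_iff ι hi).2 (key j _ (Subtype.ext hζ))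
  · have b1 : ((CA_C c s * CA_A A a s).submatrix Fin.castSucc Fin.castSucc).det ≠ 0 := fun h => by
      have e := congrArg φ h
      rw [RingHom.map_det, RingHom.mapMatrix_apply, ← Matrix.submatrix_map, CA_mapG, hφ,
        CA_blk c A h₄ hl h0, map_zero] at e
      exact Finset.prod_ne_zero_iff.2 (fun i _ => CA_E_ne c r0 r1 _) e
    have b2 := (map_ne_zero_iff ι hi).2 b1
    rw [RingHom.map_det, RingHom.mapMatrix_apply, ← Matrix.submatrix_map, CA_mapG] at b2
    obtain ⟨c', hc'⟩ := Matrix.vecMul_surjective_iff_isUnit.2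
      ((Matrix.isUnit_iff_isUnit_det _).2 b2.isUnit) fun i => u i.castSucc
    rw [hA]
    refine ⟨Matrix.vecMul (Fin.snoc c' 0) (CA_C c (ι s)), u 11 - Matrix.vecMul (Fin.snoc c' 0)
      (CA_C c (ι s) * CA_A A (ι a) (ι s)) 11, ?_⟩
    rw [Matrix.vecMul_vecMul]
    funext j
    induction j using Fin.lastCases with
    | last =>
      change u 11 = _ + (Pi.single (11 : Fin 12) _ : Fin 12 → ℂ) 11
      rw [Pi.single_eq_same]
      exact (add_sub_cancel _ _).symm
    | cast j =>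
      rw [Pi.add_apply, Pi.single_eq_of_ne (show j.castSucc ≠ 11 from (Fin.castSucc_lt_last j).ne),
        add_zero, ← congrFun hc' j]
      simp only [Matrix.vecMul, dotProduct, Fin.sum_univ_castSucc (n := 11), Fin.snoc_castSucc,
        Fin.snoc_last, zero_mul, add_zero, Matrix.submatrix_apply]

end Pool.Agent.MP_bc14e1_gt
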