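import Pool.Agent.MP_bc14e1_gt.K.CL

/-! The format of the determinant certificates. -/

open Polynomial

namespace Pool.Agent.MP_bc14e1_gt

/-- `s₀` is a simple unit root of the determinant, isolated among its multiples by roots of unity
of `2`-power order. -/
structure GoodMat (A : Matrix (Fin 12) (Fin 12) ℂ[X]) (s₀ : ℂ) : Prop where
  norm : ‖s₀‖ = 1
  ne : ∀ j : ℕ, s₀ ^ 2 ^ j ≠ 1
  sing : ∃ w : Fin 12 → ℂ, w ≠ 0 ∧ (A.map (eval s₀)).mulVec w = 0
  kill : ∃ (B : Matrix (Fin 12) (Fin 12) ℂ[X]) (D : ℂ[X]), B * A = ((X - C s₀) * D) • 1 ∧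
    ∀ (j : ℕ) (ζ : ℂ), ζ ^ 2 ^ j = 1 → D.eval (ζ * s₀) ≠ 0
  rank : ∀ u : Fin 12 → ℂ, ∃ (c : Fin 12 → ℂ) (t : ℂ),
    u = Matrix.vecMul c (A.map (eval s₀)) + Pi.single 11 t

/-- Certificate data. -/
structure NCert where
  /-- an odd modulus -/
  l : ℕ
  /-- a fourth root of `-1` modulo `l` -/
  a₀ : ℕ
  /-- `p(s) = s ^ d g(s + 1/s)`, `d + 1` the length of `g` -/
  g : List ℤ
  /-- left end of an interval on which `g` changes sign -/
  x₁ : ℚ
  /-- right end of the interval -/
  x₂ : ℚ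
  /-- the lower coefficients of the monic polynomial `p` -/
  L : List ℤ
  /-- a row vector with `v A = p w` -/
  v : List (List Z8)
  /-- a row vector with `v A = p w` -/
  w : List (List Z8)
  /-- Bezout coefficient of the first entry of `v` modulo `l` -/
  al : List ℕ
  /-- Bezout coefficient of `p` modulo `l` -/
  be : List ℕ
  /-- `C A` is upper triangular modulo `l` -/
  C : List (List (List ℕ))
  /-- exponents of `x` on the diagonal -/
  kk : List ℕ
  /-- exponents of `x - 1` on the diagonal -/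
  bb : List ℕ
  /-- `x ^ (D + 1) = m + P`, `P = (x - 1) p` -/
  D : ℕ
  /-- `x ^ (D + 1) = m + P`, `P = (x - 1) p` -/
  m : List ℕ
  /-- Bezout coefficient of `P` -/
  u₁ : List ℕ
  /-- Bezout coefficient of `x P'` -/
  u₂ : List ℕ
  /-- the roots of `P` have order dividing `2 ^ J * (2 * N + 1)` -/
  J : ℕ
  /-- the roots of `P` have order dividing `2 ^ J * (2 * N + 1)` -/
  N : ℕ
  /-- `q (x ^ 2 ^ J) = x` modulo `P` -/
  q : List ℕ

/-- `s ^ d g(s + 1/s)` where `d + 1` is the length of `g`. -/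
def homZ : List ℤ → List Z8
  | [] => []
  | c :: g => addZ (ofInts (List.replicate g.length 0 ++ [c])) (mulZ (ofInts [1, 0, 1]) (homZ g))

/-- Evaluation of an integer list at a rational number. -/
def evQ (x : ℚ) : List ℤ → ℚ
  | [] => 0
  | c :: p => c + x * evQ x p

/-- Sum of a list of polynomials. -/
def sumZ : List (List Z8) → List Z8
  | [] => []
  | p :: ps => addZ p (sumZ ps)

/-- Sum of a list of polynomials. -/
def sumN : List (List ℕ) → List ℕ
  | [] => []
  | p :: ps => addN p (sumN ps)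

/-- Powers of a polynomial. -/
def powN (p : List ℕ) : ℕ → List ℕ
  | 0 => [1]
  | n + 1 => mulN p (powN p n)

namespace NCert

variable (c : NCert) (A : Fin 12 → Fin 12 → List Z8)

/-- The monic polynomial `p`. -/
def p : List Z8 := ofInts (c.L ++ [1])

/-- Reduction of a polynomial. -/
def red (f : List Z8) : List ℕ := f.map (Z8.red c.l c.a₀)

/-- The reduction of `(x - 1) p`. -/
def P : List ℕ := mulN [c.l - 1, 1] (c.red c.p)

/-- The diagonal entries. -/
def dg (i : Fin 12) : List ℕ :=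
  mulN (mulN (List.replicate (c.kk.getD i 0) 0 ++ [1]) (powN [c.l - 1, 1] (c.bb.getD i 0)))
    (if i = 11 then c.red c.p else [1])

/-- Checks on `p`: a unit root in characteristic zero. -/
def chk₁ : Bool :=
  c.l % 2 == 1 && decide (1 < c.l) && (c.a₀ ^ 4 + 1) % c.l == 0 &&
    (subZ (homZ c.g) c.p).all Z8.isZero && decide (-2 ≤ c.x₁) && decide (c.x₁ ≤ c.x₂) &&
    decide (c.x₂ ≤ 2) && decide (evQ c.x₁ c.g * evQ c.x₂ c.g < 0)

/-- Checks on the roots of `P` modulo `l`. -/
def chk₂ : Bool :=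
  eqN c.l (List.replicate (c.D + 1) 0 ++ [1]) (addN c.m c.P) &&
    eqN c.l (addN (mulN c.u₁ c.P) (mulN c.u₂ (derN 0 c.P))) [1] &&
    decide (2 ^ c.J * (2 * c.N + 1) < 2 ^ 64) &&
    powmodN c.l c.D c.m 64 (2 ^ c.J * (2 * c.N + 1)) (fun r => eqN c.l r [1]) &&
    powmodN c.l c.D c.m 64 (2 ^ c.J) fun y =>
      compmodN c.l c.D c.m y c.q fun r => eqN c.l r [0, 1]

/-- Check of `v A = p w` and of `v ≠ 0` at the roots of `p`. -/
def chk₃ : Bool :=
  ((List.finRange 12).all fun j : Fin 12 =>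
    (subZ (sumZ ((List.finRange 12).map fun i : Fin 12 => mulZ (c.v.getD i []) (A i j)))
      (mulZ c.p (c.w.getD j []))).all Z8.isZero) &&
    eqN c.l (addN (mulN c.al (c.red (c.v.getD 0 []))) (mulN c.be (c.red c.p))) [1]

/-- Check that `C A` is upper triangular modulo `l` with the given diagonal. -/
def chk₄ : Bool :=
  (List.finRange 12).all fun i : Fin 12 => (List.finRange 12).all fun j : Fin 12 =>
    decide (i < j) ||
      eqN c.l (sumN ((List.finRange 12).map fun k : Fin 12 =>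
        mulN (c.red (A k j)) ((c.C.getD i []).getD k []))) (if i = j then c.dg i else [])

end NCert

end Pool.Agent.MP_bc14e1_gt
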