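import Mathlib

/-! List arithmetic for the determinant certificates. -/

namespace Pool.Agent.MP_bc14e1_gt

/-! ### Polynomials with natural number coefficients, read modulo a prime -/

/-- Evaluation of a coefficient list. -/
def evN {R : Type} [CommRing R] (x : R) : List ℕ → R
  | [] => 0
  | c :: p => c + x * evN x p

/-- Sum of coefficient lists. -/
def addN : List ℕ → List ℕ → List ℕ
  | [], q => q
  | c :: p, [] => c :: p
  | c :: p, d :: q => (c + d) :: addN p q

/-- Scalar multiple of a coefficient list. -/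
def smulN (c : ℕ) : List ℕ → List ℕ
  | [] => []
  | d :: q => c * d :: smulN c q

/-- Product of coefficient lists. -/
def mulN : List ℕ → List ℕ → List ℕ
  | [], _ => []
  | c :: p, q => addN (smulN c q) (0 :: mulN p q)

/-- All coefficients are divisible by `l`. -/
def zeroN (l : ℕ) : List ℕ → Bool
  | [] => true
  | c :: p => c % l == 0 && zeroN l p

/-- Equality modulo `l`. -/
def eqN (l : ℕ) (p q : List ℕ) : Bool := zeroN l (addN p (smulN (l - 1) q))

/-- Reduce modulo `l` and pass the evaluated list on. -/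
def redN {β : Type} (l : ℕ) : List ℕ → (List ℕ → β) → β
  | [], k => k []
  | c :: p, k =>
    match c % l with
    | 0 => redN l p fun q => k (0 :: q)
    | n + 1 => redN l p fun q => k ((n + 1) :: q)

/-- Multiplication by `x` modulo `x ^ (d + 1) = m`. -/
def mulxN (d : ℕ) (m p : List ℕ) : List ℕ := addN (0 :: p.take d) (mulN (p.drop d) m)

/-- Multiplication modulo `l` and `x ^ (d + 1) = m`. -/
def mulmodN {β : Type} (l d : ℕ) (m : List ℕ) : List ℕ → List ℕ → (List ℕ → β) → β
  | [], _, k => k []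
  | c :: p, q, k => mulmodN l d m p q fun r => redN l (addN (smulN c q) (mulxN d m r)) k

/-- Powers of `x` modulo `l` and `x ^ (d + 1) = m`. -/
def powmodN {β : Type} (l d : ℕ) (m : List ℕ) : ℕ → ℕ → (List ℕ → β) → β
  | 0, _, k => k [1]
  | f + 1, e, k => powmodN l d m f (e / 2) fun h => mulmodN l d m h h fun r =>
      if e % 2 = 1 then redN l (mulxN d m r) k else k r

/-- Substitution of `y` into `q` modulo `l` and `x ^ (d + 1) = m`. -/
def compmodN {β : Type} (l d : ℕ) (m y : List ℕ) : List ℕ → (List ℕ → β) → β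
  | [], k => k []
  | c :: q, k => compmodN l d m y q fun r => mulmodN l d m y r fun w => k (addN [c] w)

/-- Derivative of a coefficient list (`i` is the index of the head). -/
def derN : ℕ → List ℕ → List ℕ
  | _, [] => []
  | i, c :: p => i * c :: derN (i + 1) p

section

variable {R : Type} [CommRing R] (x : R)

theorem evN_addN (p q : List ℕ) : evN x (addN p q) = evN x p + evN x q := by
  induction p generalizing q with
  | nil => simp [addN, evN]
  | cons c p ih =>
    cases q with
    | nil => simp [addN, evN]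
    | cons d q => simp only [addN, evN, ih, Nat.cast_add]; ring

theorem evN_smulN (c : ℕ) (q : List ℕ) : evN x (smulN c q) = c * evN x q := by
  induction q with
  | nil => simp [smulN, evN]
  | cons d q ih => simp only [smulN, evN, ih, Nat.cast_mul]; ring

theorem evN_mulN (p q : List ℕ) : evN x (mulN p q) = evN x p * evN x q := by
  induction p with
  | nil => simp [mulN, evN]
  | cons c p ih => simp only [mulN, evN_addN, evN_smulN, evN, ih, Nat.cast_zero]; ring

theorem evN_take_drop (d : ℕ) (p : List ℕ) :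
    evN x p = evN x (p.take d) + x ^ d * evN x (p.drop d) := by
  induction d generalizing p with
  | zero => simp [evN]
  | succ d ih =>
    cases p with
    | nil => simp [evN]
    | cons c p => simp only [List.take_succ_cons, List.drop_succ_cons, evN]; rw [ih p]; ring

theorem map_evN {S : Type} [CommRing S] (φ : R →+* S) (p : List ℕ) :
    φ (evN x p) = evN (φ x) p := by
  induction p with
  | nil => simp [evN]
  | cons c p ih => simp [evN, ih]

variable {l : ℕ} (hl : (l : R) = 0)
include hl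

theorem cast_mod_eq (c : ℕ) : ((c % l : ℕ) : R) = c := by
  conv_rhs => rw [← Nat.mod_add_div c l]
  simp [hl]

theorem evN_of_zeroN {p : List ℕ} (h : zeroN l p = true) : evN x p = 0 := by
  induction p with
  | nil => rfl
  | cons c p ih =>
    simp only [zeroN, Bool.and_eq_true, beq_iff_eq] at h
    rw [evN, ih h.2, ← cast_mod_eq hl c, h.1]
    simp

theorem evN_of_eqN (h0 : 0 < l) {p q : List ℕ} (h : eqN l p q = true) : evN x p = evN x q := by
  have h1 := evN_of_zeroN x hl h
  rw [evN_addN, evN_smulN, Nat.cast_sub h0, hl] at h1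
  linear_combination h1

theorem redN_spec {β : Type} (p : List ℕ) (k : List ℕ → β) :
    ∃ q, evN x q = evN x p ∧ redN l p k = k q := by
  induction p generalizing k with
  | nil => exact ⟨[], rfl, rfl⟩
  | cons c p ih =>
    have hc := cast_mod_eq hl c
    rw [redN]
    generalize c % l = n at hc
    cases n with
    | zero =>
      obtain ⟨q, h1, h2⟩ := ih fun q => k (0 :: q)
      exact ⟨0 :: q, by rw [evN, evN, h1, hc], h2⟩
    | succ n =>
      obtain ⟨q, h1, h2⟩ := ih fun q => k ((n + 1) :: q)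
      exact ⟨(n + 1) :: q, by rw [evN, evN, h1, hc], h2⟩

variable {d : ℕ} {m : List ℕ} (hm : x ^ (d + 1) = evN x m)
include hm

omit hl in
theorem evN_mulxN (p : List ℕ) : evN x (mulxN d m p) = x * evN x p := by
  rw [mulxN, evN_addN, evN_mulN, ← hm, evN, evN_take_drop x d p]
  simp only [Nat.cast_zero]
  ring

theorem mulmodN_spec {β : Type} (p q : List ℕ) (k : List ℕ → β) :
    ∃ r, evN x r = evN x p * evN x q ∧ mulmodN l d m p q k = k r := by
  induction p generalizing k with
  | nil => exact ⟨[], by simp [evN], rfl⟩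
  | cons c p ih =>
    obtain ⟨r, h1, h2⟩ := ih fun r => redN l (addN (smulN c q) (mulxN d m r)) k
    obtain ⟨w, h3, h4⟩ := redN_spec x hl (addN (smulN c q) (mulxN d m r)) k
    refine ⟨w, ?_, by rw [mulmodN, h2, h4]⟩
    rw [h3, evN_addN, evN_smulN, evN_mulxN x hm, h1, evN]
    ring

theorem powmodN_spec {β : Type} (f e : ℕ) (he : e < 2 ^ f) (k : List ℕ → β) :
    ∃ r, evN x r = x ^ e ∧ powmodN l d m f e k = k r := by
  induction f generalizing e k with
  | zero =>
    obtain rfl : e = 0 := by omega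
    exact ⟨[1], by simp [evN], rfl⟩
  | succ f ih =>
    obtain ⟨h, h1, h2⟩ := ih (e / 2) (by omega) fun h => mulmodN l d m h h fun r =>
      if e % 2 = 1 then redN l (mulxN d m r) k else k r
    obtain ⟨r, h3, h4⟩ := mulmodN_spec x hl hm h h fun r =>
      if e % 2 = 1 then redN l (mulxN d m r) k else k r
    rw [powmodN, h2, h4]
    split_ifs with h5
    · obtain ⟨w, h6, h7⟩ := redN_spec x hl (mulxN d m r) k
      refine ⟨w, ?_, h7⟩
      rw [h6, evN_mulxN x hm, h3, h1, ← pow_add, ← pow_succ']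
      congr 1
      omega
    · refine ⟨r, ?_, rfl⟩
      rw [h3, h1, ← pow_add]
      congr 1
      omega

theorem compmodN_spec {β : Type} (y q : List ℕ) (k : List ℕ → β) :
    ∃ r, evN x r = evN (evN x y) q ∧ compmodN l d m y q k = k r := by
  induction q generalizing k with
  | nil => exact ⟨[], rfl, rfl⟩
  | cons c q ih =>
    obtain ⟨r, h1, h2⟩ := ih fun r => mulmodN l d m y r fun w => k (addN [c] w)
    obtain ⟨w, h3, h4⟩ := mulmodN_spec x hl hm y r fun w => k (addN [c] w)
    refine ⟨addN [c] w, ?_, by rw [compmodN, h2, h4]⟩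
    rw [evN_addN, h3, h1]
    simp [evN]

end

theorem evN_eq_eval {R : Type} [CommRing R] (x : R) (p : List ℕ) :
    (evN (Polynomial.X : Polynomial R) p).eval x = evN x p := by
  have := map_evN (Polynomial.X : Polynomial R) (Polynomial.evalRingHom x) p
  simpa using this

theorem derivative_evN {R : Type} [CommRing R] (i : ℕ) (p : List ℕ) :
    Polynomial.X * Polynomial.derivative (evN (Polynomial.X : Polynomial R) p) +
      (i : Polynomial R) * evN Polynomial.X p = evN Polynomial.X (derN i p) := by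
  induction p generalizing i with
  | nil => simp [evN, derN]
  | cons c p ih =>
    simp only [evN, derN, ← ih (i + 1), map_add, Polynomial.derivative_mul,
      Polynomial.derivative_X, Polynomial.derivative_natCast, Nat.cast_mul, Nat.cast_add,
      Nat.cast_one]
    ring

/-! ### Polynomials over `ℤ[a]`, `a ^ 4 = -1` -/

/-- Elements of `ℤ[a]`. -/
structure Z8 where
  /-- coefficient of `1` -/
  c0 : ℤ
  /-- coefficient of `a` -/
  c1 : ℤ
  /-- coefficient of `a ^ 2` -/
  c2 : ℤ
  /-- coefficient of `a ^ 3` -/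
  c3 : ℤ

/-- Evaluation. -/
def Z8.ev {R : Type} [CommRing R] (a : R) (z : Z8) : R :=
  z.c0 + z.c1 * a + z.c2 * a ^ 2 + z.c3 * a ^ 3

/-- Sum. -/
def Z8.add (z w : Z8) : Z8 := ⟨z.c0 + w.c0, z.c1 + w.c1, z.c2 + w.c2, z.c3 + w.c3⟩

/-- Negative. -/
def Z8.neg (z : Z8) : Z8 := ⟨-z.c0, -z.c1, -z.c2, -z.c3⟩

/-- Product. -/
def Z8.mul (z w : Z8) : Z8 :=
  ⟨z.c0 * w.c0 - z.c1 * w.c3 - z.c2 * w.c2 - z.c3 * w.c1,
    z.c0 * w.c1 + z.c1 * w.c0 - z.c2 * w.c3 - z.c3 * w.c2,
    z.c0 * w.c2 + z.c1 * w.c1 + z.c2 * w.c0 - z.c3 * w.c3,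
    z.c0 * w.c3 + z.c1 * w.c2 + z.c2 * w.c1 + z.c3 * w.c0⟩

/-- Multiplication by a power of `a`. -/
def Z8.mulA : ℕ → Z8 → Z8
  | 0, z => z
  | e + 1, z => Z8.mulA e ⟨-z.c3, z.c0, z.c1, z.c2⟩

/-- Zero test. -/
def Z8.isZero (z : Z8) : Bool := z.c0 == 0 && z.c1 == 0 && z.c2 == 0 && z.c3 == 0

/-- Reduction modulo `l` with `a` replaced by `a₀`. -/
def Z8.red (l a₀ : ℕ) (z : Z8) : ℕ :=
  ((z.c0 + z.c1 * a₀ + z.c2 * a₀ ^ 2 + z.c3 * a₀ ^ 3) % l).toNat

/-- Evaluation of a coefficient list. -/
def evZ {R : Type} [CommRing R] (a x : R) : List Z8 → R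
  | [] => 0
  | c :: p => c.ev a + x * evZ a x p

/-- Sum. -/
def addZ : List Z8 → List Z8 → List Z8
  | [], q => q
  | c :: p, [] => c :: p
  | c :: p, d :: q => c.add d :: addZ p q

/-- Difference. -/
def subZ (p q : List Z8) : List Z8 := addZ p (q.map Z8.neg)

/-- Multiplication by `x` if the flag is set. -/
def shZ (b : Bool) (p : List Z8) : List Z8 := if b then ⟨0, 0, 0, 0⟩ :: p else p

/-- Product. -/
def mulZ : List Z8 → List Z8 → List Z8
  | [], _ => []
  | c :: p, q => addZ (q.map c.mul) (⟨0, 0, 0, 0⟩ :: mulZ p q)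

/-- Integer coefficient lists. -/
def ofInts (p : List ℤ) : List Z8 := p.map fun c => ⟨c, 0, 0, 0⟩

section

variable {R : Type} [CommRing R] (a x : R)

theorem Z8.ev_add (z w : Z8) : (z.add w).ev a = z.ev a + w.ev a := by
  simp only [Z8.ev, Z8.add]; push_cast; ring

theorem Z8.ev_neg (z : Z8) : z.neg.ev a = -z.ev a := by
  simp only [Z8.ev, Z8.neg]; push_cast; ring

theorem Z8.ev_mul (ha : a ^ 4 = -1) (z w : Z8) : (z.mul w).ev a = z.ev a * w.ev a := by
  simp only [Z8.ev, Z8.mul]
  push_cast
  linear_combination (-((z.c1 * w.c3 + z.c2 * w.c2 + z.c3 * w.c1 : R) +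
    (z.c2 * w.c3 + z.c3 * w.c2) * a + z.c3 * w.c3 * a ^ 2)) * ha

theorem Z8.ev_mulA (ha : a ^ 4 = -1) (e : ℕ) (z : Z8) : (Z8.mulA e z).ev a = a ^ e * z.ev a := by
  induction e generalizing z with
  | zero => simp [Z8.mulA]
  | succ e ih =>
    rw [Z8.mulA, ih]
    simp only [Z8.ev]
    push_cast
    linear_combination (-(a ^ e * z.c3)) * ha

theorem Z8.ev_of_isZero {z : Z8} (h : z.isZero = true) : z.ev a = 0 := by
  simp only [Z8.isZero, Bool.and_eq_true, beq_iff_eq] at h
  simp [Z8.ev, h.1.1.1, h.1.1.2, h.1.2, h.2]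

theorem Z8.cast_red {l a₀ : ℕ} (hl : (l : R) = 0) (h0 : 0 < l) (z : Z8) :
    (z.red l a₀ : R) = z.ev (a₀ : R) := by
  have h1 : (0 : ℤ) ≤ (z.c0 + z.c1 * a₀ + z.c2 * a₀ ^ 2 + z.c3 * a₀ ^ 3) % l :=
    Int.emod_nonneg _ (by omega)
  rw [Z8.red, ← Int.cast_natCast, Int.toNat_of_nonneg h1, Int.emod_def]
  simp [Z8.ev, hl]

theorem evZ_addZ (p q : List Z8) : evZ a x (addZ p q) = evZ a x p + evZ a x q := by
  induction p generalizing q with
  | nil => simp [addZ, evZ]
  | cons c p ih =>
    cases q with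
    | nil => simp [addZ, evZ]
    | cons d q => simp only [addZ, evZ, ih, Z8.ev_add]; ring

theorem evZ_map {f : Z8 → Z8} {c : R} (hf : ∀ z, (f z).ev a = c * z.ev a) (q : List Z8) :
    evZ a x (q.map f) = c * evZ a x q := by
  induction q with
  | nil => simp [evZ]
  | cons d q ih => simp only [List.map_cons, evZ, ih, hf]; ring

theorem evZ_subZ (p q : List Z8) : evZ a x (subZ p q) = evZ a x p - evZ a x q := by
  rw [subZ, evZ_addZ, evZ_map a x (c := -1) fun z => by rw [Z8.ev_neg]; ring]
  ring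

theorem evZ_shZ (b : Bool) (p : List Z8) :
    evZ a x (shZ b p) = (if b then x else 1) * evZ a x p := by
  cases b <;> simp [shZ, evZ, Z8.ev]

theorem evZ_mulZ (ha : a ^ 4 = -1) (p q : List Z8) :
    evZ a x (mulZ p q) = evZ a x p * evZ a x q := by
  induction p with
  | nil => simp [mulZ, evZ]
  | cons c p ih =>
    simp only [mulZ, evZ_addZ, evZ_map a x (Z8.ev_mul a ha c), evZ, ih]
    simp only [Z8.ev, Int.cast_zero]
    ring

theorem evZ_of_all {p : List Z8} (h : p.all Z8.isZero = true) : evZ a x p = 0 := by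
  induction p with
  | nil => rfl
  | cons c p ih =>
    simp only [List.all_cons, Bool.and_eq_true] at h
    rw [evZ, ih h.2, Z8.ev_of_isZero a h.1]
    simp

theorem map_evZ {S : Type} [CommRing S] (φ : R →+* S) (p : List Z8) :
    φ (evZ a x p) = evZ (φ a) (φ x) p := by
  induction p with
  | nil => simp [evZ]
  | cons c p ih => simp [evZ, ih, Z8.ev]

theorem evN_red {l a₀ : ℕ} (hl : (l : R) = 0) (h0 : 0 < l) (p : List Z8) :
    evN x (p.map (Z8.red l a₀)) = evZ (a₀ : R) x p := by
  induction p with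
  | nil => rfl
  | cons c p ih => simp only [List.map_cons, evN, evZ, ih, Z8.cast_red hl h0]

end

end Pool.Agent.MP_bc14e1_gt
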