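import Pool.Agent.MP_bc14e1_gt.K.KnotA

/-! The closed braid is the closure of an odd long knot. -/

open Set Metric
open scoped ContDiff

namespace Pool.Agent.MP_bc14e1_gt

theorem range_kap : range kap = Kset := Knot_range

theorem cA_contDiff : ContDiff ℝ ∞ cA := Knot_cA_smooth

theorem cB_contDiff : ContDiff ℝ ∞ cB := Knot_cB_smooth

theorem kap_contDiff : ContDiff ℝ ∞ kap := Knot_kap_smooth

theorem kap_add66 (ψ : ℝ) (j : ℤ) : kap (ψ + 66 * j) = kap ψ := Knot_add66 ψ j

theorem kap_inj {ψ ψ' : ℝ} (h : kap ψ = kap ψ') : ∃ j : ℤ, ψ' = ψ + 66 * j := Knot_inj h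

theorem isCompact_Kset : IsCompact Kset := Knot_compact

/-- An odd monotone step from `-1` to `1`. -/
noncomputable def Knot_g (t : ℝ) : ℝ := 2 * Real.smoothTransition ((t + 1) / 2) - 1

/-- The reparametrisation of the line onto `(-33, 33)`. -/
noncomputable def Knot_psi (t : ℝ) : ℝ := 22 / Real.pi * Real.arctan t + 22 * Knot_g t

theorem Knot_g_smooth : ContDiff ℝ ∞ Knot_g :=
  (contDiff_const.mul (Real.smoothTransition.contDiff.comp
    ((contDiff_id.add contDiff_const).div_const 2))).sub contDiff_const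

theorem Knot_g_mono : Monotone Knot_g := by
  intro s t h
  have := Real.smoothTransition.monotone (show (s + 1) / 2 ≤ (t + 1) / 2 by linarith)
  unfold Knot_g
  linarith

theorem Knot_g_neg (t : ℝ) : Knot_g (-t) = -Knot_g t := by
  unfold Knot_g
  rw [show (-t + 1) / 2 = 1 - (t + 1) / 2 by ring, smoothTransition_one_sub]
  ring

theorem Knot_g_one {t : ℝ} (h : 1 ≤ t) : Knot_g t = 1 := by
  unfold Knot_g
  rw [Real.smoothTransition.one_of_one_le (by linarith)]
  ring

theorem Knot_g_le (t : ℝ) : Knot_g t ≤ 1 := by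
  have := Real.smoothTransition.le_one ((t + 1) / 2)
  unfold Knot_g
  linarith

theorem Knot_psi_smooth : ContDiff ℝ ∞ Knot_psi :=
  (contDiff_const.mul Real.contDiff_arctan).add (contDiff_const.mul Knot_g_smooth)

theorem Knot_psi_neg (t : ℝ) : Knot_psi (-t) = -Knot_psi t := by
  unfold Knot_psi
  rw [Real.arctan_neg, Knot_g_neg]
  ring

theorem Knot_psi_mono : StrictMono Knot_psi := by
  intro s t h
  have h1 := mul_lt_mul_of_pos_left (Real.arctan_strictMono h)
    (div_pos (by norm_num : (0 : ℝ) < 22) Real.pi_pos)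
  have h2 := Knot_g_mono h.le
  unfold Knot_psi
  linarith

theorem Knot_psi_lt (t : ℝ) : Knot_psi t < 33 := by
  have h1 := mul_lt_mul_of_pos_left (Real.arctan_lt_pi_div_two t)
    (div_pos (by norm_num : (0 : ℝ) < 22) Real.pi_pos)
  have h2 : 22 / Real.pi * (Real.pi / 2) = 11 := by
    field_simp
    norm_num
  have h3 := Knot_g_le t
  unfold Knot_psi
  linarith

theorem Knot_psi_gt (t : ℝ) : -33 < Knot_psi t := by
  have := Knot_psi_lt (-t)
  rw [Knot_psi_neg] at this
  linarith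

theorem Knot_psi_ev {y : ℝ} (hy : y < 33) : ∀ᶠ t in Filter.atTop, y < Knot_psi t := by
  have h1 : Filter.Tendsto (fun t => 22 / Real.pi * Real.arctan t + 22) Filter.atTop
      (nhds (22 / Real.pi * (Real.pi / 2) + 22)) :=
    ((Real.tendsto_arctan_atTop.mono_right nhdsWithin_le_nhds).const_mul _).add_const _
  have h2 : 22 / Real.pi * (Real.pi / 2) + 22 = 33 := by
    field_simp
    norm_num
  rw [h2] at h1
  filter_upwards [h1.eventually (lt_mem_nhds hy), Filter.eventually_ge_atTop (1 : ℝ)] with t h3 h4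
  unfold Knot_psi
  rw [Knot_g_one h4, mul_one]
  exact h3

theorem Knot_psi_surj {y : ℝ} (h1 : -33 < y) (h2 : y < 33) : ∃ t, Knot_psi t = y := by
  obtain ⟨b, hb⟩ := (Knot_psi_ev h2).exists
  obtain ⟨a, ha⟩ := (Knot_psi_ev (y := -y) (by linarith)).exists
  exact intermediate_value_univ (-a) b Knot_psi_smooth.continuous
    ⟨by rw [Knot_psi_neg]; linarith, hb.le⟩

theorem Knot_psi_deriv (t : ℝ) : ∃ d, 0 < d ∧ HasDerivAt Knot_psi d t := by
  have h1 : HasDerivAt Knot_g (deriv Knot_g t) t :=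
    (Knot_g_smooth.differentiable (by simp) t).hasDerivAt
  have h2 := h1.nonneg_of_monotone Knot_g_mono
  refine ⟨_, ?_, ((Real.hasDerivAt_arctan t).const_mul (22 / Real.pi)).add (h1.const_mul 22)⟩
  have := Real.pi_pos
  positivity

/-- Stereographic projection. -/
noncomputable def Knot_st (v : E 4) : E 3 := (1 + v 0)⁻¹ • !₂[v 1, v 2, v 3]

theorem Knot_st0 (v : E 4) : Knot_st v 0 = (1 + v 0)⁻¹ * v 1 := by simp [Knot_st]

theorem Knot_st1 (v : E 4) : Knot_st v 1 = (1 + v 0)⁻¹ * v 2 := by simp [Knot_st]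

theorem Knot_st2 (v : E 4) : Knot_st v 2 = (1 + v 0)⁻¹ * v 3 := by simp [Knot_st]

theorem Knot_E3_ext {v w : E 3} (h0 : v 0 = w 0) (h1 : v 1 = w 1) (h2 : v 2 = w 2) : v = w := by
  ext i
  fin_cases i
  exacts [h0, h1, h2]

theorem Knot_stereo (v : E 4) (hv : ‖v‖ = 1) (h : 1 + v 0 ≠ 0) : stereoInv (Knot_st v) = v := by
  have h1 := E4_norm_sq v
  rw [hv] at h1
  have h2 : ‖Knot_st v‖ ^ 2 = (1 - v 0) / (1 + v 0) := by
    rw [EuclideanSpace.real_norm_sq_eq, Fin.sum_univ_three, Knot_st0, Knot_st1, Knot_st2]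
    field_simp
    linarith
  have h3 : (1 + ‖Knot_st v‖ ^ 2)⁻¹ = (1 + v 0) / 2 := by
    rw [h2]
    field_simp
    ring
  unfold stereoInv
  rw [h3, h2]
  refine E4_ext ?_ ?_ ?_ ?_
  · simp
    field_simp
    ring
  · simp [Knot_st0]
    field_simp
  · simp [Knot_st1]
    field_simp
  · simp [Knot_st2]
    field_simp

theorem Knot_stereoInv_smooth : ContDiff ℝ ∞ stereoInv := by
  unfold stereoInv
  have h : ContDiff ℝ ∞ fun w : E 3 => ‖w‖ ^ 2 := contDiff_norm_sq ℝ
  refine ContDiff.smul ((contDiff_const.add h).inv fun w => by positivity) ?_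
  rw [contDiff_euclidean]
  intro i
  fin_cases i
  · simpa using contDiff_const.sub h
  all_goals simp
  all_goals fun_prop

/-- The long knot. -/
noncomputable def Knot_f (t : ℝ) : E 3 := Knot_st (kap (Knot_psi t))

theorem Knot_f_ne (t : ℝ) : 1 + kap (Knot_psi t) 0 ≠ 0 :=
  Knot_ne_pole (Knot_psi_gt t) (Knot_psi_lt t)

theorem Knot_f_inv (t : ℝ) : stereoInv (Knot_f t) = kap (Knot_psi t) :=
  Knot_stereo _ (norm_emb _ _ _) (Knot_f_ne t)

theorem Knot_f_smooth : ContDiff ℝ ∞ Knot_f := by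
  have h : ∀ i, ContDiff ℝ ∞ fun t => kap (Knot_psi t) i :=
    contDiff_euclidean.1 (kap_contDiff.comp Knot_psi_smooth)
  unfold Knot_f Knot_st
  refine ContDiff.smul ((contDiff_const.add (h 0)).inv Knot_f_ne) ?_
  rw [contDiff_euclidean]
  intro i
  fin_cases i
  · simpa using h 1
  · simpa using h 2
  · simpa using h 3

theorem Knot_f_inj : Function.Injective Knot_f := by
  intro s t h
  have h1 : kap (Knot_psi s) = kap (Knot_psi t) := by rw [← Knot_f_inv, ← Knot_f_inv, h]
  obtain ⟨j, hj⟩ := kap_inj h1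
  have a1 := Knot_psi_lt s
  have a2 := Knot_psi_lt t
  have a3 := Knot_psi_gt s
  have a4 := Knot_psi_gt t
  have h5 : (-1 : ℝ) < j := by linarith
  have h6 : (j : ℝ) < 1 := by linarith
  have h7 : -1 < j := by exact_mod_cast h5
  have h8 : j < 1 := by exact_mod_cast h6
  have h9 : j = 0 := by omega
  rw [h9, Int.cast_zero, mul_zero, add_zero] at hj
  exact (Knot_psi_mono.injective hj).symm

theorem Knot_f_neg (t : ℝ) : Knot_f (-t) = -Knot_f t := by
  obtain ⟨h0, h1, h2, h3⟩ := Knot_kap_neg (Knot_psi t)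
  unfold Knot_f
  rw [Knot_psi_neg]
  refine Knot_E3_ext ?_ ?_ ?_
  · rw [PiLp.neg_apply, Knot_st0, Knot_st0, h0, h1, mul_neg]
  · rw [PiLp.neg_apply, Knot_st1, Knot_st1, h0, h2, mul_neg]
  · rw [PiLp.neg_apply, Knot_st2, Knot_st2, h0, h3, mul_neg]

theorem Knot_f_imm (t : ℝ) : deriv Knot_f t ≠ 0 := by
  intro h
  have h1 : HasDerivAt Knot_f 0 t := h ▸ (Knot_f_smooth.differentiable (by simp) t).hasDerivAt
  have h2 := (Knot_stereoInv_smooth.differentiable (by simp) (Knot_f t)).hasFDerivAt.comp_hasDerivAt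
    t h1
  rw [map_zero] at h2
  have h3 : stereoInv ∘ Knot_f = fun s => kap (Knot_psi s) := funext Knot_f_inv
  rw [h3] at h2
  have h4 : ∀ i, HasDerivAt (fun s => kap (Knot_psi s) i) 0 t := fun i => by
    have h0 := (EuclideanSpace.proj (𝕜 := ℝ) i).hasFDerivAt.comp_hasDerivAt t h2
    rw [map_zero] at h0
    exact h0
  set θ : ℝ := Real.pi * Knot_psi t / 11 with hθ
  have h5 := ((h4 0).const_mul (-Real.sin θ)).add ((h4 1).const_mul (Real.cos θ))
  obtain ⟨d, hd, hψ⟩ := Knot_psi_deriv t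
  let n : ℝ → ℝ := fun s => (√(1 + cA (Knot_psi s) ^ 2 + cB (Knot_psi s) ^ 2))⁻¹
  have hn : ContDiff ℝ ∞ n :=
    ContDiff.inv (ContDiff.sqrt ((contDiff_const.add
      ((cA_contDiff.comp Knot_psi_smooth).pow 2)).add ((cB_contDiff.comp Knot_psi_smooth).pow 2))
      fun s => by positivity) fun s => (nrm_pos _ _).ne'
  have hn0 : 0 < n t := inv_pos.2 (nrm_pos _ _)
  have h6 := (hn.differentiable (by simp) t).hasDerivAt.mul
    ((((hψ.const_mul Real.pi).div_const 11).sub_const θ).sin)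
  have h7 : (n * fun s => Real.sin (Real.pi * Knot_psi s / 11 - θ)) =
      (fun s => -Real.sin θ * kap (Knot_psi s) 0) + fun s => Real.cos θ * kap (Knot_psi s) 1 := by
    funext s
    simp only [Pi.mul_apply, Pi.add_apply, kap, emb_0, emb_1, Real.sin_sub, n]
    ring
  rw [h7] at h6
  have h8 := h5.unique h6
  rw [← hθ, sub_self, Real.sin_zero, Real.cos_zero] at h8
  have h9 : 0 < n t * (1 * (Real.pi * d / 11)) := by
    have := Real.pi_pos
    positivity
  linarith

theorem Knot_f_far : ∃ R₀ : ℝ, 0 < R₀ ∧ ∀ t, R₀ ≤ |t| → Knot_f t = EuclideanSpace.single 0 t := by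
  have key : ∀ᶠ t in Filter.atTop, Knot_f t = EuclideanSpace.single 0 t := by
    filter_upwards [Knot_psi_ev (y := 33 - 1 / 3) (by norm_num),
      Filter.eventually_ge_atTop (1 : ℝ)] with t h1 h2
    have h3 := Knot_psi_lt t
    have ha : cA (Knot_psi t) = 0 := by
      rw [Knot_cA_near 33 _ (by push_cast; linarith) (by push_cast; linarith), pos_33,
        Int.cast_zero]
    have hb : cB (Knot_psi t) = 0 :=
      Knot_cB_near 33 _ (by push_cast; linarith) (by push_cast; linarith)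
    have h4 : Real.pi * Knot_psi t / 11 = 2 * Real.arctan t + 2 * Real.pi := by
      unfold Knot_psi
      rw [Knot_g_one h2]
      field_simp
      ring
    have hc := Real.cos_arctan_pos t
    have h5 : Real.sin (Real.arctan t) = t * Real.cos (Real.arctan t) := by
      have := Real.tan_arctan t
      rw [Real.tan_eq_sin_div_cos, div_eq_iff hc.ne'] at this
      exact this
    unfold Knot_f kap
    rw [ha, hb]
    refine Knot_E3_ext ?_ ?_ ?_
    · rw [Knot_st0, emb_0, emb_1, h4, Real.cos_add_two_pi, Real.sin_add_two_pi, Real.cos_two_mul,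
        Real.sin_two_mul, h5]
      simp
      field_simp
    · rw [Knot_st1, emb_2]
      simp
    · rw [Knot_st2, emb_3]
      simp
  obtain ⟨a, ha⟩ := Filter.eventually_atTop.1 key
  refine ⟨max a 1, lt_of_lt_of_le one_pos (le_max_right _ _), fun t ht => ?_⟩
  rcases le_total 0 t with h | h
  · rw [abs_of_nonneg h] at ht
    exact ha t ((le_max_left _ _).trans ht)
  · rw [abs_of_nonpos h] at ht
    have h1 := ha (-t) ((le_max_left _ _).trans ht)
    rw [Knot_f_neg, neg_eq_iff_eq_neg] at h1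
    rw [h1]
    refine Knot_E3_ext ?_ ?_ ?_ <;> simp

theorem Knot_closeUp : closeUp Knot_f = Kset := by
  rw [← range_kap, closeUp, ← Knot_kap_33]
  ext v
  constructor
  · rintro (rfl | ⟨t, rfl⟩)
    · exact ⟨33, rfl⟩
    · exact ⟨_, (Knot_f_inv t).symm⟩
  · rintro ⟨ψ, rfl⟩
    obtain ⟨m, hm, -⟩ := existsUnique_add_zsmul_mem_Ioc (show (0 : ℝ) < 66 by norm_num) ψ (-33)
    rw [zsmul_eq_mul, mul_comm] at hm
    rw [← kap_add66 ψ m]
    rcases hm.2.eq_or_lt with h | h
    · left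
      rw [h]
      norm_num
    · obtain ⟨t, ht⟩ := Knot_psi_surj hm.1 (by linarith)
      exact Or.inr ⟨t, by rw [← ht]; exact Knot_f_inv t⟩

theorem exists_longKnot : ∃ K : LongKnot, closeUp K.f = Kset ∧ (∀ t, K.f (-t) = -K.f t) ∧
    ∃ R₀ < K.R, ∀ t, R₀ ≤ |t| → K.f t = EuclideanSpace.single 0 t := by
  obtain ⟨R₀, h0, h1⟩ := Knot_f_far
  obtain ⟨B, hB⟩ := (isCompact_Icc (a := -R₀) (b := R₀)).exists_bound_of_continuousOn
    Knot_f_smooth.continuous.continuousOn
  have h2 : R₀ < max R₀ B + 1 := lt_of_le_of_lt (le_max_left _ _) (lt_add_one _)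
  have h3 : B < max R₀ B + 1 := lt_of_le_of_lt (le_max_right _ _) (lt_add_one _)
  refine ⟨⟨Knot_f, max R₀ B + 1, h0.trans h2, Knot_f_smooth, Knot_f_inj, Knot_f_imm,
    fun t ht => h1 t (h2.le.trans ht), fun t ht => ?_⟩, Knot_closeUp, Knot_f_neg, R₀, h2, h1⟩
  rcases le_total |t| R₀ with h | h
  · exact (hB t (abs_le.1 h)).trans_lt h3
  · rw [h1 t h]
    simpa using ht

end Pool.Agent.MP_bc14e1_gt
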