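import Pool.Agent.MP_bc14e1_gt.K.Geo
import Pool.Agent.MP_bc14e1_gt.K.Knot

/-! The open sets of the Dehn decomposition of the knot complement. -/

open Set Metric

namespace Pool.Agent.MP_bc14e1_gt

/-- The knot in the sphere. -/
def KS : Set S3 := {v | v.1 ∈ Kset}

/-- The involution of the sphere. -/
noncomputable def iotS (v : S3) : S3 := ⟨iot v.1, by simp [norm_iot]⟩

/-- The pole `(0, 0, 0, ε)`. -/
noncomputable def pole (ε : Bool) : S3 :=
  ⟨EuclideanSpace.single 3 (if ε then 1 else -1), by cases ε <;> simp⟩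

/-- Points not at or below the knot. -/
def Up : Set S3 :=
  (insert (pole false) (embS '' {p | ∃ b, Str p.1 p.2.1 b ∧ p.2.2 ≤ b}))ᶜ

/-- Points not at or above the knot. -/
def Um : Set S3 :=
  (insert (pole true) (embS '' {p | ∃ b, Str p.1 p.2.1 b ∧ b ≤ p.2.2}))ᶜ

/-- The position of the middle strand. -/
noncomputable def mu (ψ : ℝ) : ℝ :=
  sd ⌊ψ⌋ * min (stp (Int.fract ψ)) (1 - stp (Int.fract ψ))

/-- The position of the outer strand on side `s`, multiplied by `s`. -/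
noncomputable def hi (s ψ : ℝ) : ℝ := 1 - max (s * mu ψ) 0

/-- Distance to the next crossing on the same side. -/
def nxZ : ZMod 22 → ℤ := ![1, 3, 1, 4, 1, 1, 3, 1, 3, 1, 3, 1, 3, 1, 4, 1, 1, 3, 1, 3, 1, 3]

/-- Distance to the next crossing on the same side. -/
def nx (k : ℤ) : ℤ := nxZ (k : ZMod 22)

/-- The region between two strands that starts at crossing `k`. -/
def Gap (k : ℤ) : Set S3 :=
  embS '' {p | k + 1 / 2 < p.1 ∧ p.1 < k + nx k + 1 / 2 ∧ sd k * mu p.1 < sd k * p.2.1 ∧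
    sd k * p.2.1 < hi (sd k) p.1}

/-- The outer region on side `s`. -/
def Out (s : ℝ) : Set S3 :=
  embS '' {p | hi s p.1 < s * p.2.1} ∪ {v | rad v.1 < s * v.1 2}

/-- The `24` regions. -/
def Reg (r : Fin 24) : Set S3 :=
  if (r : ℕ) < 22 then Gap (r : ℕ) else if (r : ℕ) = 22 then Out (-1) else Out 1

/-- The parameter domain of the box at crossing `k`. -/
def boxP (k : ℤ) : Set (ℝ × ℝ × ℝ) :=
  {p | k + 1 / 3 < p.1 ∧ p.1 < k + 2 / 3 ∧ -(1 / 2) < sd k * p.2.1 ∧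
    |p.2.2| < stp (p.1 - k) * (1 - stp (p.1 - k))}

/-- The box between the two strands of crossing `k`. -/
def Box (k : Fin 22) : Set S3 := embS '' boxP (k : ℕ)

/-- The two sides of the over strand. -/
def Bp (k : Fin 22) (i : Bool) : Set S3 :=
  embS '' (boxP (k : ℕ) ∩ {p | if i then stp (p.1 - (k : ℕ)) < sd (k : ℕ) * p.2.1
    else sd (k : ℕ) * p.2.1 < stp (p.1 - (k : ℕ))})

/-- The two sides of the under strand. -/
def Bm (k : Fin 22) (j : Bool) : Set S3 :=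
  embS '' (boxP (k : ℕ) ∩ {p | if j then 1 - stp (p.1 - (k : ℕ)) < sd (k : ℕ) * p.2.1
    else sd (k : ℕ) * p.2.1 < 1 - stp (p.1 - (k : ℕ))})

/-- The region that contains the quadrant `(i, j)` of crossing `k`. -/
def qd (k : Fin 22) : Bool → Bool → Fin 24
  | false, false =>
    ![21, 21, 1, 1, 3, 3, 3, 6, 6, 8, 8, 10, 10, 12, 12, 14, 14, 14, 17, 17, 19, 19] k
  | true, false =>
    ![19, 0, 21, 2, 1, 4, 5, 3, 7, 6, 9, 8, 11, 10, 13, 12, 15, 16, 14, 18, 17, 20] k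
  | false, true => k.castLE (by norm_num)
  | true, true =>
    ![22, 22, 23, 23, 22, 22, 22, 23, 23, 22, 22, 23, 23, 22, 22, 23, 23, 23, 22, 22, 23, 23] k

/-- The action of the involution on regions. -/
def iotR : Fin 24 → Fin 24 :=
  ![11, 12, 13, 14, 15, 16, 17, 18, 19, 20, 21, 0, 1, 2, 3, 4, 5, 6, 7, 8, 9, 10, 23, 22]

theorem iotS_embS (ψ a b : ℝ) : iotS (embS (ψ, a, b)) = embS (ψ + 11, -a, b) :=
  Subtype.ext (iot_emb ψ a b)

theorem embS_mem_KS {ψ a b : ℝ} : embS (ψ, a, b) ∈ KS ↔ Str ψ a b := emb_mem_Kset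

theorem rad_pole (ε : Bool) : rad (pole ε).1 = 0 := rad_eq_zero.2 ⟨by simp [pole], by simp [pole]⟩

theorem embS_ne_pole (p : ℝ × ℝ × ℝ) (ε : Bool) : embS p ≠ pole ε := fun h =>
  (rad_emb_pos p.1 p.2.1 p.2.2).ne' (by rw [← rad_pole ε, ← h]; rfl)

theorem embS_mem_Up {ψ a b : ℝ} : embS (ψ, a, b) ∈ Up ↔ ∀ b', Str ψ a b' → b' < b := by
  simp only [Up, mem_compl_iff, mem_insert_iff, embS_ne_pole, false_or]
  constructor
  · intro h b' hb
    by_contra hlt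
    exact h ⟨(ψ, a, b), ⟨b', hb, not_lt.1 hlt⟩, rfl⟩
  · rintro h ⟨⟨ψ', a', b'⟩, ⟨c, hc, hle⟩, he⟩
    obtain ⟨h2, j, hj⟩ := embS_eq_iff.1 he
    obtain ⟨rfl, rfl⟩ := Prod.ext_iff.1 h2
    dsimp only at hj hc hle
    rw [hj] at h
    exact absurd (h c ((str_add22 j).2 hc)) (not_lt.2 hle)

theorem embS_mem_Um {ψ a b : ℝ} : embS (ψ, a, b) ∈ Um ↔ ∀ b', Str ψ a b' → b < b' := by
  simp only [Um, mem_compl_iff, mem_insert_iff, embS_ne_pole, false_or]
  constructor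
  · intro h b' hb
    by_contra hlt
    exact h ⟨(ψ, a, b), ⟨b', hb, not_lt.1 hlt⟩, rfl⟩
  · rintro h ⟨⟨ψ', a', b'⟩, ⟨c, hc, hle⟩, he⟩
    obtain ⟨h2, j, hj⟩ := embS_eq_iff.1 he
    obtain ⟨rfl, rfl⟩ := Prod.ext_iff.1 h2
    dsimp only at hj hc hle
    rw [hj] at h
    exact absurd (h c ((str_add22 j).2 hc)) (not_lt.2 hle)

theorem mem_Up_of_rad {v : S3} (h : rad v.1 = 0) : v ∈ Up ↔ v ≠ pole false := by
  simp only [Up, mem_compl_iff, mem_insert_iff, not_or, and_iff_left_iff_imp]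
  rintro - ⟨p, -, rfl⟩
  exact (rad_emb_pos p.1 p.2.1 p.2.2).ne' h

theorem mem_Um_of_rad {v : S3} (h : rad v.1 = 0) : v ∈ Um ↔ v ≠ pole true := by
  simp only [Um, mem_compl_iff, mem_insert_iff, not_or, and_iff_left_iff_imp]
  rintro - ⟨p, -, rfl⟩
  exact (rad_emb_pos p.1 p.2.1 p.2.2).ne' h

end Pool.Agent.MP_bc14e1_gt
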