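import Pool.Agent.MP_bc14e1_gt.K.CD
import Pool.Agent.MP_bc14e1_gt.K.RDef

/-! The elimination table of the Dehn presentation. -/

namespace Pool.Agent.MP_bc14e1_gt

/-- `true` if crossing `k` is on the side `-1` (the level of `g₀₀ g₁₀⁻¹` is `+1`). -/
def epsB (k : Fin 22) : Bool := decide ((qd k true true : ℕ) = 22)

/-- The shifted block index. -/
def nj (k : Fin 22) (j : Fin 6) : Fin 6 := if epsB k then j + 1 else j - 1

/-- The block index wraps upwards. -/
def upB (k : Fin 22) (j : Fin 6) : Bool := epsB k && decide ((j : ℕ) = 5)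

/-- The block index wraps downwards. -/
def dnB (k : Fin 22) (j : Fin 6) : Bool := !epsB k && decide ((j : ℕ) = 0)

/-- Tables of polynomials indexed by region, block index and generator. -/
abbrev Tab : Type := List (List (List (List Z8)))

/-- An entry of a table. -/
def Tab.en (T : Tab) (r : Fin 24) (j : Fin 6) (i : Fin 12) : List Z8 :=
  ((T.getD r []).getD j []).getD i []

/-- An entry of the exponent table. -/
def expo (Ex : List (List ℕ)) (k : Fin 22) (j : Fin 6) : ℕ := (Ex.getD k []).getD j 0

/-- The twisted difference of the regions `11` and `10`. -/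
def Tab.tw (T : Tab) (Ex : List (List ℕ)) (k : Fin 22) (j : Fin 6) (i : Fin 12) : List Z8 :=
  shZ (upB k j) ((subZ (T.en (qd k true true) (nj k j) i) (T.en (qd k true false) (nj k j) i)).map
    (Z8.mulA (expo Ex k j)))

/-- The defect of relation `k`. -/
def Tab.res (T : Tab) (Ex : List (List ℕ)) (k : Fin 22) (j : Fin 6) (i : Fin 12) : List Z8 :=
  subZ (shZ (dnB k j) (subZ (T.en (qd k false true) j i) (T.en (qd k false false) j i)))
    (T.tw Ex k j i)

/-- The initial entries: `x ^ 2` times the generators. -/
def ini (r : Fin 24) (j : Fin 6) (i : Fin 12) : List Z8 :=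
  if ((r : ℕ) = 21 ∧ (i : ℕ) = j) ∨ ((r : ℕ) = 23 ∧ (i : ℕ) = j + 6) then ofInts [0, 0, 1] else []

/-- One elimination step. -/
def Tab.step (Ex : List (List ℕ)) (T : Tab) (k : Fin 22) : Tab :=
  if (k : ℕ) = 19 ∨ (k : ℕ) = 21 then T else
    T.set k ((List.finRange 6).map fun j => (List.finRange 12).map fun i =>
      addZ (T.en (qd k false false) j i) (if dnB k j then (T.tw Ex k j i).tail else T.tw Ex k j i))

/-- The elimination table. -/
def tab (Ex : List (List ℕ)) : Tab :=
  (List.finRange 22).foldl (Tab.step Ex) ((List.finRange 24).map fun r =>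
    (List.finRange 6).map fun j => (List.finRange 12).map fun i => ini r j i)

/-- An entry of a square table. -/
def en₂ (A : List (List (List Z8))) (i j : Fin 12) : List Z8 := (A.getD i []).getD j []

/-- The table solves the relations other than `19` and `21`, whose defects are the rows of `A`. -/
def tabOK (Ex : List (List ℕ)) (A : List (List (List Z8))) (T : Tab) : Bool :=
  ((List.finRange 22).all fun k => (List.finRange 6).all fun j => (List.finRange 12).all fun i =>
    (subZ (T.res Ex k j i) (if (k : ℕ) = 19 then en₂ A (j.castLE (by norm_num)) i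
      else if (k : ℕ) = 21 then en₂ A (j.addNat 6) i else [])).all Z8.isZero) &&
  ([19, 21, 22, 23].all fun r : Fin 24 => (List.finRange 6).all fun j =>
    (List.finRange 12).all fun i => (subZ (T.en r j i) (ini r j i)).all Z8.isZero)

end Pool.Agent.MP_bc14e1_gt
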