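import Pool.Agent.MP_bc14e1_gt.Defs

/-! The closed braid: tables, step function, strands. -/

open Set Metric
open scoped ContDiff

namespace Pool.Agent.MP_bc14e1_gt

/-- A smooth step function, `0` below `1/3` and `1` above `2/3`. -/
noncomputable def stp (τ : ℝ) : ℝ := Real.smoothTransition (3 * τ - 1)

theorem smoothTransition_one_sub (x : ℝ) :
    Real.smoothTransition (1 - x) = 1 - Real.smoothTransition x := by
  have h := Real.smoothTransition.pos_denom x
  unfold Real.smoothTransition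
  rw [sub_sub_cancel, add_comm (expNegInvGlue (1 - x))]
  field_simp
  ring

theorem stp_contDiff : ContDiff ℝ ∞ stp :=
  Real.smoothTransition.contDiff.comp ((contDiff_const.mul contDiff_id).sub contDiff_const)

theorem stp_continuous : Continuous stp := stp_contDiff.continuous

theorem stp_zero {τ : ℝ} (h : τ ≤ 1 / 3) : stp τ = 0 :=
  Real.smoothTransition.zero_of_nonpos (by linarith)

theorem stp_one {τ : ℝ} (h : 2 / 3 ≤ τ) : stp τ = 1 :=
  Real.smoothTransition.one_of_one_le (by linarith)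

theorem stp_nonneg (τ : ℝ) : 0 ≤ stp τ := Real.smoothTransition.nonneg _

theorem stp_le_one (τ : ℝ) : stp τ ≤ 1 := Real.smoothTransition.le_one _

theorem stp_pos {τ : ℝ} (h : 1 / 3 < τ) : 0 < stp τ :=
  Real.smoothTransition.pos_of_pos (by linarith)

theorem stp_lt_one {τ : ℝ} (h : τ < 2 / 3) : stp τ < 1 :=
  Real.smoothTransition.lt_one_of_lt_one (by linarith)

theorem stp_one_sub (τ : ℝ) : stp (1 - τ) = 1 - stp τ := by
  unfold stp
  rw [← smoothTransition_one_sub]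
  congr 1
  ring

theorem stp_half : stp (1 / 2) = 1 / 2 := by
  have := stp_one_sub (1 / 2)
  norm_num at this
  linarith

theorem expNegInvGlue_lt {x y : ℝ} (hy : 0 < y) (h : x < y) :
    expNegInvGlue x < expNegInvGlue y := by
  rcases le_or_gt x 0 with hx | hx
  · rw [expNegInvGlue.zero_of_nonpos hx]
    exact expNegInvGlue.pos_of_pos hy
  · unfold expNegInvGlue
    rw [if_neg (not_le.2 hx), if_neg (not_le.2 hy)]
    exact Real.exp_lt_exp.2 (neg_lt_neg (inv_strictAnti₀ hx h))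

theorem stp_lt_half {τ : ℝ} (h : τ < 1 / 2) : stp τ < 1 / 2 := by
  have h1 := Real.smoothTransition.pos_denom (3 * τ - 1)
  have h2 : expNegInvGlue (3 * τ - 1) < expNegInvGlue (1 - (3 * τ - 1)) :=
    expNegInvGlue_lt (by linarith) (by linarith)
  unfold stp Real.smoothTransition
  rw [div_lt_iff₀ h1]
  linarith

theorem half_lt_stp {τ : ℝ} (h : 1 / 2 < τ) : 1 / 2 < stp τ := by
  have h1 := stp_lt_half (τ := 1 - τ) (by linarith)
  rw [stp_one_sub] at h1
  linarith

theorem stp_eq_half {τ : ℝ} (h : stp τ = 1 / 2) : τ = 1 / 2 := by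
  rcases lt_trichotomy τ (1 / 2) with h1 | h1 | h1
  · exact absurd h (stp_lt_half h1).ne
  · exact h1
  · exact absurd h (half_lt_stp h1).ne'

/-- The side of the crossing in each of the `22` slabs (listed three times). -/
def sdZ : ZMod 66 → ℤ :=
  ![-1, -1, 1, 1, -1, -1, -1, 1, 1, -1, -1, 1, 1, -1, -1, 1, 1, 1, -1, -1, 1, 1,
    -1, -1, 1, 1, -1, -1, -1, 1, 1, -1, -1, 1, 1, -1, -1, 1, 1, 1, -1, -1, 1, 1,
    -1, -1, 1, 1, -1, -1, -1, 1, 1, -1, -1, 1, 1, -1, -1, 1, 1, 1, -1, -1, 1, 1]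

/-- The position of the knot at the `66` slab boundaries it meets. -/
def posZ : ZMod 66 → ℤ :=
  ![0, -1, 0, 1, 0, -1, 0, -1, -1, -1, 0, -1, -1, -1, 0, -1, -1, -1, -1, 0, -1, -1,
    -1, 0, -1, -1, -1, 0, -1, 0, 1, 0, -1, 0, 1, 0, -1, 0, 1, 0, 1, 1, 1, 0,
    1, 1, 1, 0, 1, 1, 1, 1, 0, 1, 1, 1, 0, 1, 1, 1, 0, 1, 0, -1, 0, 1]

/-- The side of the crossing in slab `k`. -/
def sd (k : ℤ) : ℤ := sdZ (k : ZMod 66)

/-- The position of the knot at parameter `k`. -/
def pos (k : ℤ) : ℤ := posZ (k : ZMod 66)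

theorem sd_cases (k : ℤ) : sd k = 1 ∨ sd k = -1 := by
  unfold sd
  generalize (k : ZMod 66) = r
  revert r
  decide +kernel

theorem sd_add11 (k : ℤ) : sd (k + 11) = -sd k := by
  unfold sd
  push_cast
  generalize (k : ZMod 66) = r
  revert r
  decide +kernel

theorem sd_add22 (k : ℤ) : sd (k + 22) = sd k := by
  rw [show k + 22 = k + 11 + 11 by ring, sd_add11, sd_add11, neg_neg]

theorem sd_add_mul (k j : ℤ) : sd (k + 22 * j) = sd k := by
  induction j using Int.induction_on with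
  | zero => simp
  | succ j ih => rw [show k + 22 * ((j : ℤ) + 1) = k + 22 * j + 22 by ring, sd_add22, ih]
  | pred j ih =>
    rw [← sd_add22, show k + 22 * (-(j : ℤ) - 1) + 22 = k + 22 * -j by ring, ih]

theorem sd_neg (k : ℤ) : sd (-k - 1) = -sd k := by
  unfold sd
  push_cast
  generalize (k : ZMod 66) = r
  revert r
  decide +kernel

theorem pos_cases (k : ℤ) : (pos k = 0 ∧ pos (k + 1) = sd k) ∨ (pos k = sd k ∧ pos (k + 1) = 0) ∨
    (pos k = -sd k ∧ pos (k + 1) = -sd k) := by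
  unfold sd pos
  push_cast
  generalize (k : ZMod 66) = r
  revert r
  decide +kernel

theorem pos_neg (k : ℤ) : pos (-k) = -pos k := by
  unfold pos
  push_cast
  generalize (k : ZMod 66) = r
  revert r
  decide +kernel

theorem pos_add66 (k j : ℤ) : pos (k + 66 * j) = pos k := by
  unfold pos
  push_cast
  rw [show (66 : ZMod 66) = 0 from rfl, zero_mul, add_zero]

theorem pos_ne (k : ℤ) : pos (k + 22) ≠ pos k ∧ pos (k + 44) ≠ pos k := by
  unfold pos
  push_cast
  generalize (k : ZMod 66) = r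
  revert r
  decide +kernel

theorem pos_inj {k j : ℤ} (h : pos (k + 22 * j) = pos k) : (3 : ℤ) ∣ j := by
  obtain ⟨q, hq | hq | hq⟩ : ∃ q : ℤ, j = 3 * q ∨ j = 3 * q + 1 ∨ j = 3 * q + 2 :=
    ⟨j / 3, by omega⟩
  · exact ⟨q, hq⟩
  · rw [hq, show k + 22 * (3 * q + 1) = k + 22 + 66 * q by ring, pos_add66] at h
    exact absurd h (pos_ne k).1
  · rw [hq, show k + 22 * (3 * q + 2) = k + 44 + 66 * q by ring, pos_add66] at h
    exact absurd h (pos_ne k).2

theorem pos_surj (k : ℤ) : (∃ j : ℤ, pos (k + 22 * j) = 0) ∧ (∃ j : ℤ, pos (k + 22 * j) = sd k) ∧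
    ∃ j : ℤ, pos (k + 22 * j) = -sd k := by
  have h : (pos k = 0 ∨ pos (k + 22) = 0 ∨ pos (k + 44) = 0) ∧
      (pos k = sd k ∨ pos (k + 22) = sd k ∨ pos (k + 44) = sd k) ∧
      (pos k = -sd k ∨ pos (k + 22) = -sd k ∨ pos (k + 44) = -sd k) := by
    unfold sd pos
    push_cast
    generalize (k : ZMod 66) = r
    revert r
    decide +kernel
  have key : ∀ p : ℤ, (pos k = p ∨ pos (k + 22) = p ∨ pos (k + 44) = p) →
      ∃ j : ℤ, pos (k + 22 * j) = p := by
    rintro p (h | h | h)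
    · exact ⟨0, by simpa using h⟩
    · exact ⟨1, by simpa using h⟩
    · exact ⟨2, by simpa using h⟩
  exact ⟨key _ h.1, key _ h.2.1, key _ h.2.2⟩

theorem pos_zero : pos 0 = 0 := by decide +kernel

theorem pos_33 : pos 33 = 0 := by decide +kernel

theorem pos_11 : pos 11 = -1 := by decide +kernel

/-- The point of `S³` with angle `π ψ / 11` and fibre coordinates `a`, `b`. -/
noncomputable def emb (ψ a b : ℝ) : E 4 :=
  (√(1 + a ^ 2 + b ^ 2))⁻¹ • !₂[Real.cos (Real.pi * ψ / 11), Real.sin (Real.pi * ψ / 11), a, b]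

/-- The three strands at level `ψ`: over, under, and the one that does not cross. -/
def Str (ψ a b : ℝ) : Prop :=
  (a = sd ⌊ψ⌋ * stp (Int.fract ψ) ∧ b = stp (Int.fract ψ) * (1 - stp (Int.fract ψ))) ∨
  (a = sd ⌊ψ⌋ * (1 - stp (Int.fract ψ)) ∧ b = -(stp (Int.fract ψ) * (1 - stp (Int.fract ψ)))) ∨
  (a = -sd ⌊ψ⌋ ∧ b = 0)

/-- The knot as a subset of `S³`. -/
def Kset : Set (E 4) := {v | ∃ ψ a b : ℝ, Str ψ a b ∧ v = emb ψ a b}

/-- First fibre coordinate along the knot. -/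
noncomputable def cA (ψ : ℝ) : ℝ :=
  pos ⌊ψ⌋ + (pos (⌊ψ⌋ + 1) - pos ⌊ψ⌋) * stp (Int.fract ψ)

/-- Second fibre coordinate along the knot. -/
noncomputable def cB (ψ : ℝ) : ℝ :=
  sd ⌊ψ⌋ * (pos (⌊ψ⌋ + 1) - pos ⌊ψ⌋) * (stp (Int.fract ψ) * (1 - stp (Int.fract ψ)))

/-- The knot, parametrised with period `66`. -/
noncomputable def kap (ψ : ℝ) : E 4 := emb ψ (cA ψ) (cB ψ)

/-- The involution `diag(-1, -1, -1, 1)`. -/
noncomputable def iot (v : E 4) : E 4 := !₂[-v 0, -v 1, -v 2, v 3]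

end Pool.Agent.MP_bc14e1_gt
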