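import Pool.Agent.MP_bc14e1_gt.K.Cur

/-! Solid torus coordinates on the sphere; the symmetry of the knot. -/

open Set Metric
open scoped ContDiff

namespace Pool.Agent.MP_bc14e1_gt

theorem nrm_pos (a b : ℝ) : 0 < √(1 + a ^ 2 + b ^ 2) := Real.sqrt_pos.2 (by positivity)

theorem emb_0 (ψ a b : ℝ) :
    emb ψ a b 0 = (√(1 + a ^ 2 + b ^ 2))⁻¹ * Real.cos (Real.pi * ψ / 11) := by simp [emb]

theorem emb_1 (ψ a b : ℝ) :
    emb ψ a b 1 = (√(1 + a ^ 2 + b ^ 2))⁻¹ * Real.sin (Real.pi * ψ / 11) := by simp [emb]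

theorem emb_2 (ψ a b : ℝ) : emb ψ a b 2 = (√(1 + a ^ 2 + b ^ 2))⁻¹ * a := by simp [emb]

theorem emb_3 (ψ a b : ℝ) : emb ψ a b 3 = (√(1 + a ^ 2 + b ^ 2))⁻¹ * b := by simp [emb]

theorem E4_ext {v w : E 4} (h0 : v 0 = w 0) (h1 : v 1 = w 1) (h2 : v 2 = w 2) (h3 : v 3 = w 3) :
    v = w := by
  ext i
  fin_cases i
  exacts [h0, h1, h2, h3]

theorem E4_norm_sq (v : E 4) : ‖v‖ ^ 2 = v 0 ^ 2 + v 1 ^ 2 + v 2 ^ 2 + v 3 ^ 2 := by
  rw [EuclideanSpace.real_norm_sq_eq, Fin.sum_univ_four]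

theorem emb_rad (ψ a b : ℝ) :
    emb ψ a b 0 ^ 2 + emb ψ a b 1 ^ 2 = (√(1 + a ^ 2 + b ^ 2))⁻¹ ^ 2 := by
  rw [emb_0, emb_1, mul_pow, mul_pow, ← mul_add, Real.cos_sq_add_sin_sq, mul_one]

theorem norm_emb (ψ a b : ℝ) : ‖emb ψ a b‖ = 1 := by
  have h : ‖emb ψ a b‖ ^ 2 = 1 := by
    rw [E4_norm_sq, emb_rad, emb_2, emb_3, mul_pow, mul_pow, inv_pow,
      Real.sq_sqrt (by positivity)]
    field_simp
  nlinarith [norm_nonneg (emb ψ a b)]

theorem emb_add22 (ψ a b : ℝ) (j : ℤ) : emb (ψ + 22 * j) a b = emb ψ a b := by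
  have h : Real.pi * (ψ + 22 * j) / 11 = Real.pi * ψ / 11 + j * (2 * Real.pi) := by ring
  unfold emb
  rw [h, Real.cos_add_int_mul_two_pi, Real.sin_add_int_mul_two_pi]

theorem emb_eq_iff {ψ a b ψ' a' b' : ℝ} :
    emb ψ a b = emb ψ' a' b' ↔ a = a' ∧ b = b' ∧ ∃ j : ℤ, ψ' = ψ + 22 * j := by
  constructor
  · intro h
    have hn : (√(1 + a ^ 2 + b ^ 2))⁻¹ = (√(1 + a' ^ 2 + b' ^ 2))⁻¹ := by
      have h1 := emb_rad ψ a b
      rw [h, emb_rad] at h1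
      exact (pow_left_inj₀ (inv_pos.2 (nrm_pos a b)).le (inv_pos.2 (nrm_pos a' b')).le
        two_ne_zero).1 h1.symm
    have hp := (inv_pos.2 (nrm_pos a' b')).ne'
    have h0 := emb_0 ψ a b
    have h1 := emb_1 ψ a b
    have h2 := emb_2 ψ a b
    have h3 := emb_3 ψ a b
    rw [h, hn] at h0 h1 h2 h3
    rw [emb_0] at h0
    rw [emb_1] at h1
    rw [emb_2] at h2
    rw [emb_3] at h3
    refine ⟨(mul_left_cancel₀ hp h2).symm, (mul_left_cancel₀ hp h3).symm, ?_⟩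
    have hc := mul_left_cancel₀ hp h0
    have hs := mul_left_cancel₀ hp h1
    have h4 : Real.cos (Real.pi * ψ' / 11 - Real.pi * ψ / 11) = 1 := by
      rw [Real.cos_sub, hc, hs, ← sq, ← sq, Real.cos_sq_add_sin_sq]
    obtain ⟨j, hj⟩ := (Real.cos_eq_one_iff _).1 h4
    refine ⟨j, mul_left_cancel₀ Real.pi_ne_zero ?_⟩
    linarith
  · rintro ⟨rfl, rfl, j, rfl⟩
    exact (emb_add22 _ _ _ _).symm

theorem emb_contDiff : ContDiff ℝ ∞ fun p : ℝ × ℝ × ℝ => emb p.1 p.2.1 p.2.2 := by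
  unfold emb
  refine ContDiff.smul (ContDiff.inv (ContDiff.sqrt (by fun_prop) fun p => by positivity)
    fun p => (nrm_pos _ _).ne') ?_
  rw [contDiff_euclidean]
  intro i
  fin_cases i <;> simp <;> fun_prop

theorem emb_continuous : Continuous fun p : ℝ × ℝ × ℝ => emb p.1 p.2.1 p.2.2 :=
  emb_contDiff.continuous

theorem iot_emb (ψ a b : ℝ) : iot (emb ψ a b) = emb (ψ + 11) (-a) b := by
  have h : Real.pi * (ψ + 11) / 11 = Real.pi * ψ / 11 + Real.pi := by ring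
  refine E4_ext ?_ ?_ ?_ ?_ <;>
    simp [iot, emb_0, emb_1, emb_2, emb_3, h, Real.cos_add_pi, Real.sin_add_pi]

theorem floor_add22 (ψ : ℝ) (j : ℤ) : ⌊ψ + 22 * j⌋ = ⌊ψ⌋ + 22 * j := by
  rw [show (22 : ℝ) * j = ((22 * j : ℤ) : ℝ) by push_cast; ring, Int.floor_add_intCast]

theorem fract_add22 (ψ : ℝ) (j : ℤ) : Int.fract (ψ + 22 * j) = Int.fract ψ := by
  rw [show (22 : ℝ) * j = ((22 * j : ℤ) : ℝ) by push_cast; ring, Int.fract_add_intCast]

theorem str_add22 {ψ a b : ℝ} (j : ℤ) : Str (ψ + 22 * j) a b ↔ Str ψ a b := by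
  unfold Str
  rw [floor_add22, fract_add22, sd_add_mul]

theorem str_add11 {ψ a b : ℝ} (h : Str ψ a b) : Str (ψ + 11) (-a) b := by
  unfold Str at *
  rw [show (11 : ℝ) = ((11 : ℤ) : ℝ) by norm_num, Int.floor_add_intCast, Int.fract_add_intCast,
    sd_add11]
  push_cast
  rcases h with ⟨h1, h2⟩ | ⟨h1, h2⟩ | ⟨h1, h2⟩
  · exact Or.inl ⟨by rw [h1]; ring, h2⟩
  · exact Or.inr (Or.inl ⟨by rw [h1]; ring, h2⟩)
  · exact Or.inr (Or.inr ⟨by rw [h1], h2⟩)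

theorem emb_mem_Kset {ψ a b : ℝ} : emb ψ a b ∈ Kset ↔ Str ψ a b := by
  constructor
  · rintro ⟨ψ', a', b', h, he⟩
    obtain ⟨rfl, rfl, j, rfl⟩ := emb_eq_iff.1 he
    exact (str_add22 j).1 h
  · exact fun h => ⟨ψ, a, b, h, rfl⟩

theorem Kset_subset_sphere : Kset ⊆ sphere 0 1 := by
  rintro _ ⟨ψ, a, b, -, rfl⟩
  simpa using norm_emb ψ a b

theorem iot_iot (v : E 4) : iot (iot v) = v := by
  refine E4_ext ?_ ?_ ?_ ?_ <;> simp [iot]

theorem iot_mem_Kset {v : E 4} (h : v ∈ Kset) : iot v ∈ Kset := by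
  obtain ⟨ψ, a, b, h, rfl⟩ := h
  exact ⟨_, _, _, str_add11 h, iot_emb ψ a b⟩

/-- The involution as a linear map. -/
noncomputable def iotL : E 4 →ₗ[ℝ] E 4 :=
  Matrix.toLin (EuclideanSpace.basisFun (Fin 4) ℝ).toBasis (EuclideanSpace.basisFun (Fin 4) ℝ).toBasis
    (Matrix.diagonal ![-1, -1, -1, 1])

theorem iotL_apply (v : E 4) : iotL v = iot v := by
  refine E4_ext ?_ ?_ ?_ ?_ <;>
    simp [iotL, iot, Matrix.toLin_apply, Fin.sum_univ_four, Matrix.mulVec_diagonal]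

theorem norm_iot (v : E 4) : ‖iot v‖ = ‖v‖ := by
  have h : ‖iot v‖ ^ 2 = ‖v‖ ^ 2 := by
    rw [E4_norm_sq, E4_norm_sq]
    simp [iot]
  exact (pow_left_inj₀ (norm_nonneg _) (norm_nonneg _) two_ne_zero).1 h

/-- The involution as a linear isometry. -/
noncomputable def iotE : E 4 ≃ₗᵢ[ℝ] E 4 where
  toLinearEquiv := LinearEquiv.ofInvolutive iotL fun v => by rw [iotL_apply, iotL_apply, iot_iot]
  norm_map' v := by
    change ‖iotL v‖ = _
    rw [iotL_apply, norm_iot]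

theorem iotE_apply (v : E 4) : iotE v = iot v := iotL_apply v

theorem iotE_det : LinearMap.det (iotE.toLinearEquiv : E 4 →ₗ[ℝ] E 4) = -1 := by
  change LinearMap.det iotL = -1
  rw [iotL, LinearMap.det_toLin, Matrix.det_diagonal, Fin.prod_univ_four]
  simp

theorem iotE_image : iotE '' Kset = Kset := by
  ext v
  constructor
  · rintro ⟨w, hw, rfl⟩
    rw [iotE_apply]
    exact iot_mem_Kset hw
  · exact fun h => ⟨iot v, iot_mem_Kset h, by rw [iotE_apply, iot_iot]⟩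

theorem iot_ne {v : E 4} (h : v ∈ Kset) : iot v ≠ v := by
  obtain ⟨ψ, a, b, -, rfl⟩ := h
  rw [iot_emb]
  intro h
  obtain ⟨-, -, j, hj⟩ := emb_eq_iff.1 h
  have : (11 + 22 * j : ℤ) = 0 := by exact_mod_cast (by linarith : (11 + 22 * j : ℝ) = 0)
  omega

theorem strongPosAmph_Kset : StrongPosAmph Kset :=
  ⟨iotE, fun v => by rw [iotE_apply, iotE_apply, iot_iot], iotE_det, iotE_image,
    fun v hv => by rw [iotE_apply]; exact iot_ne hv⟩

end Pool.Agent.MP_bc14e1_gt
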