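import Pool.Agent.MP_bc14e1_gt.K.Emb

/-! The solid torus coordinates are a local homeomorphism; contractible pieces. -/

open Set Metric Filter Topology

namespace Pool.Agent.MP_bc14e1_gt

/-- The three-sphere. -/
abbrev S3 : Type := sphere (0 : E 4) 1

/-- Solid torus coordinates as a map to the sphere. -/
noncomputable def embS (p : ℝ × ℝ × ℝ) : S3 :=
  ⟨emb p.1 p.2.1 p.2.2, by simpa using norm_emb p.1 p.2.1 p.2.2⟩

theorem embS_continuous : Continuous embS := emb_continuous.subtype_mk _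

/-- Distance from the circle `v 0 = v 1 = 0` direction. -/
noncomputable def rad (v : E 4) : ℝ := √(v 0 ^ 2 + v 1 ^ 2)

theorem rad_nonneg (v : E 4) : 0 ≤ rad v := Real.sqrt_nonneg _

theorem rad_continuous : Continuous rad := by
  unfold rad
  fun_prop

theorem rad_emb (ψ a b : ℝ) : rad (emb ψ a b) = (√(1 + a ^ 2 + b ^ 2))⁻¹ := by
  rw [rad, emb_rad, Real.sqrt_sq (inv_pos.2 (nrm_pos a b)).le]

theorem rad_emb_pos (ψ a b : ℝ) : 0 < rad (emb ψ a b) := by
  rw [rad_emb]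
  exact inv_pos.2 (nrm_pos a b)

theorem rad_eq_zero {v : E 4} : rad v = 0 ↔ v 0 = 0 ∧ v 1 = 0 := by
  rw [rad, Real.sqrt_eq_zero (by positivity)]
  constructor
  · intro h
    constructor <;> nlinarith [sq_nonneg (v 0), sq_nonneg (v 1)]
  · rintro ⟨h0, h1⟩
    simp [h0, h1]

/-- A local inverse of the coordinates near angle `ψ₀`. -/
noncomputable def sec (ψ₀ : ℝ) (v : E 4) : ℝ × ℝ × ℝ :=
  (ψ₀ + 11 / Real.pi * Complex.arg ((v 0 + v 1 * Complex.I) *
    Complex.exp (-(Real.pi * ψ₀ / 11 : ℝ) * Complex.I)), v 2 / rad v, v 3 / rad v)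

theorem norm_cx (v : E 4) : ‖(v 0 + v 1 * Complex.I : ℂ)‖ = rad v := by
  rw [rad, Complex.norm_add_mul_I]

theorem emb_sec (ψ₀ : ℝ) {v : E 4} (hv : ‖v‖ = 1) (h : rad v ≠ 0) :
    emb (sec ψ₀ v).1 (sec ψ₀ v).2.1 (sec ψ₀ v).2.2 = v := by
  have hr : 0 < rad v := (rad_nonneg v).lt_of_ne' h
  have hsq : rad v ^ 2 = v 0 ^ 2 + v 1 ^ 2 := Real.sq_sqrt (by positivity)
  have hn : √(1 + (v 2 / rad v) ^ 2 + (v 3 / rad v) ^ 2) = (rad v)⁻¹ := by
    rw [Real.sqrt_eq_iff_mul_self_eq (by positivity) (by positivity)]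
    have h1 := E4_norm_sq v
    rw [hv] at h1
    field_simp
    nlinarith
  set z : ℂ := v 0 + v 1 * Complex.I with hz
  set θ : ℝ := Real.pi * ψ₀ / 11 with hθ
  set w : ℂ := z * Complex.exp (-(θ : ℝ) * Complex.I) with hw
  have hwn : ‖w‖ = rad v := by
    rw [hw, norm_mul, hz, norm_cx, ← Complex.ofReal_neg, Complex.norm_exp_ofReal_mul_I, mul_one]
  have h1 : Real.pi * (sec ψ₀ v).1 / 11 = θ + Complex.arg w := by
    simp only [sec]
    rw [← hz, ← hθ, ← hw, hθ]
    field_simp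
  have h2 : (rad v : ℂ) * Complex.exp (((θ + Complex.arg w : ℝ) : ℂ) * Complex.I) = z := by
    have h3 := Complex.norm_mul_exp_arg_mul_I w
    rw [hwn] at h3
    rw [Complex.ofReal_add, add_mul, Complex.exp_add, mul_left_comm, h3, hw, mul_left_comm,
      ← Complex.exp_add]
    simp
  have hre := congrArg Complex.re h2
  have him := congrArg Complex.im h2
  rw [Complex.re_ofReal_mul, Complex.exp_ofReal_mul_I_re] at hre
  rw [Complex.im_ofReal_mul, Complex.exp_ofReal_mul_I_im] at him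
  have hzre : z.re = v 0 := by simp [hz]
  have hzim : z.im = v 1 := by simp [hz]
  refine E4_ext ?_ ?_ ?_ ?_
  · rw [emb_0, h1]
    simp only [sec]
    rw [hn, inv_inv, hre, hzre]
  · rw [emb_1, h1]
    simp only [sec]
    rw [hn, inv_inv, him, hzim]
  · rw [emb_2]
    simp only [sec]
    rw [hn, inv_inv]
    field_simp
  · rw [emb_3]
    simp only [sec]
    rw [hn, inv_inv]
    field_simp

theorem cx_emb (ψ a b : ℝ) : ((emb ψ a b 0 : ℝ) + (emb ψ a b 1 : ℝ) * Complex.I : ℂ) *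
    Complex.exp (-(Real.pi * ψ / 11 : ℝ) * Complex.I) = (rad (emb ψ a b) : ℝ) := by
  rw [rad_emb, emb_0, emb_1]
  set θ : ℝ := Real.pi * ψ / 11
  have h : ((Real.cos θ : ℝ) + (Real.sin θ : ℝ) * Complex.I : ℂ) =
      Complex.exp ((θ : ℝ) * Complex.I) := by
    rw [Complex.exp_mul_I, Complex.ofReal_cos, Complex.ofReal_sin]
  rw [Complex.ofReal_mul, Complex.ofReal_mul, mul_assoc, ← mul_add, h, mul_assoc,
    ← Complex.exp_add]
  simp

theorem sec_emb (ψ a b : ℝ) : sec ψ (emb ψ a b) = (ψ, a, b) := by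
  have h := (inv_pos.2 (nrm_pos a b)).ne'
  simp only [sec]
  rw [cx_emb, Complex.arg_ofReal_of_nonneg (rad_nonneg _), mul_zero, add_zero, rad_emb, emb_2,
    emb_3, mul_div_cancel_left₀ _ h, mul_div_cancel_left₀ _ h]

theorem sec_continuousAt (ψ a b : ℝ) : ContinuousAt (sec ψ) (emb ψ a b) := by
  have hr := (rad_emb_pos ψ a b).ne'
  refine ContinuousAt.prodMk ?_ (ContinuousAt.prodMk ?_ ?_)
  · refine continuousAt_const.add (continuousAt_const.mul ?_)
    refine ContinuousAt.comp (f := fun v : E 4 => ((v 0 : ℝ) + (v 1 : ℝ) * Complex.I : ℂ) *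
      Complex.exp (-(Real.pi * ψ / 11 : ℝ) * Complex.I)) (Complex.continuousAt_arg ?_) (by fun_prop)
    rw [cx_emb]
    exact Complex.ofReal_mem_slitPlane.2 (rad_emb_pos ψ a b)
  · exact ContinuousAt.div (by fun_prop) rad_continuous.continuousAt hr
  · exact ContinuousAt.div (by fun_prop) rad_continuous.continuousAt hr

theorem exists_emb {v : E 4} (hv : ‖v‖ = 1) (h : rad v ≠ 0) : ∃ ψ a b, v = emb ψ a b :=
  ⟨_, _, _, (emb_sec 0 hv h).symm⟩

theorem exists_embS (v : S3) (h : rad v.1 ≠ 0) : ∃ p, v = embS p :=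
  ⟨sec 0 v.1, Subtype.ext (emb_sec 0 (by simp) h).symm⟩

theorem embS_isOpenMap : IsOpenMap embS := by
  refine IsOpenMap.of_nhds_le fun p => ?_
  obtain ⟨ψ, a, b⟩ := p
  have hc : ContinuousAt (fun v : S3 => sec ψ v.1) (embS (ψ, a, b)) :=
    ContinuousAt.comp (g := sec ψ) (f := fun v : S3 => v.1) (x := embS (ψ, a, b))
      (sec_continuousAt ψ a b) continuous_subtype_val.continuousAt
  have h1 : ∀ᶠ v : S3 in 𝓝 (embS (ψ, a, b)), embS (sec ψ v.1) = v := by
    have h2 : ∀ᶠ v : S3 in 𝓝 (embS (ψ, a, b)), rad v.1 ≠ 0 :=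
      (rad_continuous.comp continuous_subtype_val).continuousAt.eventually_ne
        (rad_emb_pos ψ a b).ne'
    exact h2.mono fun v hv => Subtype.ext (emb_sec ψ (by simp) hv)
  have h3 : Tendsto (fun v : S3 => sec ψ v.1) (𝓝 (embS (ψ, a, b))) (𝓝 (ψ, a, b)) := by
    have := hc.tendsto
    rwa [show sec ψ (embS (ψ, a, b)).1 = (ψ, a, b) from sec_emb ψ a b] at this
  calc 𝓝 (embS (ψ, a, b)) = map (fun v : S3 => embS (sec ψ v.1)) (𝓝 (embS (ψ, a, b))) := by
        rw [map_congr h1, map_id']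
    _ ≤ map embS (𝓝 (ψ, a, b)) := by
        rw [← Function.comp_def embS, ← map_map]
        exact map_mono h3

theorem embS_eq_iff {p q : ℝ × ℝ × ℝ} :
    embS p = embS q ↔ p.2 = q.2 ∧ ∃ j : ℤ, q.1 = p.1 + 22 * j := by
  rw [Subtype.ext_iff]
  change emb _ _ _ = emb _ _ _ ↔ _
  rw [emb_eq_iff, Prod.ext_iff, and_assoc]

theorem embS_add22 (ψ : ℝ) (x : ℝ × ℝ) (j : ℤ) : embS (ψ + 22 * j, x) = embS (ψ, x) :=
  Subtype.ext (emb_add22 _ _ _ _)

/-- A set that is fibrewise star-shaped over an interval is contractible. -/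
theorem contractible_fibre {I : Set ℝ} (hI : Convex ℝ I) (hne : I.Nonempty) {S : Set (ℝ × ℝ × ℝ)}
    (hS : ∀ p ∈ S, p.1 ∈ I) {c : ℝ → ℝ × ℝ} (hc : ContinuousOn c I) (hm : ∀ ψ ∈ I, (ψ, c ψ) ∈ S)
    (hst : ∀ p ∈ S, ∀ s : ℝ, 0 ≤ s → s ≤ 1 → (p.1, (1 - s) • p.2 + s • c p.1) ∈ S) :
    ContractibleSpace S := by
  have := hI.contractibleSpace hne
  have hc' : Continuous fun x : I => c x.1 := continuousOn_iff_continuous_domRestrict.1 hc
  let f : C(S, I) := ⟨fun p => ⟨p.1.1, hS p.1 p.2⟩, by fun_prop⟩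
  let g : C(I, S) := ⟨fun x => ⟨(x.1, c x.1), hm x.1 x.2⟩,
    (continuous_subtype_val.prodMk hc').subtype_mk _⟩
  have hcf : Continuous fun p : S => c p.1.1 := hc'.comp f.continuous
  refine ContinuousMap.HomotopyEquiv.contractibleSpace (Y := I) ⟨f, g, ⟨?_⟩, ?_⟩
  · refine ContinuousMap.Homotopy.symm
      ⟨⟨fun q => ⟨(q.2.1.1, (1 - q.1.1) • q.2.1.2 + q.1.1 • c q.2.1.1),
        hst _ q.2.2 _ q.1.2.1 q.1.2.2⟩, ?_⟩, fun p => ?_, fun p => ?_⟩
    · refine Continuous.subtype_mk (Continuous.prodMk (by fun_prop) ?_) _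
      have h1 : Continuous fun q : unitInterval × S => (1 - q.1.1) • q.2.1.2 := by fun_prop
      have h2 : Continuous fun q : unitInterval × S => q.1.1 := by fun_prop
      exact h1.add (h2.smul (hcf.comp continuous_snd))
    · simp
    · simp [f, g]
  · exact ContinuousMap.Homotopic.refl _

/-- The image of a contractible set of angular width less than a full turn is contractible. -/
theorem contractible_embS {S : Set (ℝ × ℝ × ℝ)} (ho : IsOpen S) {α : ℝ}
    (hS : ∀ p ∈ S, α < p.1 ∧ p.1 < α + 22) [ContractibleSpace S] :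
    ContractibleSpace (embS '' S) := by
  have hinj : Function.Injective (S.domRestrict embS) := by
    intro p q h
    obtain ⟨h2, j, hj⟩ := embS_eq_iff.1 h
    have h1 := hS _ p.2
    have h3 := hS _ q.2
    have h4 : (-1 : ℝ) < j := by linarith
    have h5 : (j : ℝ) < 1 := by linarith
    have h6 : j = 0 := by
      have : (-1 : ℤ) < j := by exact_mod_cast h4
      have : j < 1 := by exact_mod_cast h5
      omega
    rw [h6] at hj
    exact Subtype.ext (Prod.ext (by simpa using hj.symm) h2)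
  have he : IsOpenEmbedding (S.domRestrict embS) :=
    IsOpenEmbedding.of_continuous_injective_isOpenMap
      (embS_continuous.comp continuous_subtype_val) hinj
      (embS_isOpenMap.comp ho.isOpenMap_subtype_val)
  rw [← range_domRestrict]
  exact he.isEmbedding.toHomeomorph.symm.contractibleSpace

/-- A subset of the sphere that is closed under moving towards `q` is contractible. -/
theorem contractible_star {U : Set S3} {q : S3} (hq : q ∈ U) (hne : ∀ v ∈ U, v.1 ≠ -q.1)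
    (hst : ∀ v ∈ U, ∀ s : ℝ, 0 < s → s < 1 → ∀ (w : S3) (r : ℝ), 0 < r →
      w.1 = r • ((1 - s) • v.1 + s • q.1) → w ∈ U) : ContractibleSpace U := by
  have hnz : ∀ (v : U) (s : unitInterval), (1 - s.1) • v.1.1 + s.1 • q.1 ≠ 0 := by
    intro v s h
    have hv : ‖v.1.1‖ = 1 := by simp
    have hq' : ‖q.1‖ = 1 := by simp
    have h1 : (1 - s.1) • v.1.1 = -(s.1 • q.1) := eq_neg_of_add_eq_zero_left h
    have h2 := congrArg norm h1
    rw [norm_neg, norm_smul, norm_smul, hv, hq', Real.norm_of_nonneg (sub_nonneg.2 s.2.2),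
      Real.norm_of_nonneg s.2.1] at h2
    have h3 : s.1 = 1 / 2 := by linarith
    rw [h3, ← smul_neg, show (1 : ℝ) - 1 / 2 = 1 / 2 by norm_num] at h1
    exact hne _ v.2 (smul_right_injective _ (by norm_num) h1)
  obtain ⟨F, hF⟩ : ∃ F : unitInterval × U → S3, ∀ x, (F x).1 =
      ‖(1 - x.1.1) • x.2.1.1 + x.1.1 • q.1‖⁻¹ • ((1 - x.1.1) • x.2.1.1 + x.1.1 • q.1) :=
    ⟨fun x => ⟨_, mem_sphere_zero_iff_norm.2 (norm_smul_inv_norm (𝕜 := ℝ) (hnz x.2 x.1))⟩,
      fun _ => rfl⟩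
  have hF0 : ∀ v : U, F (0, v) = v.1 := fun v => Subtype.ext (by rw [hF]; simp)
  have hF1 : ∀ v : U, F (1, v) = q := fun v => Subtype.ext (by rw [hF]; simp)
  have hFU : ∀ x, F x ∈ U := by
    rintro ⟨s, v⟩
    rcases s.2.1.eq_or_lt with h0 | h0
    · rw [show s = 0 from Subtype.ext h0.symm, hF0]
      exact v.2
    rcases s.2.2.eq_or_lt with h1 | h1
    · rw [show s = 1 from Subtype.ext h1, hF1]
      exact hq
    exact hst _ v.2 s.1 h0 h1 _ _ (inv_pos.2 (norm_pos_iff.2 (hnz v s))) (hF _)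
  have hFc : Continuous F := by
    have h1 : Continuous fun x : unitInterval × U => (1 - x.1.1) • x.2.1.1 + x.1.1 • q.1 := by
      fun_prop
    rw [continuous_induced_rng]
    exact ((h1.norm.inv₀ fun x => norm_ne_zero_iff.2 (hnz x.2 x.1)).smul h1).congr
      fun x => (hF x).symm
  rw [contractible_iff_id_nullhomotopic]
  exact ⟨⟨q, hq⟩, ⟨⟨⟨fun x => ⟨F x, hFU x⟩, hFc.subtype_mk _⟩, fun v => Subtype.ext (hF0 v),
    fun v => Subtype.ext (hF1 v)⟩⟩⟩

end Pool.Agent.MP_bc14e1_gt
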