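import Pool.Agent.MP_bc14e1_gt.K.Emb

/-! The parametrised closed braid: cases, smoothness, symmetry. -/

open Set Metric
open scoped ContDiff

namespace Pool.Agent.MP_bc14e1_gt

theorem Knot_sd_cases (k : ℤ) : (sd k : ℝ) = 1 ∨ (sd k : ℝ) = -1 := by
  rcases sd_cases k with h | h <;> rw [h] <;> simp

theorem Knot_c1 {ψ : ℝ} (h : pos ⌊ψ⌋ = 0) : cA ψ = sd ⌊ψ⌋ * stp (Int.fract ψ) ∧
    cB ψ = stp (Int.fract ψ) * (1 - stp (Int.fract ψ)) := by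
  have h1 : pos (⌊ψ⌋ + 1) = sd ⌊ψ⌋ := by
    have := pos_cases ⌊ψ⌋
    have := sd_cases ⌊ψ⌋
    omega
  unfold cA cB
  rw [h, h1]
  rcases Knot_sd_cases ⌊ψ⌋ with h2 | h2 <;> rw [h2] <;> constructor <;> push_cast <;> ring

theorem Knot_c2 {ψ : ℝ} (h : pos ⌊ψ⌋ = sd ⌊ψ⌋) : cA ψ = sd ⌊ψ⌋ * (1 - stp (Int.fract ψ)) ∧
    cB ψ = -(stp (Int.fract ψ) * (1 - stp (Int.fract ψ))) := by
  have h1 : pos (⌊ψ⌋ + 1) = 0 := by
    have := pos_cases ⌊ψ⌋
    have := sd_cases ⌊ψ⌋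
    omega
  unfold cA cB
  rw [h, h1]
  rcases Knot_sd_cases ⌊ψ⌋ with h2 | h2 <;> rw [h2] <;> constructor <;> push_cast <;> ring

theorem Knot_c3 {ψ : ℝ} (h : pos ⌊ψ⌋ = -sd ⌊ψ⌋) : cA ψ = -sd ⌊ψ⌋ ∧ cB ψ = 0 := by
  have h1 : pos (⌊ψ⌋ + 1) = -sd ⌊ψ⌋ := by
    have := pos_cases ⌊ψ⌋
    have := sd_cases ⌊ψ⌋
    omega
  unfold cA cB
  rw [h, h1]
  constructor <;> push_cast <;> ring

theorem Knot_tri (k : ℤ) : pos k = 0 ∨ pos k = sd k ∨ pos k = -sd k := by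
  have := pos_cases k
  omega

theorem Knot_range : range kap = Kset := by
  ext v
  constructor
  · rintro ⟨ψ, rfl⟩
    refine ⟨ψ, cA ψ, cB ψ, ?_, rfl⟩
    rcases Knot_tri ⌊ψ⌋ with h | h | h
    · exact Or.inl (Knot_c1 h)
    · exact Or.inr (Or.inl (Knot_c2 h))
    · exact Or.inr (Or.inr (Knot_c3 h))
  · rintro ⟨ψ, a, b, h, rfl⟩
    obtain ⟨⟨j1, h1⟩, ⟨j2, h2⟩, ⟨j3, h3⟩⟩ := pos_surj ⌊ψ⌋
    rcases h with ⟨ha, hb⟩ | ⟨ha, hb⟩ | ⟨ha, hb⟩
    · have h4 := Knot_c1 (ψ := ψ + 22 * j1) (by rw [floor_add22, h1])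
      rw [floor_add22, fract_add22, sd_add_mul] at h4
      exact ⟨ψ + 22 * j1, by rw [kap, h4.1, h4.2, emb_add22, ha, hb]⟩
    · have h4 := Knot_c2 (ψ := ψ + 22 * j2) (by rw [floor_add22, h2, sd_add_mul])
      rw [floor_add22, fract_add22, sd_add_mul] at h4
      exact ⟨ψ + 22 * j2, by rw [kap, h4.1, h4.2, emb_add22, ha, hb]⟩
    · have h4 := Knot_c3 (ψ := ψ + 22 * j3) (by rw [floor_add22, h3, sd_add_mul])
      rw [floor_add22, sd_add_mul] at h4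
      exact ⟨ψ + 22 * j3, by rw [kap, h4.1, h4.2, emb_add22, ha, hb]⟩

theorem Knot_near_gen (Φ : ℤ → ℝ → ℝ) (c : ℤ → ℝ) (h0 : ∀ k τ, τ ≤ 1 / 3 → Φ k τ = c k)
    (h1 : ∀ k τ, 2 / 3 ≤ τ → Φ k τ = c (k + 1)) (k : ℤ) (y : ℝ) (ha : (k : ℝ) - 1 / 3 ≤ y)
    (hb : y ≤ k + 1 / 3) : Φ ⌊y⌋ (Int.fract y) = c k := by
  rcases le_or_gt (k : ℝ) y with h | h
  · have h2 : ⌊y⌋ = k := Int.floor_eq_iff.2 ⟨h, by linarith⟩
    rw [h0 _ _ (by rw [Int.fract, h2]; linarith), h2]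
  · have h2 : ⌊y⌋ = k - 1 := Int.floor_eq_iff.2 ⟨by push_cast; linarith, by push_cast; linarith⟩
    rw [h1 _ _ (by rw [Int.fract, h2]; push_cast; linarith), h2, sub_add_cancel]

theorem Knot_smooth_gen (Φ : ℤ → ℝ → ℝ) (c : ℤ → ℝ) (hΦ : ∀ k, ContDiff ℝ ∞ (Φ k))
    (h0 : ∀ k τ, τ ≤ 1 / 3 → Φ k τ = c k) (h1 : ∀ k τ, 2 / 3 ≤ τ → Φ k τ = c (k + 1)) :
    ContDiff ℝ ∞ fun y : ℝ => Φ ⌊y⌋ (Int.fract y) := by
  rw [contDiff_iff_contDiffAt]
  intro x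
  rcases (Int.floor_le x).eq_or_lt with h | h
  · refine (contDiffAt_const (c := c ⌊x⌋)).congr_of_eventuallyEq ?_
    filter_upwards [Ioo_mem_nhds (show x - 1 / 3 < x by linarith) (show x < x + 1 / 3 by linarith)]
      with y hy
    exact Knot_near_gen Φ c h0 h1 ⌊x⌋ y (by rw [h]; exact hy.1.le) (by rw [h]; exact hy.2.le)
  · have h2 : ContDiffAt ℝ ∞ (fun y : ℝ => Φ ⌊x⌋ (y - ⌊x⌋)) x :=
      ((hΦ ⌊x⌋).comp (contDiff_id.sub contDiff_const)).contDiffAt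
    refine h2.congr_of_eventuallyEq ?_
    filter_upwards [Ioo_mem_nhds h (Int.lt_floor_add_one x)] with y hy
    have h3 : ⌊y⌋ = ⌊x⌋ := Int.floor_eq_iff.2 ⟨hy.1.le, hy.2⟩
    rw [Int.fract, h3]

theorem Knot_cA_near (k : ℤ) (y : ℝ) (ha : (k : ℝ) - 1 / 3 ≤ y) (hb : y ≤ k + 1 / 3) :
    cA y = pos k :=
  Knot_near_gen (fun k τ => pos k + (pos (k + 1) - pos k) * stp τ) (fun k => pos k)
    (fun k τ h => by rw [stp_zero h]; ring) (fun k τ h => by rw [stp_one h]; ring) k y ha hb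

theorem Knot_cB_near (k : ℤ) (y : ℝ) (ha : (k : ℝ) - 1 / 3 ≤ y) (hb : y ≤ k + 1 / 3) :
    cB y = 0 :=
  Knot_near_gen (fun k τ => sd k * (pos (k + 1) - pos k) * (stp τ * (1 - stp τ))) (fun _ => 0)
    (fun k τ h => by rw [stp_zero h]; ring) (fun k τ h => by rw [stp_one h]; ring) k y ha hb

theorem Knot_cA_smooth : ContDiff ℝ ∞ cA :=
  Knot_smooth_gen (fun k τ => pos k + (pos (k + 1) - pos k) * stp τ) (fun k => pos k)
    (fun _ => contDiff_const.add (contDiff_const.mul stp_contDiff))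
    (fun k τ h => by rw [stp_zero h]; ring) (fun k τ h => by rw [stp_one h]; ring)

theorem Knot_cB_smooth : ContDiff ℝ ∞ cB :=
  Knot_smooth_gen (fun k τ => sd k * (pos (k + 1) - pos k) * (stp τ * (1 - stp τ))) (fun _ => 0)
    (fun _ => contDiff_const.mul (stp_contDiff.mul (contDiff_const.sub stp_contDiff)))
    (fun k τ h => by rw [stp_zero h]; ring) (fun k τ h => by rw [stp_one h]; ring)

theorem Knot_kap_smooth : ContDiff ℝ ∞ kap :=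
  emb_contDiff.comp (contDiff_id.prodMk (Knot_cA_smooth.prodMk Knot_cB_smooth))

theorem Knot_add66 (ψ : ℝ) (j : ℤ) : kap (ψ + 66 * j) = kap ψ := by
  have h : ψ + 66 * j = ψ + 22 * ((3 * j : ℤ) : ℝ) := by push_cast; ring
  have h1 : pos (⌊ψ⌋ + 22 * (3 * j)) = pos ⌊ψ⌋ := by
    rw [show ⌊ψ⌋ + 22 * (3 * j) = ⌊ψ⌋ + 66 * j by ring, pos_add66]
  have h2 : pos (⌊ψ⌋ + 22 * (3 * j) + 1) = pos (⌊ψ⌋ + 1) := by
    rw [show ⌊ψ⌋ + 22 * (3 * j) + 1 = ⌊ψ⌋ + 1 + 66 * j by ring, pos_add66]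
  unfold kap cA cB
  rw [h, floor_add22, fract_add22, sd_add_mul, h1, h2, emb_add22]

theorem Knot_inj {ψ ψ' : ℝ} (h : kap ψ = kap ψ') : ∃ j : ℤ, ψ' = ψ + 66 * j := by
  obtain ⟨ha, hb, j, rfl⟩ := emb_eq_iff.1 h
  have key : pos (⌊ψ⌋ + 22 * j) = pos ⌊ψ⌋ := by
    have s0 := stp_nonneg (Int.fract ψ)
    have s1 := stp_le_one (Int.fract ψ)
    have hs := Knot_sd_cases ⌊ψ⌋
    have t := Knot_tri ⌊ψ + 22 * j⌋
    have c1 := Knot_c1 (ψ := ψ + 22 * j)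
    have c2 := Knot_c2 (ψ := ψ + 22 * j)
    have c3 := Knot_c3 (ψ := ψ + 22 * j)
    rw [← ha, ← hb] at c1 c2 c3
    rw [floor_add22, sd_add_mul] at t c1 c2 c3
    rw [fract_add22] at c1 c2
    rcases Knot_tri ⌊ψ⌋ with h1 | h1 | h1 <;> rcases t with h2 | h2 | h2
    all_goals first
      | (rw [h1, h2]; done)
      | exfalso
    · obtain ⟨e1, e2⟩ := Knot_c1 h1
      obtain ⟨e3, e4⟩ := c2 h2
      rcases hs with hs | hs <;> rw [hs] at e1 e3 <;> nlinarith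
    · obtain ⟨e1, e2⟩ := Knot_c1 h1
      obtain ⟨e3, e4⟩ := c3 h2
      rcases hs with hs | hs <;> rw [hs] at e1 e3 <;> linarith
    · obtain ⟨e1, e2⟩ := Knot_c2 h1
      obtain ⟨e3, e4⟩ := c1 h2
      rcases hs with hs | hs <;> rw [hs] at e1 e3 <;> nlinarith
    · obtain ⟨e1, e2⟩ := Knot_c2 h1
      obtain ⟨e3, e4⟩ := c3 h2
      rcases hs with hs | hs <;> rw [hs] at e1 e3 <;> linarith
    · obtain ⟨e1, e2⟩ := Knot_c3 h1
      obtain ⟨e3, e4⟩ := c1 h2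
      rcases hs with hs | hs <;> rw [hs] at e1 e3 <;> linarith
    · obtain ⟨e1, e2⟩ := Knot_c3 h1
      obtain ⟨e3, e4⟩ := c2 h2
      rcases hs with hs | hs <;> rw [hs] at e1 e3 <;> linarith
  obtain ⟨q, rfl⟩ := pos_inj key
  exact ⟨q, by push_cast; ring⟩

theorem Knot_compact : IsCompact Kset := by
  rw [← Knot_range]
  have hp : Function.Periodic kap 66 := fun x => by simpa using Knot_add66 x 1
  exact hp.compact_of_continuous (by norm_num) Knot_kap_smooth.continuous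

theorem Knot_c_neg (x : ℝ) : cA (-x) = -cA x ∧ cB (-x) = -cB x := by
  by_cases hx : Int.fract x = 0
  · have h : (⌊x⌋ : ℝ) = x := by
      have := Int.fract_add_floor x
      linarith
    rw [Knot_cA_near (-⌊x⌋) (-x) (by push_cast; linarith) (by push_cast; linarith),
      Knot_cB_near (-⌊x⌋) (-x) (by push_cast; linarith) (by push_cast; linarith),
      Knot_cA_near ⌊x⌋ x (by linarith) (by linarith),
      Knot_cB_near ⌊x⌋ x (by linarith) (by linarith), pos_neg]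
    simp
  · have h0 : (⌊x⌋ : ℝ) < x := by
      have h1 := Int.fract_add_floor x
      have h2 := (Int.fract_nonneg x).lt_of_ne' hx
      linarith
    have h1 := Int.lt_floor_add_one x
    have h : ⌊-x⌋ = -⌊x⌋ - 1 :=
      Int.floor_eq_iff.2 ⟨by push_cast; linarith, by push_cast; linarith⟩
    have h2 : pos (-⌊x⌋ - 1) = -pos (⌊x⌋ + 1) := by
      rw [← pos_neg]
      congr 1
      ring
    unfold cA cB
    rw [h, Int.fract_neg hx, stp_one_sub, sd_neg, sub_add_cancel, h2, pos_neg]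
    constructor <;> push_cast <;> ring

theorem Knot_kap_neg (x : ℝ) : kap (-x) 0 = kap x 0 ∧ kap (-x) 1 = -kap x 1 ∧
    kap (-x) 2 = -kap x 2 ∧ kap (-x) 3 = -kap x 3 := by
  have h : Real.pi * -x / 11 = -(Real.pi * x / 11) := by ring
  unfold kap
  rw [(Knot_c_neg x).1, (Knot_c_neg x).2]
  simp only [emb_0, emb_1, emb_2, emb_3]
  rw [h]
  simp only [Real.cos_neg, Real.sin_neg, neg_sq, mul_neg, and_self]

theorem Knot_kap_33 : kap 33 = !₂[-1, 0, 0, 0] := by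
  have ha : cA 33 = 0 := by
    rw [Knot_cA_near 33 33 (by norm_num) (by norm_num), pos_33, Int.cast_zero]
  have hb : cB 33 = 0 := Knot_cB_near 33 33 (by norm_num) (by norm_num)
  have h : Real.pi * 33 / 11 = Real.pi + 2 * Real.pi := by ring
  unfold kap
  rw [ha, hb]
  refine E4_ext ?_ ?_ ?_ ?_
  · rw [emb_0, h, Real.cos_add_two_pi]
    simp
  · rw [emb_1, h, Real.sin_add_two_pi]
    simp
  · rw [emb_2]
    simp
  · rw [emb_3]
    simp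

theorem Knot_ne_pole {ψ : ℝ} (h1 : -33 < ψ) (h2 : ψ < 33) : 1 + kap ψ 0 ≠ 0 := by
  intro h
  have hn : ‖kap ψ‖ = 1 := norm_emb _ _ _
  have h3 := E4_norm_sq (kap ψ)
  have h0 : kap ψ 0 = -1 := by linarith
  rw [hn, h0] at h3
  have e1 : kap ψ 1 = 0 := by nlinarith [sq_nonneg (kap ψ 1), sq_nonneg (kap ψ 2), sq_nonneg (kap ψ 3)]
  have e2 : kap ψ 2 = 0 := by nlinarith [sq_nonneg (kap ψ 1), sq_nonneg (kap ψ 2), sq_nonneg (kap ψ 3)]
  have e3 : kap ψ 3 = 0 := by nlinarith [sq_nonneg (kap ψ 1), sq_nonneg (kap ψ 2), sq_nonneg (kap ψ 3)]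
  have h4 : kap ψ = kap 33 := by
    rw [Knot_kap_33]
    exact E4_ext (by simpa using h0) (by simpa using e1) (by simpa using e2) (by simpa using e3)
  obtain ⟨j, hj⟩ := Knot_inj h4
  have h5 : (0 : ℝ) < j := by linarith
  have h6 : (j : ℝ) < 1 := by linarith
  have h7 : 0 < j := by exact_mod_cast h5
  have h8 : j < 1 := by exact_mod_cast h6
  omega

end Pool.Agent.MP_bc14e1_gt
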