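import Pool.Agent.MP_bc14e1_gt.Defs
import Pool.Agent.MP_4f4d9f_gt.Cone
import Pool.Agent.MP_4f4d9f_gt.SubdivGen

/-! The four-sphere is orientable. -/

open Set Metric

namespace Pool.Agent.MP_bc14e1_gt

/-- The homology of cycles `Z` in `F0` modulo boundaries from `F1` is infinite cyclic. -/
def Ori_Q {C1 C0 : Type} [AddCommGroup C1] [AddCommGroup C0] (d : C1 →ₗ[ℤ] C0)
    (F1 : Submodule ℤ C1) (F0 Z : Submodule ℤ C0) : Prop :=
  ∃ z ∈ F0, z ∈ Z ∧ ∀ c ∈ F0, c ∈ Z → ∃! n : ℤ, ∃ b ∈ F1, d b = c - n • z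

theorem Ori_mv {C2 C1 C0 : Type} [AddCommGroup C2] [AddCommGroup C1] [AddCommGroup C0]
    (d1 : C2 →ₗ[ℤ] C1) (d0 : C1 →ₗ[ℤ] C0) (Z : Submodule ℤ C0) (A2 B2 U2 : Submodule ℤ C2)
    (A1 B1 U1 : Submodule ℤ C1) (A0 B0 : Submodule ℤ C0) (hdd : ∀ x, d0 (d1 x) = 0)
    (hZ : ∀ x, d0 x ∈ Z) (a0 : ∀ c ∈ A0, c ∈ Z → ∃ b ∈ A1, d0 b = c)
    (b0 : ∀ c ∈ B0, c ∈ Z → ∃ b ∈ B1, d0 b = c) (a1 : ∀ c ∈ A1, d0 c = 0 → ∃ b ∈ A2, d1 b = c)
    (b1 : ∀ c ∈ B1, d0 c = 0 → ∃ b ∈ B2, d1 b = c) (ma : ∀ c ∈ A1, d0 c ∈ A0)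
    (mb : ∀ c ∈ B1, d0 c ∈ B0) (ma' : ∀ c ∈ A2, d1 c ∈ A1) (mb' : ∀ c ∈ B2, d1 c ∈ B1)
    (ua : A2 ≤ U2) (ub : B2 ≤ U2) (ua' : A1 ≤ U1) (ub' : B1 ≤ U1)
    (s1 : ∀ c ∈ U1, d0 c = 0 → ∃ h ∈ U2, c - d1 h ∈ A1 ⊔ B1)
    (s2 : ∀ w ∈ U2, d1 w ∈ A1 ⊔ B1 → ∃ w' ∈ A2 ⊔ B2, d1 w' = d1 w)
    (h : Ori_Q d0 (A1 ⊓ B1) (A0 ⊓ B0) Z) : Ori_Q d1 U2 U1 (LinearMap.ker d0) := by
  obtain ⟨z, hz, hzZ, h⟩ := h
  obtain ⟨a, ha, ea⟩ := a0 z hz.1 hzZ
  obtain ⟨b, hb, eb⟩ := b0 z hz.2 hzZ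
  have key : ∀ (m : ℤ), ∀ w ∈ U2, d1 w = m • (a - b) → m = 0 := by
    intro m w hw e
    obtain ⟨w', hw', e'⟩ := s2 w hw (by
      rw [e]
      exact Submodule.smul_mem _ _ (sub_mem (Submodule.mem_sup_left ha) (Submodule.mem_sup_right hb)))
    obtain ⟨x, hx, y, hy, rfl⟩ := Submodule.mem_sup.1 hw'
    rw [e, map_add] at e'
    have e2 : m • a - d1 x = m • b + d1 y := by
      rw [smul_sub] at e'
      linear_combination (norm := abel1) -e'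
    refine (h (m • z) (Submodule.smul_mem _ _ hz) (Submodule.smul_mem _ _ hzZ)).unique
      ⟨0, zero_mem _, by rw [map_zero, sub_self]⟩
      ⟨m • a - d1 x, ⟨sub_mem (Submodule.smul_mem _ _ ha) (ma' x hx), ?_⟩, ?_⟩
    · rw [e2]
      exact add_mem (Submodule.smul_mem _ _ hb) (mb' y hy)
    · rw [map_sub, hdd, map_zsmul, ea, zero_smul]
  refine ⟨a - b, sub_mem (ua' ha) (ub' hb), by rw [LinearMap.mem_ker, map_sub, ea, eb, sub_self],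
    fun c hc hc0 => ?_⟩
  obtain ⟨g, hg, hs⟩ := s1 c hc hc0
  obtain ⟨u, hu, v, hv, e⟩ := Submodule.mem_sup.1 hs
  have e1 : d0 u = -d0 v := by
    have := congrArg d0 e
    rw [map_add, map_sub, hdd, show d0 c = 0 from hc0, sub_zero] at this
    exact eq_neg_of_add_eq_zero_left this
  obtain ⟨n, t, ht, et⟩ := (h (d0 u) ⟨ma u hu, e1 ▸ neg_mem (mb v hv)⟩ (hZ u)).exists
  obtain ⟨x, hx, ex⟩ := a1 (u - n • a - t) (sub_mem (sub_mem hu (Submodule.smul_mem _ _ ha)) ht.1)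
    (by rw [map_sub, map_sub, map_zsmul, ea, et, sub_self])
  obtain ⟨y, hy, ey⟩ := b1 (v + n • b + t) (add_mem (add_mem hv (Submodule.smul_mem _ _ hb)) ht.2)
    (by rw [map_add, map_add, map_zsmul, eb, et, e1]; abel)
  have e3 : d1 (g + x + y) = c - n • (a - b) := by
    rw [map_add, map_add, ex, ey, smul_sub]
    linear_combination (norm := abel1) e
  have h3 : g + x + y ∈ U2 := add_mem (add_mem hg (ua hx)) (ub hy)
  refine ⟨n, ⟨_, h3, e3⟩, ?_⟩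
  rintro n' ⟨w, hw, ew⟩
  have := key (n' - n) (g + x + y - w) (sub_mem h3 hw) (by
    rw [map_sub, e3, ew, sub_smul]
    abel)
  exact sub_eq_zero.1 this

section
open MP_4f4d9f_gt (SAcyc Acyclic aug aug_bd bd_bd bd_mem_supp supp_mono supp_inter small_chainR
  supp_union_zero single_mem_supp aug_single eq_zero_of_mem_supp_empty bd_push aug_push push_push
  push_id acyclic_of_contractible mem_supp_univ)

variable {X : Type} [TopologicalSpace X] {A B : Set X}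

theorem Ori_small (hA : IsOpen A) (hB : IsOpen B) (k : ℕ) :
    ∀ w ∈ MP_4f4d9f_gt.supp ℤ (A ∪ B) (k + 1),
      MP_4f4d9f_gt.bd ℤ X k w ∈ MP_4f4d9f_gt.supp ℤ A k ⊔ MP_4f4d9f_gt.supp ℤ B k →
      ∃ w' ∈ MP_4f4d9f_gt.supp ℤ A (k + 1) ⊔ MP_4f4d9f_gt.supp ℤ B (k + 1),
        MP_4f4d9f_gt.bd ℤ X k w' = MP_4f4d9f_gt.bd ℤ X k w := fun w hw hd => by
  obtain ⟨h, -, hh⟩ := small_chainR hA hB k w hw hd
  exact ⟨_, hh, by rw [map_sub, bd_bd, sub_zero]⟩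

theorem Ori_base (hA : IsOpen A) (hB : IsOpen B) (aA : SAcyc ℤ A) (aB : SAcyc ℤ B)
    (h : A ∩ B = ∅) : Ori_Q (MP_4f4d9f_gt.bd ℤ X 0) (MP_4f4d9f_gt.supp ℤ (A ∪ B) 1)
      (MP_4f4d9f_gt.supp ℤ (A ∪ B) 0) (LinearMap.ker (aug ℤ X)) := by
  have pt : ∀ {S : Set X}, SAcyc ℤ S → ∀ c ∈ (⊤ : Submodule ℤ ℤ), c ∈ (⊤ : Submodule ℤ ℤ) →
      ∃ b ∈ MP_4f4d9f_gt.supp ℤ S 0, aug ℤ X b = c := fun hS c _ _ => by
    obtain ⟨y, hy⟩ := hS.nonempty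
    exact ⟨_, single_mem_supp (σ := ContinuousMap.const _ y) c fun _ => hy, aug_single _ _ _⟩
  refine Ori_mv _ (aug ℤ X) ⊤ _ _ _ _ _ _ ⊤ ⊤ (aug_bd ℤ) (fun _ => trivial) (pt aA) (pt aB)
    aA.zero aB.zero (fun _ _ => trivial) (fun _ _ => trivial) (fun _ => bd_mem_supp)
    (fun _ => bd_mem_supp) (supp_mono subset_union_left _) (supp_mono subset_union_right _)
    (supp_mono subset_union_left _) (supp_mono subset_union_right _)
    (fun c hc _ => ⟨0, zero_mem _, by rwa [map_zero, sub_zero, ← supp_union_zero]⟩)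
    (Ori_small hA hB 0) ⟨1, ⟨trivial, trivial⟩, trivial, fun c _ _ => ⟨c, ⟨0, zero_mem _, by simp⟩, ?_⟩⟩
  rintro n ⟨b, hb, e⟩
  rw [← supp_inter, h] at hb
  rw [eq_zero_of_mem_supp_empty hb, map_zero, smul_eq_mul, mul_one] at e
  exact (sub_eq_zero.1 e.symm).symm

theorem Ori_zero (hA : IsOpen A) (hB : IsOpen B) (aA : SAcyc ℤ A) (aB : SAcyc ℤ B)
    (h : Ori_Q (MP_4f4d9f_gt.bd ℤ X 0) (MP_4f4d9f_gt.supp ℤ (A ∩ B) 1)
      (MP_4f4d9f_gt.supp ℤ (A ∩ B) 0) (LinearMap.ker (aug ℤ X))) :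
    Ori_Q (MP_4f4d9f_gt.bd ℤ X 1) (MP_4f4d9f_gt.supp ℤ (A ∪ B) 2)
      (MP_4f4d9f_gt.supp ℤ (A ∪ B) 1) (LinearMap.ker (MP_4f4d9f_gt.bd ℤ X 0)) := by
  rw [supp_inter, supp_inter] at h
  exact Ori_mv _ _ _ _ _ _ _ _ _ _ _ (bd_bd ℤ 0) (aug_bd ℤ) aA.zero aB.zero (aA.succ 0)
    (aB.succ 0) (fun _ => bd_mem_supp) (fun _ => bd_mem_supp) (fun _ => bd_mem_supp)
    (fun _ => bd_mem_supp) (supp_mono subset_union_left _) (supp_mono subset_union_right _)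
    (supp_mono subset_union_left _) (supp_mono subset_union_right _)
    (fun c hc e => small_chainR hA hB 0 c hc (e ▸ zero_mem _)) (Ori_small hA hB 1) h

theorem Ori_succ (hA : IsOpen A) (hB : IsOpen B) (aA : SAcyc ℤ A) (aB : SAcyc ℤ B) (k : ℕ)
    (h : Ori_Q (MP_4f4d9f_gt.bd ℤ X (k + 1)) (MP_4f4d9f_gt.supp ℤ (A ∩ B) (k + 2))
      (MP_4f4d9f_gt.supp ℤ (A ∩ B) (k + 1)) (LinearMap.ker (MP_4f4d9f_gt.bd ℤ X k))) :
    Ori_Q (MP_4f4d9f_gt.bd ℤ X (k + 2)) (MP_4f4d9f_gt.supp ℤ (A ∪ B) (k + 3))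
      (MP_4f4d9f_gt.supp ℤ (A ∪ B) (k + 2)) (LinearMap.ker (MP_4f4d9f_gt.bd ℤ X (k + 1))) := by
  rw [supp_inter, supp_inter] at h
  exact Ori_mv _ _ _ _ _ _ _ _ _ _ _ (bd_bd ℤ (k + 1)) (bd_bd ℤ k) (aA.succ k) (aB.succ k)
    (aA.succ (k + 1)) (aB.succ (k + 1)) (fun _ => bd_mem_supp) (fun _ => bd_mem_supp)
    (fun _ => bd_mem_supp) (fun _ => bd_mem_supp) (supp_mono subset_union_left _)
    (supp_mono subset_union_right _) (supp_mono subset_union_left _)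
    (supp_mono subset_union_right _)
    (fun c hc e => small_chainR hA hB (k + 1) c hc (e ▸ zero_mem _)) (Ori_small hA hB (k + 2)) h

/-- A retract of an acyclic space is acyclic. -/
theorem Ori_retract {Y : Type} [TopologicalSpace Y] (i : C(X, Y)) (r : C(Y, X))
    (e : r.comp i = ContinuousMap.id X) (h : Acyclic ℤ Y) : Acyclic ℤ X := by
  refine ⟨h.nonempty.map r, fun c hc => ?_, fun k c hc => ?_⟩
  · obtain ⟨b, hb⟩ := h.zero (MP_4f4d9f_gt.push ℤ i 0 c) (by rw [aug_push, hc])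
    exact ⟨MP_4f4d9f_gt.push ℤ r 1 b, by rw [bd_push, hb, push_push, e, push_id]⟩
  · obtain ⟨b, hb⟩ := h.succ k (MP_4f4d9f_gt.push ℤ i (k + 1) c) (by rw [bd_push, hc, map_zero])
    exact ⟨MP_4f4d9f_gt.push ℤ r (k + 2) b, by rw [bd_push, hb, push_push, e, push_id]⟩

/-- The trace on the sphere of a star-shaped cone is acyclic. -/
theorem Ori_cone {n : ℕ} (T : Set (E n)) {e : E n} (hT : StarConvex ℝ e T) (he : e ∈ T)
    (h0 : ∀ x ∈ T, x ≠ 0) (hs : ∀ x ∈ T, ∀ t : ℝ, 0 < t → t • x ∈ T) :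
    SAcyc ℤ {x : sphere (0 : E n) 1 | x.1 ∈ T} := by
  have := hT.contractibleSpace ⟨e, he⟩
  have hn : ∀ x : T, ‖x.1‖ ≠ 0 := fun x => norm_ne_zero_iff.2 (h0 x x.2)
  have hm : ∀ x : T, ‖x.1‖⁻¹ • x.1 ∈ sphere (0 : E n) 1 := fun x => by
    rw [mem_sphere_zero_iff_norm, norm_smul, norm_inv, norm_norm, inv_mul_cancel₀ (hn x)]
  have hc : Continuous fun x : T => ‖x.1‖⁻¹ • x.1 :=
    (continuous_subtype_val.norm.inv₀ hn).smul continuous_subtype_val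
  refine Acyclic.sacyc (Ori_retract (Y := T)
    ⟨fun x => ⟨x.1.1, x.2⟩, (continuous_subtype_val.comp continuous_subtype_val).subtype_mk _⟩
    ⟨fun x => ⟨⟨‖x.1‖⁻¹ • x.1, hm x⟩, hs x x.2 _ (inv_pos.2 (norm_pos_iff.2 (h0 x x.2)))⟩,
      (hc.subtype_mk hm).subtype_mk _⟩ ?_ (acyclic_of_contractible ℤ T))
  ext1 x
  refine Subtype.ext (Subtype.ext ?_)
  show ‖x.1.1‖⁻¹ • x.1.1 = x.1.1
  rw [mem_sphere_zero_iff_norm.1 x.1.2, inv_one, one_smul]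

/-- Points with a nonzero coordinate among the first `j`. -/
def Ori_F (j : ℕ) : Set (sphere (0 : E 5) 1) := {x | ∃ i : Fin 5, i.val < j ∧ x.1 i ≠ 0}

/-- The previous set together with an open hemisphere. -/
def Ori_A (j : Fin 5) (ε : ℝ) : Set (sphere (0 : E 5) 1) :=
  {x | (∃ i : Fin 5, i.val < j.val ∧ x.1 i ≠ 0) ∨ 0 < ε * x.1 j}

theorem Ori_open (j : Fin 5) (ε : ℝ) : IsOpen (Ori_A j ε) := by
  have hc : ∀ i : Fin 5, Continuous fun x : sphere (0 : E 5) 1 => x.1 i := fun i => by fun_prop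
  refine IsOpen.union (s₁ := {x : sphere (0 : E 5) 1 | ∃ i : Fin 5, i.val < j.val ∧ x.1 i ≠ 0})
    ?_ (isOpen_lt continuous_const (continuous_const.mul (hc j)))
  rw [ofPred_exists]
  refine isOpen_iUnion fun i => ?_
  exact (isOpen_const (p := i.val < j.val)).inter (isOpen_ne_fun (hc i) continuous_const)

theorem Ori_acyc (j : Fin 5) {ε : ℝ} (hε : ε ≠ 0) : SAcyc ℤ (Ori_A j ε) := by
  have h2 : 0 < ε * ε := mul_self_pos.2 hε
  refine Ori_cone {x : E 5 | (∃ i : Fin 5, i.val < j.val ∧ x i ≠ 0) ∨ 0 < ε * x j}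
    (e := EuclideanSpace.single j ε) ?_ (Or.inr (by simpa using hε)) ?_ ?_
  · intro y hy a b ha hb hab
    rcases hb.eq_or_lt with rfl | hb
    · obtain rfl : a = 1 := by linarith
      exact Or.inr (by simpa using hε)
    · rcases hy with ⟨i, h1, h3⟩ | h1
      · have : i ≠ j := fun e => by rw [e] at h1; exact lt_irrefl _ h1
        exact Or.inl ⟨i, h1, by simp [this, hb.ne', h3]⟩
      · refine Or.inr ?_
        simp only [PiLp.add_apply, PiLp.smul_apply, PiLp.single_apply, if_true,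
          smul_eq_mul]
        nlinarith [mul_nonneg ha h2.le, mul_pos hb h1]
  · rintro x hx rfl
    simp at hx
  · rintro x (⟨i, h1, h3⟩ | h1) t ht
    · exact Or.inl ⟨i, h1, by simp [ht.ne', h3]⟩
    · refine Or.inr ?_
      simp only [PiLp.smul_apply, smul_eq_mul]
      nlinarith [mul_pos ht h1]

theorem Ori_inter (j : Fin 5) : Ori_A j 1 ∩ Ori_A j (-1) = Ori_F j := by
  ext x
  constructor
  · rintro ⟨h | h, h' | h'⟩
    exacts [h, h, h', by linarith]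
  · exact fun h => ⟨Or.inl h, Or.inl h⟩

theorem Ori_union (j : Fin 5) : Ori_A j 1 ∪ Ori_A j (-1) = Ori_F (j + 1) := by
  ext x
  constructor
  · rintro ((⟨i, h1, h2⟩ | h) | ⟨i, h1, h2⟩ | h)
    · exact ⟨i, by omega, h2⟩
    · exact ⟨j, by omega, fun e => by rw [e] at h; simp at h⟩
    · exact ⟨i, by omega, h2⟩
    · exact ⟨j, by omega, fun e => by rw [e] at h; simp at h⟩
  · rintro ⟨i, h1, h2⟩
    by_cases e : i = j
    · subst e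
      rcases lt_or_gt_of_ne h2 with h | h
      · exact Or.inr (Or.inr (by linarith))
      · exact Or.inl (Or.inr (by linarith))
    · exact Or.inl (Or.inl ⟨i, by omega, h2⟩)

theorem Ori_five : Ori_F 5 = univ := by
  refine eq_univ_of_forall fun x => ?_
  by_contra h
  refine ne_zero_of_mem_unit_sphere x ?_
  ext i
  by_contra k
  exact h ⟨i, i.2, k⟩

theorem Ori_fund : Ori_Q (MP_4f4d9f_gt.bd ℤ (sphere (0 : E 5) 1) 4) (MP_4f4d9f_gt.supp ℤ univ 5)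
    (MP_4f4d9f_gt.supp ℤ univ 4) (LinearMap.ker (MP_4f4d9f_gt.bd ℤ _ 3)) := by
  have m : (-1 : ℝ) ≠ 0 := by norm_num
  have h0 := Ori_base (Ori_open 0 1) (Ori_open 0 (-1)) (Ori_acyc 0 one_ne_zero) (Ori_acyc 0 m)
    (by rw [Ori_inter]; exact eq_empty_of_forall_notMem fun x ⟨i, h, _⟩ => by simp at h)
  rw [Ori_union] at h0
  have h1 := Ori_zero (Ori_open 1 1) (Ori_open 1 (-1)) (Ori_acyc 1 one_ne_zero) (Ori_acyc 1 m)
    (by rw [Ori_inter]; exact h0)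
  rw [Ori_union] at h1
  have h2 := Ori_succ (Ori_open 2 1) (Ori_open 2 (-1)) (Ori_acyc 2 one_ne_zero) (Ori_acyc 2 m) 0
    (by rw [Ori_inter]; exact h1)
  rw [Ori_union] at h2
  have h3 := Ori_succ (Ori_open 3 1) (Ori_open 3 (-1)) (Ori_acyc 3 one_ne_zero) (Ori_acyc 3 m) 1
    (by rw [Ori_inter]; exact h2)
  rw [Ori_union] at h3
  have h4 := Ori_succ (Ori_open 4 1) (Ori_open 4 (-1)) (Ori_acyc 4 one_ne_zero) (Ori_acyc 4 m) 2
    (by rw [Ori_inter]; exact h3)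
  rw [Ori_union] at h4
  rw [← Ori_five]
  exact h4

theorem Ori_compl (p : sphere (0 : E 5) 1) : SAcyc ℤ ({p}ᶜ : Set (sphere (0 : E 5) 1)) := by
  have hp := ne_zero_of_mem_unit_sphere p
  have h := Ori_cone {x : E 5 | ∀ t : ℝ, 0 ≤ t → x ≠ t • p.1} (e := -p.1) ?_ ?_ ?_ ?_
  · have e : {x : sphere (0 : E 5) 1 | x.1 ∈ {x : E 5 | ∀ t : ℝ, 0 ≤ t → x ≠ t • p.1}} = {p}ᶜ := by
      ext x
      refine ⟨fun k e => k 1 zero_le_one (by rw [one_smul, mem_singleton_iff.1 e]),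
        fun k t ht e => k (Subtype.ext ?_)⟩
      have := congrArg norm e
      rw [norm_smul, mem_sphere_zero_iff_norm.1 x.2, mem_sphere_zero_iff_norm.1 p.2, mul_one,
        Real.norm_of_nonneg ht] at this
      rw [e, ← this, one_smul]
    rwa [e] at h
  · intro y hy a b ha hb hab t ht e
    have e1 : b • y = (t + a) • p.1 := by
      rw [add_smul, ← e, smul_neg]
      abel
    rcases hb.eq_or_lt with rfl | hb
    · rw [zero_smul, eq_comm, smul_eq_zero] at e1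
      exact e1.elim (fun k => by linarith) hp
    · refine hy (b⁻¹ * (t + a)) (by positivity) ?_
      rw [mul_smul, ← e1, inv_smul_smul₀ hb.ne']
  · intro t ht e
    have e1 : (t + 1) • p.1 = 0 := by rw [add_smul, ← e, one_smul, neg_add_cancel]
    exact (smul_eq_zero.1 e1).elim (fun k => by linarith) hp
  · exact fun x hx e => hx 0 le_rfl (by rw [e, zero_smul])
  · intro x hx s hs t ht e
    refine hx (s⁻¹ * t) (by positivity) ?_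
    rw [mul_smul, ← e, inv_smul_smul₀ hs.ne']

theorem Ori_gen {S : Set X} (hS : SAcyc ℤ S) {z : MP_4f4d9f_gt.Sing X 4 →₀ ℤ}
    (hz : MP_4f4d9f_gt.bd ℤ X 3 z = 0)
    (h : ∀ c, MP_4f4d9f_gt.bd ℤ X 3 c = 0 → ∃! n : ℤ, ∃ b, MP_4f4d9f_gt.bd ℤ X 4 b = c - n • z)
    (c : MP_4f4d9f_gt.Sing X 4 →₀ ℤ) (hc : MP_4f4d9f_gt.bd ℤ X 3 c ∈ MP_4f4d9f_gt.supp ℤ S 3) :
    ∃! n : ℤ, ∃ b ∈ MP_4f4d9f_gt.supp ℤ (univ : Set X) 5,
      c - n • z - MP_4f4d9f_gt.bd ℤ X 4 b ∈ MP_4f4d9f_gt.supp ℤ S 4 := by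
  obtain ⟨e, he, ee⟩ := hS.succ 2 _ hc (bd_bd ℤ 2 c)
  refine (existsUnique_congr fun n => ⟨?_, ?_⟩).1 (h (c - e) (by rw [map_sub, ee, sub_self]))
  · rintro ⟨b, hb⟩
    refine ⟨b, mem_supp_univ b, ?_⟩
    rw [hb, show c - n • z - (c - e - n • z) = e by abel]
    exact he
  · rintro ⟨b, -, hb⟩
    obtain ⟨g, -, eg⟩ := hS.succ 3 _ (sub_mem hb he) (by
      rw [map_sub, map_sub, map_sub, map_zsmul, hz, bd_bd, ee, smul_zero, sub_zero, sub_zero,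
        sub_self])
    exact ⟨b + g, by rw [map_add, eg]; abel⟩

end

/-- `H_4(S⁴)` is infinite cyclic. -/
theorem exists_fund_sphere : ∃ z : Sing (sphere (0 : E 5) 1) 4 →₀ ℤ, bd ℤ _ 3 z = 0 ∧
    ∀ c : Sing (sphere (0 : E 5) 1) 4 →₀ ℤ, bd ℤ _ 3 c = 0 →
      ∃! n : ℤ, ∃ b, bd ℤ _ 4 b = c - n • z := by
  obtain ⟨z, -, hz, h⟩ := Ori_fund
  refine ⟨z, hz, fun c hc => (existsUnique_congr fun n => ⟨?_, ?_⟩).1
    (h c (MP_4f4d9f_gt.mem_supp_univ c) hc)⟩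
  · rintro ⟨b, -, hb⟩
    exact ⟨b, hb⟩
  · rintro ⟨b, hb⟩
    exact ⟨b, MP_4f4d9f_gt.mem_supp_univ b, hb⟩

theorem orient_sphere : Nonempty (Orientation4 (sphere (0 : E 5) 1)) := by
  obtain ⟨z, hz, h⟩ := exists_fund_sphere
  refine ⟨⟨fun _ => z, fun p => hz ▸ zero_mem _, fun p c hc => Ori_gen (Ori_compl p) hz h c hc,
    fun p => ⟨univ, Filter.univ_mem, z, hz ▸ zero_mem _, fun q _ => ⟨0, zero_mem _, ?_⟩⟩⟩⟩
  rw [map_zero, sub_self, sub_self]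
  exact zero_mem _

end Pool.Agent.MP_bc14e1_gt
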