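import Pool.Agent.MP_bc14e1_gt.K.RDef

/-! The upper and lower pieces of the knot complement. -/

open Set Metric

namespace Pool.Agent.MP_bc14e1_gt

/-- The last coordinate of the pole. -/
noncomputable def R1_sg (ε : Bool) : ℝ := if ε then 1 else -1

theorem R1_sg_sq (ε : Bool) : R1_sg ε * R1_sg ε = 1 := by cases ε <;> simp [R1_sg]

theorem R1_sg_not (ε : Bool) : R1_sg (!ε) = -R1_sg ε := by cases ε <;> simp [R1_sg]

theorem R1_pole (ε : Bool) : (pole ε).1 0 = 0 ∧ (pole ε).1 1 = 0 ∧ (pole ε).1 2 = 0 ∧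
    (pole ε).1 3 = R1_sg ε := by simp [pole, R1_sg]

theorem R1_pos {w : S3} {l ψ a b : ℝ} (hl : 0 < l)
    (h0 : w.1 0 = l * Real.cos (Real.pi * ψ / 11)) (h1 : w.1 1 = l * Real.sin (Real.pi * ψ / 11))
    (h2 : w.1 2 = l * a) (h3 : w.1 3 = l * b) : w = embS (ψ, a, b) := by
  have h := E4_norm_sq w.1
  rw [show ‖w.1‖ = 1 by simp, h0, h1, h2, h3] at h
  have hn : √(1 + a ^ 2 + b ^ 2) = l⁻¹ := by
    rw [Real.sqrt_eq_iff_mul_self_eq (by positivity) (by positivity)]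
    field_simp
    linear_combination -h - l ^ 2 * Real.cos_sq_add_sin_sq (Real.pi * ψ / 11)
  refine Subtype.ext (E4_ext ?_ ?_ ?_ ?_)
  · exact h0.trans (by rw [← inv_inv l, ← hn]; exact (emb_0 ψ a b).symm)
  · exact h1.trans (by rw [← inv_inv l, ← hn]; exact (emb_1 ψ a b).symm)
  · exact h2.trans (by rw [← inv_inv l, ← hn]; exact (emb_2 ψ a b).symm)
  · exact h3.trans (by rw [← inv_inv l, ← hn]; exact (emb_3 ψ a b).symm)

theorem R1_move {w : S3} {r s ψ a b : ℝ} (ε : Bool) (hr : 0 < r) (hs : s < 1)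
    (h : w.1 = r • ((1 - s) • emb ψ a b + s • (pole ε).1)) :
    w = embS (ψ, a, b + R1_sg ε * (s * √(1 + a ^ 2 + b ^ 2) / (1 - s))) := by
  obtain ⟨p0, p1, p2, p3⟩ := R1_pole ε
  have hn := nrm_pos a b
  have ht : 0 < 1 - s := by linarith
  refine R1_pos (l := r * (1 - s) * (√(1 + a ^ 2 + b ^ 2))⁻¹) (by positivity) ?_ ?_ ?_ ?_ <;>
    simp only [h, PiLp.smul_apply, PiLp.add_apply, smul_eq_mul, emb_0, emb_1, emb_2, emb_3, p0, p1,
      p2, p3] <;> field_simp <;> ring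

theorem R1_open {U : Set S3} (ε : Bool)
    (hE : ∀ ψ a b, embS (ψ, a, b) ∈ U ↔ ∀ b', Str ψ a b' → R1_sg ε * (b - b') < 0)
    (hR : ∀ v : S3, rad v.1 = 0 → (v ∈ U ↔ v ≠ pole ε)) : IsOpen U := by
  obtain ⟨p0, p1, p2, p3⟩ := R1_pole ε
  let x : E 4 × ℝ → E 4 := fun p => (1 - p.2) • p.1 + p.2 • (pole ε).1
  have hx : Continuous x := by fun_prop
  have hc : IsCompact ((univ ×ˢ Kset ×ˢ Icc (0 : ℝ) 1) ∩
      {p : S3 × E 4 × ℝ | ‖x p.2‖ • p.1.1 = x p.2}) :=
    (isCompact_univ.prod (isCompact_Kset.prod isCompact_Icc)).inter_right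
      (isClosed_eq (by fun_prop) (by fun_prop))
  rw [← isClosed_compl_iff]
  convert (hc.image continuous_fst).isClosed using 1
  ext v
  constructor
  · intro hv
    by_cases h : rad v.1 = 0
    · have h1 : v = pole ε := by simpa [hR v h] using hv
      exact ⟨(v, kap 0, 1), ⟨⟨trivial, range_kap ▸ mem_range_self _, by simp⟩, by simp [x, h1]⟩,
        rfl⟩
    · obtain ⟨⟨ψ, a, b⟩, rfl⟩ := exists_embS v h
      rw [mem_compl_iff, hE] at hv
      push Not at hv
      obtain ⟨c, hc1, hc2⟩ := hv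
      have hn := nrm_pos a c
      have hm := nrm_pos a b
      obtain ⟨d, hd⟩ : ∃ d, d = R1_sg ε * (b - c) := ⟨_, rfl⟩
      have hb : d * R1_sg ε = b - c := by linear_combination R1_sg ε * hd + (b - c) * R1_sg_sq ε
      rw [← hd] at hc2
      have e : x (emb ψ a c, d / (√(1 + a ^ 2 + c ^ 2) + d)) =
          (√(1 + a ^ 2 + b ^ 2) / (√(1 + a ^ 2 + c ^ 2) + d)) • emb ψ a b := by
        refine E4_ext ?_ ?_ ?_ ?_ <;>
          simp only [x, PiLp.smul_apply, PiLp.add_apply, smul_eq_mul, emb_0, emb_1, emb_2, emb_3,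
            p0, p1, p2, p3] <;> field_simp
        · ring
        · ring
        · ring
        · linear_combination √(1 + a ^ 2 + c ^ 2) * hb
      refine ⟨(_, emb ψ a c, d / (√(1 + a ^ 2 + c ^ 2) + d)),
        ⟨⟨trivial, emb_mem_Kset.2 hc1, by positivity, ?_⟩, ?_⟩, rfl⟩
      · rw [div_le_one (by positivity)]; linarith
      · change ‖x _‖ • emb ψ a b = x _
        rw [e, norm_smul, norm_emb, mul_one, Real.norm_of_nonneg (by positivity)]
  · rintro ⟨⟨v, _, s⟩, ⟨⟨-, ⟨ψ, a, b, hb, rfl⟩, h0, h1⟩, h⟩, rfl⟩ hv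
    change ‖x (emb ψ a b, s)‖ • v.1 = x (emb ψ a b, s) at h
    change s ≤ 1 at h1
    change 0 ≤ s at h0
    rcases h1.eq_or_lt with rfl | h1
    · have h2 : v = pole ε := Subtype.ext (by simpa [x] using h)
      exact (hR v (h2 ▸ rad_pole ε)).1 hv h2
    · have hne : x (emb ψ a b, s) ≠ 0 := by
        intro h2
        have e0 := congrArg (fun z : E 4 => z 0) h2
        have e1 := congrArg (fun z : E 4 => z 1) h2
        simp only [x, PiLp.smul_apply, PiLp.add_apply, smul_eq_mul, p0, p1, mul_zero, add_zero,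
          PiLp.zero_apply, mul_eq_zero, (sub_pos.2 h1).ne', false_or] at e0 e1
        exact (rad_emb_pos ψ a b).ne' (rad_eq_zero.2 ⟨e0, e1⟩)
      have hp := norm_pos_iff.2 hne
      have h2 := R1_move (w := v) ε (inv_pos.2 hp) h1 ((eq_inv_smul_iff₀ hp.ne').2 h)
      have h3 := (hE _ _ _).1 (h2 ▸ hv) b hb
      rw [add_sub_cancel_left, ← mul_assoc, R1_sg_sq, one_mul] at h3
      exact absurd h3 (not_lt.2 (div_nonneg (by positivity) (by linarith)))

theorem R1_contr {U : Set S3} (ε : Bool)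
    (hE : ∀ ψ a b, embS (ψ, a, b) ∈ U ↔ ∀ b', Str ψ a b' → R1_sg ε * (b - b') < 0)
    (hR : ∀ v : S3, rad v.1 = 0 → (v ∈ U ↔ v ≠ pole ε)) : ContractibleSpace U := by
  obtain ⟨p0, p1, p2, p3⟩ := R1_pole ε
  obtain ⟨q0, q1, q2, q3⟩ := R1_pole (!ε)
  rw [R1_sg_not] at q3
  have hs := R1_sg_sq ε
  refine contractible_star (q := pole (!ε)) ((hR _ (rad_pole _)).2 fun h => ?_)
    (fun v hv h => ?_) fun v hv s h0 h1 w r hr h => ?_
  · rw [h, p3] at q3
    nlinarith
  · have h2 : v = pole ε := Subtype.ext (h.trans (E4_ext (by simp [p0, q0]) (by simp [p1, q1])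
      (by simp [p2, q2]) (by simp [p3, q3])))
    exact (hR v (h2 ▸ rad_pole ε)).1 hv h2
  · by_cases hv0 : rad v.1 = 0
    · obtain ⟨v0, v1⟩ := rad_eq_zero.1 hv0
      refine (hR w (rad_eq_zero.2 ⟨by simp [h, v0, q0], by simp [h, v1, q1]⟩)).2 fun hw => ?_
      have e2 := congrArg (fun z : E 4 => z 2) h
      have e3 := congrArg (fun z : E 4 => z 3) h
      simp only [hw, PiLp.smul_apply, PiLp.add_apply, smul_eq_mul, p2, p3, q2, q3, mul_zero,
        add_zero] at e2 e3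
      have v2 : v.1 2 = 0 := by
        simpa [hr.ne', (sub_pos.2 h1).ne'] using e2
      have hn := E4_norm_sq v.1
      rw [show ‖v.1‖ = 1 by simp, v0, v1, v2] at hn
      have h3 : (v.1 3 - R1_sg ε) * (v.1 3 + R1_sg ε) = 0 := by linear_combination -hn - hs
      rcases mul_eq_zero.1 h3 with h4 | h4
      · exact (hR v hv0).1 hv (Subtype.ext (E4_ext (v0.trans p0.symm) (v1.trans p1.symm)
          (v2.trans p2.symm) ((sub_eq_zero.1 h4).trans p3.symm)))
      · have h5 : r = -1 := by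
          linear_combination R1_sg ε * e3 + R1_sg ε * r * (1 - s) * h4 - (r + 1) * hs
        linarith
    · obtain ⟨⟨ψ, a, b⟩, rfl⟩ := exists_embS v hv0
      rw [R1_move (!ε) hr h1 h, hE]
      intro c hc
      have h2 := (hE _ _ _).1 hv c hc
      have h3 : 0 ≤ s * √(1 + a ^ 2 + b ^ 2) / (1 - s) := div_nonneg (by positivity) (by linarith)
      rw [R1_sg_not]
      nlinarith

theorem R1_Up (ψ a b : ℝ) :
    embS (ψ, a, b) ∈ Up ↔ ∀ b', Str ψ a b' → R1_sg false * (b - b') < 0 := by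
  simp [embS_mem_Up, R1_sg]

theorem R1_Um (ψ a b : ℝ) :
    embS (ψ, a, b) ∈ Um ↔ ∀ b', Str ψ a b' → R1_sg true * (b - b') < 0 := by
  simp [embS_mem_Um, R1_sg]

theorem R1_str {ψ a b : ℝ} (h : Str (ψ + 11) (-a) b) : Str ψ a b := by
  have := str_add11 h
  rw [neg_neg, show ψ + 11 + 11 = ψ + 22 * ((1 : ℤ) : ℝ) by push_cast; ring] at this
  exact (str_add22 1).1 this

theorem R1_rad (v : S3) : rad (iotS v).1 = rad v.1 := by simp [iotS, rad, iot]

theorem R1_iot_pole (ε : Bool) : iotS (pole ε) = pole ε := by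
  obtain ⟨p0, p1, p2, -⟩ := R1_pole ε
  exact Subtype.ext (E4_ext (by simp [iotS, iot, p0]) (by simp [iotS, iot, p1])
    (by simp [iotS, iot, p2]) (by simp [iotS, iot]))

theorem iotS_continuous : Continuous iotS := by
  exact ((iotE.continuous.comp continuous_subtype_val).congr
    fun v => iotE_apply v.1).subtype_mk _

theorem iotS_iotS (v : S3) : iotS (iotS v) = v := by
  exact Subtype.ext (iot_iot v.1)

theorem isOpen_Up : IsOpen Up := by
  exact R1_open false R1_Up fun _ => mem_Up_of_rad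

theorem isOpen_Um : IsOpen Um := by
  exact R1_open true R1_Um fun _ => mem_Um_of_rad

theorem contractible_Up : ContractibleSpace Up := by
  exact R1_contr false R1_Up fun _ => mem_Up_of_rad

theorem contractible_Um : ContractibleSpace Um := by
  exact R1_contr true R1_Um fun _ => mem_Um_of_rad

theorem iotS_mem_Up {v : S3} (h : v ∈ Up) : iotS v ∈ Up := by
  by_cases h0 : rad v.1 = 0
  · refine (mem_Up_of_rad ((R1_rad v).trans h0)).2 fun h1 => (mem_Up_of_rad h0).1 h ?_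
    rw [← iotS_iotS v, h1, R1_iot_pole]
  · obtain ⟨⟨ψ, a, b⟩, rfl⟩ := exists_embS v h0
    rw [iotS_embS, embS_mem_Up]
    exact fun c hc => embS_mem_Up.1 h c (R1_str hc)

theorem iotS_mem_Um {v : S3} (h : v ∈ Um) : iotS v ∈ Um := by
  by_cases h0 : rad v.1 = 0
  · refine (mem_Um_of_rad ((R1_rad v).trans h0)).2 fun h1 => (mem_Um_of_rad h0).1 h ?_
    rw [← iotS_iotS v, h1, R1_iot_pole]
  · obtain ⟨⟨ψ, a, b⟩, rfl⟩ := exists_embS v h0
    rw [iotS_embS, embS_mem_Um]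
    exact fun c hc => embS_mem_Um.1 h c (R1_str hc)

theorem compl_KS : KSᶜ = Up ∪ Um ∪ ⋃ k, Box k := by
  ext v
  simp only [mem_compl_iff, mem_union, mem_iUnion]
  by_cases h0 : rad v.1 = 0
  · refine iff_of_true ?_ (Or.inl ?_)
    · rintro ⟨ψ, a, b, -, h⟩
      exact (rad_emb_pos ψ a b).ne' (h ▸ h0)
    · rw [mem_Up_of_rad h0, mem_Um_of_rad h0]
      by_contra h
      push Not at h
      have h1 := (R1_pole false).2.2.2
      rw [← h.1, h.2, (R1_pole true).2.2.2] at h1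
      norm_num [R1_sg] at h1
  obtain ⟨⟨ψ, a, b⟩, rfl⟩ := exists_embS v h0
  rw [embS_mem_KS, embS_mem_Up, embS_mem_Um]
  constructor
  · intro h
    by_contra h1
    push Not at h1
    obtain ⟨⟨⟨b2, s2, l2⟩, b1, s1, l1⟩, h3⟩ := h1
    have m2 : b < b2 := lt_of_le_of_ne l2 fun e => h (e ▸ s2)
    have m1 : b1 < b := lt_of_le_of_ne l1 fun e => h (e ▸ s1)
    have t0 := stp_nonneg (Int.fract ψ)
    have t1 := stp_le_one (Int.fract ψ)
    have t2 := mul_nonneg t0 (sub_nonneg.2 t1)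
    have key : stp (Int.fract ψ) = 1 / 2 ∧ a = sd ⌊ψ⌋ * (1 / 2) ∧ b1 = -(1 / 4) ∧ b2 = 1 / 4 := by
      rcases Knot_sd_cases ⌊ψ⌋ with e | e <;> simp only [Str, e] at s1 s2 ⊢ <;>
        rcases s1 with ⟨x1, y1⟩ | ⟨x1, y1⟩ | ⟨x1, y1⟩ <;>
        rcases s2 with ⟨x2, y2⟩ | ⟨x2, y2⟩ | ⟨x2, y2⟩ <;>
        first
        | (exfalso; linarith)
        | (have z : stp (Int.fract ψ) = 1 / 2 := by linarith
           rw [z] at x1 y1 y2
           exact ⟨z, by linarith, by linarith, by linarith⟩)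
    obtain ⟨k1, k2, k3, k4⟩ := key
    have hf := stp_eq_half k1
    obtain ⟨k, j, hk⟩ : ∃ (k : Fin 22) (j : ℤ), ⌊ψ⌋ = ((k : ℕ) : ℤ) + 22 * j :=
      ⟨⟨(⌊ψ⌋ % 22).toNat, by omega⟩, ⌊ψ⌋ / 22, by simp only; omega⟩
    have hψ : ψ = (((k : ℕ) : ℤ) : ℝ) + 1 / 2 + 22 * j := by
      have := Int.floor_add_fract ψ
      rw [hk, hf] at this
      push_cast at this ⊢
      linarith
    refine h3 k ⟨((((k : ℕ) : ℤ) : ℝ) + 1 / 2, a, b), ⟨by simp only; linarith,
      by simp only; linarith, ?_, ?_⟩, by rw [hψ, embS_add22]⟩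
    · rw [k2, hk, sd_add_mul]
      rcases Knot_sd_cases (k : ℕ) with e | e <;> simp only [e] <;> norm_num
    · simp only [add_sub_cancel_left, stp_half]
      rw [abs_lt]
      constructor <;> linarith
  · rintro ((h | h) | ⟨k, ⟨ψ', a', b'⟩, ⟨h1, h2, h3, h4⟩, he⟩) hs
    · exact lt_irrefl _ (h b hs)
    · exact lt_irrefl _ (h b hs)
    · rw [← embS_mem_KS, ← he, embS_mem_KS] at hs
      dsimp only at h1 h2 h3 h4
      have hf : ⌊ψ'⌋ = (k : ℕ) := Int.floor_eq_iff.2 ⟨by linarith, by linarith⟩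
      rw [Str, Int.fract, hf] at hs
      rcases hs with ⟨-, e⟩ | ⟨-, e⟩ | ⟨e, -⟩
      · exact absurd (le_abs_self b') (by linarith)
      · exact absurd (neg_le_abs b') (by linarith)
      · rw [e] at h3
        rcases Knot_sd_cases (k : ℕ) with e | e <;> rw [e] at h3 <;> linarith

end Pool.Agent.MP_bc14e1_gt
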