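import Pool.Agent.MP_bc14e1_gt.K.RDef

/-! The regions of the diagram. -/

open Set Metric

namespace Pool.Agent.MP_bc14e1_gt

theorem R2_cont_gen (Φ : ℤ → ℝ → ℝ) (c : ℤ → ℝ) (hΦ : ∀ k, Continuous (Φ k))
    (h0 : ∀ k τ, τ ≤ 1 / 3 → Φ k τ = c k) (h1 : ∀ k τ, 2 / 3 ≤ τ → Φ k τ = c (k + 1)) :
    Continuous fun y : ℝ => Φ ⌊y⌋ (Int.fract y) := by
  rw [continuous_iff_continuousAt]
  intro x
  rcases (Int.floor_le x).eq_or_lt with h | h
  · refine (continuousAt_const (y := c ⌊x⌋)).congr ?_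
    filter_upwards [Ioo_mem_nhds (show x - 1 / 3 < x by linarith) (show x < x + 1 / 3 by linarith)]
      with y hy
    exact (Knot_near_gen Φ c h0 h1 ⌊x⌋ y (by rw [h]; exact hy.1.le)
      (by rw [h]; exact hy.2.le)).symm
  · have h2 : ContinuousAt (fun y : ℝ => Φ ⌊x⌋ (y - ⌊x⌋)) x :=
      ((hΦ ⌊x⌋).comp (continuous_id.sub continuous_const)).continuousAt
    refine h2.congr ?_
    filter_upwards [Ioo_mem_nhds h (Int.lt_floor_add_one x)] with y hy
    have h3 : ⌊y⌋ = ⌊x⌋ := Int.floor_eq_iff.2 ⟨hy.1.le, hy.2⟩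
    rw [Int.fract, h3]

theorem mu_continuous : Continuous mu :=
  R2_cont_gen (fun k τ => sd k * min (stp τ) (1 - stp τ)) (fun _ => 0)
    (fun _ => continuous_const.mul (stp_continuous.min (continuous_const.sub stp_continuous)))
    (fun k τ h => by rw [stp_zero h]; simp) (fun k τ h => by rw [stp_one h]; simp)

theorem R2_hi_continuous (s : ℝ) : Continuous (hi s) :=
  continuous_const.sub ((continuous_const.mul mu_continuous).max continuous_const)

/-- The parameter domain of a gap. -/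
def R2_gapP (k : ℤ) : Set (ℝ × ℝ × ℝ) :=
  {p | k + 1 / 2 < p.1 ∧ p.1 < k + nx k + 1 / 2 ∧ sd k * mu p.1 < sd k * p.2.1 ∧
    sd k * p.2.1 < hi (sd k) p.1}

theorem R2_gapP_open (k : ℤ) : IsOpen (R2_gapP k) := by
  have h1 : Continuous fun p : ℝ × ℝ × ℝ => mu p.1 := mu_continuous.comp continuous_fst
  have h2 : Continuous fun p : ℝ × ℝ × ℝ => hi (sd k) p.1 :=
    (R2_hi_continuous _).comp continuous_fst
  have h3 : Continuous fun p : ℝ × ℝ × ℝ => (sd k : ℝ) * p.2.1 := by fun_prop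
  exact (isOpen_lt continuous_const continuous_fst).inter
    ((isOpen_lt continuous_fst continuous_const).inter
      ((isOpen_lt (continuous_const.mul h1) h3).inter (isOpen_lt h3 h2)))

theorem R2_Gap_open (k : ℤ) : IsOpen (Gap k) := embS_isOpenMap _ (R2_gapP_open k)

theorem R2_Out_open (s : ℝ) : IsOpen (Out s) := by
  refine IsOpen.union (embS_isOpenMap _ (isOpen_lt ((R2_hi_continuous s).comp continuous_fst)
    (by fun_prop))) (isOpen_lt (rad_continuous.comp continuous_subtype_val) (by fun_prop))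

theorem isOpen_Reg (r : Fin 24) : IsOpen (Reg r) := by
  unfold Reg
  split_ifs
  exacts [R2_Gap_open _, R2_Out_open _, R2_Out_open _]

theorem R2_nx_bound (k : ℤ) : 1 ≤ nx k ∧ nx k ≤ 4 := by
  unfold nx
  generalize (k : ZMod 22) = r
  revert r
  decide +kernel

theorem R2_table : ∀ r : Fin 22, ∀ d : Fin 4, 0 < ((d : ℕ) : ℤ) → ((d : ℕ) : ℤ) < nx (r : ℕ) →
    sd ((r : ℕ) + (d : ℕ)) = -sd (r : ℕ) := by
  decide +kernel

theorem R2_table' {k : ℕ} (hk : k < 22) {m : ℤ} (h1 : (k : ℤ) < m) (h2 : m < k + nx k) :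
    sd m = -sd k := by
  have h3 := (R2_nx_bound k).2
  have h4 : (m - k).toNat < 4 := by omega
  have h5 := R2_table ⟨k, hk⟩ ⟨(m - k).toNat, h4⟩ (by dsimp only; omega) (by dsimp only; omega)
  dsimp only at h5
  rwa [show (k : ℤ) + ((m - k).toNat : ℕ) = m by omega] at h5

theorem R2_mu_lt {k : ℕ} (hk : k < 22) {ψ : ℝ} (h1 : ((k : ℤ) : ℝ) + 1 / 2 < ψ)
    (h2 : ψ < ((k : ℤ) : ℝ) + nx k + 1 / 2) : sd k * mu ψ < hi (sd k) ψ := by
  have h3 : (sd k : ℝ) * mu ψ < 1 / 2 := by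
    have ha := stp_nonneg (Int.fract ψ)
    have hb := stp_le_one (Int.fract ψ)
    have hc : 0 ≤ min (stp (Int.fract ψ)) (1 - stp (Int.fract ψ)) := le_min ha (by linarith)
    have hd := min_le_left (stp (Int.fract ψ)) (1 - stp (Int.fract ψ))
    have he := min_le_right (stp (Int.fract ψ)) (1 - stp (Int.fract ψ))
    by_contra hlt
    rw [not_lt, mu] at hlt
    have hs : sd ⌊ψ⌋ = sd k := by
      rcases sd_cases k with h | h <;> rcases sd_cases ⌊ψ⌋ with h' | h' <;> rw [h, h'] at hlt <;>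
        push_cast at hlt <;> first | omega | linarith
    have hsq : (sd k : ℝ) * sd k = 1 := by
      rcases Knot_sd_cases k with h | h <;> rw [h] <;> norm_num
    rw [hs, ← mul_assoc, hsq, one_mul] at hlt
    have hf : Int.fract ψ = 1 / 2 := stp_eq_half (by linarith)
    have hψ : ψ = ⌊ψ⌋ + 1 / 2 := by rw [← hf, Int.floor_add_fract]
    have h4 : (k : ℤ) < ⌊ψ⌋ := by
      have : ((k : ℤ) : ℝ) < ⌊ψ⌋ := by linarith
      exact_mod_cast this
    have h5 : ⌊ψ⌋ < k + nx k := by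
      have : (⌊ψ⌋ : ℝ) < ((k : ℤ) : ℝ) + nx k := by linarith
      exact_mod_cast this
    have h6 := R2_table' hk h4 h5
    have h7 := sd_cases k
    omega
  unfold hi
  rcases le_total ((sd k : ℝ) * mu ψ) 0 with h | h
  · rw [max_eq_right h]
    linarith
  · rw [max_eq_left h]
    linarith

theorem R2_Gap_contractible {k : ℕ} (hk : k < 22) : ContractibleSpace (Gap k) := by
  have hb := R2_nx_bound k
  have hb1 : (1 : ℝ) ≤ nx k := by exact_mod_cast hb.1
  have hb2 : (nx k : ℝ) ≤ 4 := by exact_mod_cast hb.2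
  have hsq : (sd k : ℝ) * sd k = 1 := by
    rcases Knot_sd_cases k with h | h <;> rw [h] <;> norm_num
  have : ContractibleSpace (R2_gapP k) := by
    refine contractible_fibre (I := Ioo (((k : ℤ) : ℝ) + 1 / 2) (((k : ℤ) : ℝ) + nx k + 1 / 2))
      (convex_Ioo _ _) (nonempty_Ioo.2 (by linarith)) (fun p hp => ⟨hp.1, hp.2.1⟩)
      (c := fun ψ => (sd k * ((sd k * mu ψ + hi (sd k) ψ) / 2), 0)) ?_ ?_ ?_
    · refine Continuous.continuousOn (Continuous.prodMk ?_ continuous_const)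
      exact continuous_const.mul
        (((continuous_const.mul mu_continuous).add (R2_hi_continuous _)).div_const _)
    · intro ψ hψ
      have h := R2_mu_lt hk hψ.1 hψ.2
      refine ⟨hψ.1, hψ.2, ?_, ?_⟩ <;> dsimp only <;> rw [← mul_assoc (sd k : ℝ), hsq] <;> linarith
    · rintro ⟨ψ, a, b⟩ ⟨h1, h2, h3, h4⟩ s hs0 hs1
      dsimp only at h1 h2 h3 h4
      have h5 : (sd k : ℝ) * ((1 - s) * a + s * (sd k * ((sd k * mu ψ + hi (sd k) ψ) / 2))) =
          (1 - s) * (sd k * a) + s * ((sd k * mu ψ + hi (sd k) ψ) / 2) := by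
        linear_combination (s * ((sd k * mu ψ + hi (sd k) ψ) / 2)) * hsq
      refine ⟨h1, h2, ?_, ?_⟩
      · change _ < (sd k : ℝ) * ((1 - s) * a + s * (sd k * ((sd k * mu ψ + hi (sd k) ψ) / 2)))
        rw [h5]
        change (sd k : ℝ) * mu ψ < _
        generalize (sd k : ℝ) * mu ψ = m at *
        generalize (sd k : ℝ) * a = x at *
        generalize hi (sd k) ψ = y at *
        rcases hs0.eq_or_lt with h | h
        · rw [← h]
          linarith
        · nlinarith [mul_nonneg (sub_nonneg.2 hs1) (sub_pos.2 h3).le,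
            mul_pos h (sub_pos.2 (h3.trans h4))]
      · change (sd k : ℝ) * ((1 - s) * a + s * (sd k * ((sd k * mu ψ + hi (sd k) ψ) / 2))) < _
        rw [h5]
        change _ < hi (sd k) ψ
        generalize (sd k : ℝ) * mu ψ = m at *
        generalize (sd k : ℝ) * a = x at *
        generalize hi (sd k) ψ = y at *
        rcases hs0.eq_or_lt with h | h
        · rw [← h]
          linarith
        · nlinarith [mul_nonneg (sub_nonneg.2 hs1) (sub_pos.2 h4).le,
            mul_pos h (sub_pos.2 (h3.trans h4))]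
  exact contractible_embS (S := R2_gapP k) (R2_gapP_open k) (α := ((k : ℤ) : ℝ))
    fun p hp => ⟨by linarith [hp.1], by linarith [hp.2.1]⟩

theorem R2_eq_emb {w : E 4} (hw : ‖w‖ = 1) {ρ ψ a b : ℝ} (hρ : 0 < ρ)
    (h0 : w 0 = ρ * Real.cos (Real.pi * ψ / 11)) (h1 : w 1 = ρ * Real.sin (Real.pi * ψ / 11))
    (h2 : w 2 = ρ * a) (h3 : w 3 = ρ * b) : w = emb ψ a b := by
  have h := E4_norm_sq w
  rw [hw, h0, h1, h2, h3] at h
  have h4 : ρ ^ 2 * (1 + a ^ 2 + b ^ 2) = 1 := by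
    linear_combination -h - ρ ^ 2 * Real.cos_sq_add_sin_sq (Real.pi * ψ / 11)
  have h5 : √(1 + a ^ 2 + b ^ 2) = ρ⁻¹ := by
    rw [Real.sqrt_eq_iff_mul_self_eq (by positivity) (by positivity)]
    field_simp
    linarith
  refine E4_ext ?_ ?_ ?_ ?_
  · rw [emb_0, h5, inv_inv, h0]
  · rw [emb_1, h5, inv_inv, h1]
  · rw [emb_2, h5, inv_inv, h2]
  · rw [emb_3, h5, inv_inv, h3]

theorem R2_Out_contractible {s : ℝ} (hs : s * s = 1) : ContractibleSpace (Out s) := by
  have hn : ‖(EuclideanSpace.single 2 s : E 4)‖ = 1 := by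
    rw [PiLp.norm_single, Real.norm_eq_abs]
    have h := abs_nonneg s
    have h2 := abs_mul_abs_self s
    nlinarith
  obtain ⟨q, hq0, hq1, hq2, hq3⟩ : ∃ q : S3, q.1 0 = 0 ∧ q.1 1 = 0 ∧ q.1 2 = s ∧ q.1 3 = 0 :=
    ⟨⟨EuclideanSpace.single 2 s, mem_sphere_zero_iff_norm.2 hn⟩, by simp, by simp, by simp,
      by simp⟩
  refine contractible_star (q := q) (Or.inr ?_) ?_ ?_
  · change rad q.1 < s * q.1 2
    rw [rad_eq_zero.2 ⟨hq0, hq1⟩, hq2, hs]
    exact one_pos
  · intro v hv h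
    have h0 : rad v.1 = 0 := rad_eq_zero.2 ⟨by rw [h]; simp [hq0], by rw [h]; simp [hq1]⟩
    rcases hv with ⟨p, -, rfl⟩ | hv
    · exact (rad_emb_pos p.1 p.2.1 p.2.2).ne' h0
    · change rad v.1 < s * v.1 2 at hv
      have h2 : v.1 2 = -s := by rw [h]; simp [hq2]
      rw [h0, h2] at hv
      linarith
  · intro v hv t ht0 ht1 w r hr hw
    have ht : 0 < 1 - t := sub_pos.2 ht1
    have hc : ∀ i, w.1 i = r * ((1 - t) * v.1 i + t * q.1 i) := fun i => by
      rw [hw]
      simp [mul_add]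
    rcases hv with ⟨⟨ψ, a, b⟩, hp, rfl⟩ | hv
    · have hN := nrm_pos a b
      change hi s ψ < s * a at hp
      refine Or.inl ⟨(ψ, a + t * s * √(1 + a ^ 2 + b ^ 2) / (1 - t), b), ?_, Subtype.ext ?_⟩
      · change hi s ψ < s * (a + t * s * √(1 + a ^ 2 + b ^ 2) / (1 - t))
        have h1 : s * (a + t * s * √(1 + a ^ 2 + b ^ 2) / (1 - t)) =
            s * a + t * √(1 + a ^ 2 + b ^ 2) / (1 - t) := by
          linear_combination (t * √(1 + a ^ 2 + b ^ 2) / (1 - t)) * hs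
        have h2 : 0 < t * √(1 + a ^ 2 + b ^ 2) / (1 - t) := by positivity
        linarith
      · refine (R2_eq_emb (ρ := r * (1 - t) * (√(1 + a ^ 2 + b ^ 2))⁻¹) (by simp)
          (by positivity) ?_ ?_ ?_ ?_).symm
        · rw [hc, hq0, show (embS (ψ, a, b)).1 = emb ψ a b from rfl, emb_0]
          ring
        · rw [hc, hq1, show (embS (ψ, a, b)).1 = emb ψ a b from rfl, emb_1]
          ring
        · rw [hc, hq2, show (embS (ψ, a, b)).1 = emb ψ a b from rfl, emb_2]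
          field_simp
        · rw [hc, hq3, show (embS (ψ, a, b)).1 = emb ψ a b from rfl, emb_3]
          ring
    · change rad v.1 < s * v.1 2 at hv
      refine Or.inr ?_
      change rad w.1 < s * w.1 2
      have h1 : rad w.1 = r * (1 - t) * rad v.1 := by
        unfold rad
        rw [hc 0, hc 1, hq0, hq1, show (r * ((1 - t) * v.1 0 + t * 0)) ^ 2 +
          (r * ((1 - t) * v.1 1 + t * 0)) ^ 2 = (r * (1 - t)) ^ 2 * (v.1 0 ^ 2 + v.1 1 ^ 2) by ring,
          Real.sqrt_mul (by positivity), Real.sqrt_sq (by positivity)]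
      have h2 : s * w.1 2 = r * (1 - t) * (s * v.1 2) + r * t := by
        rw [hc 2, hq2]
        linear_combination (r * t) * hs
      rw [h1, h2]
      have h3 := mul_lt_mul_of_pos_left hv (mul_pos hr ht)
      have h4 := mul_pos hr ht0
      linarith

theorem contractible_Reg (r : Fin 24) : ContractibleSpace (Reg r) := by
  by_cases h1 : (r : ℕ) < 22
  · rw [Reg, if_pos h1]
    exact R2_Gap_contractible h1
  by_cases h2 : (r : ℕ) = 22
  · rw [Reg, if_neg h1, if_pos h2]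
    exact R2_Out_contractible (by norm_num)
  · rw [Reg, if_neg h1, if_neg h2]
    exact R2_Out_contractible (by norm_num)

theorem R2_sd_shift (k j : ℤ) : sd (k + 11 + 22 * j) = -sd k := by rw [sd_add_mul, sd_add11]

theorem R2_nx_shift (k j : ℤ) : nx (k + 11 + 22 * j) = nx k := by
  unfold nx
  push_cast
  rw [show (22 : ZMod 22) = 0 from rfl, zero_mul, add_zero]
  generalize (k : ZMod 22) = r
  revert r
  decide +kernel

theorem R2_mu_shift (ψ : ℝ) (j : ℤ) : mu (ψ + 11 + 22 * j) = -mu ψ := by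
  unfold mu
  rw [floor_add22, fract_add22, sd_add_mul, show (11 : ℝ) = ((11 : ℤ) : ℝ) by norm_num,
    Int.floor_add_intCast, Int.fract_add_intCast, sd_add11]
  push_cast
  ring

theorem R2_hi_shift (s ψ : ℝ) (j : ℤ) : hi (-s) (ψ + 11 + 22 * j) = hi s ψ := by
  unfold hi
  rw [R2_mu_shift, neg_mul_neg]

theorem R2_iotS_Gap {k : ℤ} (j : ℤ) {v : S3} (h : v ∈ Gap k) :
    iotS v ∈ Gap (k + 11 + 22 * j) := by
  obtain ⟨⟨ψ, a, b⟩, ⟨h1, h2, h3, h4⟩, rfl⟩ := h
  dsimp only at h1 h2 h3 h4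
  refine ⟨(ψ + 11 + 22 * j, -a, b), ⟨?_, ?_, ?_, ?_⟩, by rw [iotS_embS, embS_add22]⟩ <;> dsimp only
  · push_cast
    linarith
  · rw [R2_nx_shift]
    push_cast
    linarith
  · rw [R2_sd_shift, R2_mu_shift]
    push_cast
    linarith
  · rw [R2_sd_shift]
    push_cast
    rw [R2_hi_shift]
    linarith

theorem R2_iotS_Out {s : ℝ} {v : S3} (h : v ∈ Out s) : iotS v ∈ Out (-s) := by
  rcases h with ⟨⟨ψ, a, b⟩, hp, rfl⟩ | h
  · change hi s ψ < s * a at hp
    refine Or.inl ⟨(ψ + 11 + 22 * ((0 : ℤ) : ℝ), -a, b), ?_, by rw [iotS_embS, embS_add22]⟩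
    change hi (-s) (ψ + 11 + 22 * ((0 : ℤ) : ℝ)) < -s * -a
    rw [R2_hi_shift]
    linarith
  · change rad v.1 < s * v.1 2 at h
    refine Or.inr ?_
    change rad (iot v.1) < -s * iot v.1 2
    have h1 : rad (iot v.1) = rad v.1 := by simp [rad, iot]
    have h2 : iot v.1 2 = -v.1 2 := by simp [iot]
    rw [h1, h2]
    linarith

theorem R2_iotR : ∀ r : Fin 24, (r : ℕ) < 22 → (iotR r : ℕ) < 22 ∧
    (((iotR r : ℕ) : ℤ) = (r : ℕ) + 11 + 22 * 0 ∨ ((iotR r : ℕ) : ℤ) = (r : ℕ) + 11 + 22 * (-1)) := by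
  decide +kernel

theorem iotS_mem_Reg {r : Fin 24} {v : S3} (h : v ∈ Reg r) : iotS v ∈ Reg (iotR r) := by
  by_cases h1 : (r : ℕ) < 22
  · obtain ⟨h2, h3⟩ := R2_iotR r h1
    rw [Reg, if_pos h1] at h
    rw [Reg, if_pos h2]
    rcases h3 with h3 | h3 <;> rw [h3] <;> exact R2_iotS_Gap _ h
  · obtain rfl | rfl : r = 22 ∨ r = 23 := by
      revert h1
      generalize r = x
      revert x
      decide
    · have h2 : v ∈ Out (-1) := h
      have h3 := R2_iotS_Out h2
      rw [neg_neg] at h3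
      exact h3
    · have h2 : v ∈ Out 1 := h
      exact R2_iotS_Out h2

end Pool.Agent.MP_bc14e1_gt
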