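import Pool.Agent.MP_bc14e1_gt.K.RDef

/-! The boxes at the crossings. -/

open Set Metric

namespace Pool.Agent.MP_bc14e1_gt

/-- One side of a threshold. -/
def R3_c (i : Bool) (t x : ℝ) : Prop := if i then t < x else x < t

theorem R3_c_conv {i : Bool} {t x y s : ℝ} (hx : R3_c i t x) (hy : R3_c i t y) (h0 : 0 ≤ s)
    (h1 : s ≤ 1) : R3_c i t ((1 - s) * x + s * y) := by
  cases i
  · simp only [R3_c, Bool.false_eq_true, if_false] at *
    rcases le_total x y with h | h <;> nlinarith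
  · simp only [R3_c, if_true] at *
    rcases le_total x y with h | h <;> nlinarith

theorem R3_c_open (i : Bool) {f g : ℝ × ℝ × ℝ → ℝ} (hf : Continuous f) (hg : Continuous g) :
    IsOpen {p | R3_c i (f p) (g p)} := by
  cases i
  · simp only [R3_c, Bool.false_eq_true, if_false]
    exact isOpen_lt hg hf
  · simp only [R3_c, if_true]
    exact isOpen_lt hf hg

theorem R3_c_ne {i : Bool} {t x : ℝ} (h : R3_c i t x) : x ≠ t := by
  cases i
  · exact ne_of_lt h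
  · exact ne_of_gt h

theorem R3_sd_sq (k : ℤ) : (sd k : ℝ) * sd k = 1 := by
  rcases sd_cases k with h | h <;> simp [h]

theorem R3_stp_cont (c : ℝ) : Continuous fun p : ℝ × ℝ × ℝ => stp (p.1 - c) :=
  stp_continuous.comp (by fun_prop)

theorem R3_open (k : ℤ) : IsOpen (boxP k) := by
  have h := R3_stp_cont k
  unfold boxP
  refine IsOpen.and ?_ (IsOpen.and ?_ (IsOpen.and ?_ ?_)) <;>
    exact isOpen_lt (by fun_prop) (by fun_prop)

theorem R3_eq {k l : ℤ} {p q : ℝ × ℝ × ℝ} (hp : p ∈ boxP k) (hq : q ∈ boxP l)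
    (h : embS p = embS q) : p.2 = q.2 ∧ ∃ j : ℤ, q.1 = p.1 + 22 * j ∧ l = k + 22 * j := by
  obtain ⟨h2, j, hj⟩ := embS_eq_iff.1 h
  refine ⟨h2, j, hj, ?_⟩
  have h3 : ((l - 1 : ℤ) : ℝ) < (k + 22 * j : ℤ) := by
    push_cast
    linarith [hp.1, hp.2.1, hq.1, hq.2.1]
  have h4 : ((k + 22 * j : ℤ) : ℝ) < (l + 1 : ℤ) := by
    push_cast
    linarith [hp.1, hp.2.1, hq.1, hq.2.1]
  have h5 := Int.cast_lt.1 h3
  have h6 := Int.cast_lt.1 h4
  omega

theorem R3_injOn (k : ℤ) : InjOn embS (boxP k) := by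
  intro p hp q hq h
  obtain ⟨h2, j, hj, hk⟩ := R3_eq hp hq h
  obtain rfl : j = 0 := by omega
  exact Prod.ext (by simpa using hj.symm) h2

theorem R3_contr (k : ℤ) (C : ℝ → ℝ → Prop) (al be x0 : ℝ) (h1 : 1 / 3 ≤ al) (h2 : al < be)
    (h3 : be ≤ 2 / 3) (ho : IsOpen {p : ℝ × ℝ × ℝ | C (stp (p.1 - k)) (sd k * p.2.1)})
    (hI : ∀ τ x, 1 / 3 < τ → τ < 2 / 3 → C (stp τ) x → al < τ ∧ τ < be) (hx : -(1 / 2) < x0)
    (hm : ∀ τ, al < τ → τ < be → C (stp τ) x0)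
    (hc : ∀ t x y s, C t x → C t y → 0 ≤ s → s ≤ 1 → C t ((1 - s) * x + s * y)) :
    ContractibleSpace (embS '' (boxP k ∩ {p | C (stp (p.1 - k)) (sd k * p.2.1)})) := by
  have hI' : ∀ p ∈ boxP k ∩ {p | C (stp (p.1 - k)) (sd k * p.2.1)},
      p.1 ∈ Ioo (k + al) (k + be) := fun p hp => by
    have h := hI _ _ (by linarith [hp.1.1]) (by linarith [hp.1.2.1]) hp.2
    exact ⟨by linarith [h.1], by linarith [h.2]⟩
  have hx0 : (sd k : ℝ) * (sd k * x0) = x0 := by rw [← mul_assoc, R3_sd_sq, one_mul]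
  have : ContractibleSpace (boxP k ∩ {p | C (stp (p.1 - k)) (sd k * p.2.1)} : Set _) := by
    refine contractible_fibre (convex_Ioo _ _) (nonempty_Ioo.2 (by linarith)) hI'
      (c := fun _ => (sd k * x0, 0)) continuousOn_const (fun ψ hψ => ?_) fun p hp s h0 h1 => ?_
    · refine ⟨⟨by linarith [hψ.1], by linarith [hψ.2], ?_, ?_⟩, ?_⟩
      · change _ < (sd k : ℝ) * (sd k * x0)
        rwa [hx0]
      · change |(0 : ℝ)| < stp (ψ - k) * (1 - stp (ψ - k))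
        rw [abs_zero]
        exact mul_pos (stp_pos (by linarith [hψ.1])) (sub_pos.2 (stp_lt_one (by linarith [hψ.2])))
      · change C (stp (ψ - k)) ((sd k : ℝ) * (sd k * x0))
        rw [hx0]
        exact hm _ (by linarith [hψ.1]) (by linarith [hψ.2])
    · have e : (sd k : ℝ) * ((1 - s) * p.2.1 + s * (sd k * x0)) =
          (1 - s) * (sd k * p.2.1) + s * x0 := by
        linear_combination s * hx0
      refine ⟨⟨hp.1.1, hp.1.2.1, ?_, ?_⟩, ?_⟩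
      · change _ < (sd k : ℝ) * ((1 - s) * p.2.1 + s * (sd k * x0))
        rw [e]
        exact R3_c_conv (i := true) hp.1.2.2.1 hx h0 h1
      · change |(1 - s) * p.2.2 + s * 0| < stp (p.1 - k) * (1 - stp (p.1 - k))
        rw [mul_zero, add_zero, abs_mul, abs_of_nonneg (sub_nonneg.2 h1)]
        nlinarith [hp.1.2.2.2, abs_nonneg p.2.2]
      · change C (stp (p.1 - k)) ((sd k : ℝ) * ((1 - s) * p.2.1 + s * (sd k * x0)))
        rw [e]
        exact hc _ _ _ _ hp.2 (hm _ (by linarith [(hI' p hp).1]) (by linarith [(hI' p hp).2])) h0 h1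
  exact contractible_embS ((R3_open k).inter ho) (α := k) fun p hp =>
    ⟨by linarith [hp.1.1], by linarith [hp.1.2.1]⟩

theorem R3_Bp (k : Fin 22) (i : Bool) : Bp k i = embS '' (boxP (k : ℕ) ∩
    {p | R3_c i (stp (p.1 - ((k : ℕ) : ℤ))) (sd (k : ℕ) * p.2.1)}) := by
  rw [Int.cast_natCast]
  rfl

theorem R3_Bm (k : Fin 22) (i : Bool) : Bm k i = embS '' (boxP (k : ℕ) ∩
    {p | R3_c i (1 - stp (p.1 - ((k : ℕ) : ℤ))) (sd (k : ℕ) * p.2.1)}) := by
  rw [Int.cast_natCast]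
  rfl

theorem R3_inter (k : ℤ) (A B : Set (ℝ × ℝ × ℝ)) :
    embS '' (boxP k ∩ A) ∩ embS '' (boxP k ∩ B) = embS '' (boxP k ∩ (A ∩ B)) := by
  rw [← (R3_injOn k).image_inter inter_subset_left inter_subset_left, ← inter_inter_distrib_left]

theorem R3_x0 (i : Bool) {t : ℝ} (h0 : 0 < t) (h1 : t < 1) :
    R3_c i t (if i then 2 else -(1 / 4)) := by
  cases i
  · change -(1 / 4) < t
    linarith
  · change t < 2
    linarith

theorem R3_x0_lt (i : Bool) : -(1 / 2 : ℝ) < if i then 2 else -(1 / 4) := by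
  cases i <;> norm_num

theorem R3_str {k : ℤ} {ψ a b b' : ℝ} (h : (ψ, a, b) ∈ boxP k) : Str ψ a b' ↔
    (sd k * a = stp (ψ - k) ∧ b' = stp (ψ - k) * (1 - stp (ψ - k))) ∨
    (sd k * a = 1 - stp (ψ - k) ∧ b' = -(stp (ψ - k) * (1 - stp (ψ - k)))) := by
  have hf : ⌊ψ⌋ = k := Int.floor_eq_iff.2 ⟨by linarith [h.1], by linarith [h.2.1]⟩
  have key : ∀ t : ℝ, a = sd k * t ↔ sd k * a = t := fun t =>
    ⟨fun e => by rw [e, ← mul_assoc, R3_sd_sq, one_mul],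
      fun e => by rw [← e, ← mul_assoc, R3_sd_sq, one_mul]⟩
  rw [Str, Int.fract, hf, key, key, ← or_assoc, or_iff_left]
  rintro ⟨e, -⟩
  have h1 : -(1 / 2) < sd k * a := h.2.2.1
  rw [e, mul_neg, R3_sd_sq] at h1
  linarith

theorem R3_split (k : ℤ) (f : ℝ × ℝ × ℝ → ℝ) (U : Set S3)
    (h : ∀ p ∈ boxP k, embS p ∈ U ↔ sd k * p.2.1 ≠ f p) :
    embS '' boxP k ∩ U = embS '' (boxP k ∩ {p | R3_c false (f p) (sd k * p.2.1)}) ∪
      embS '' (boxP k ∩ {p | R3_c true (f p) (sd k * p.2.1)}) := by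
  ext v
  constructor
  · rintro ⟨⟨p, hp, rfl⟩, hU⟩
    rcases lt_or_gt_of_ne ((h p hp).1 hU) with e | e
    · exact Or.inl ⟨p, ⟨hp, e⟩, rfl⟩
    · exact Or.inr ⟨p, ⟨hp, e⟩, rfl⟩
  · rintro (⟨p, ⟨hp, e⟩, rfl⟩ | ⟨p, ⟨hp, e⟩, rfl⟩)
    · exact ⟨⟨p, hp, rfl⟩, (h p hp).2 (R3_c_ne (i := false) e)⟩
    · exact ⟨⟨p, hp, rfl⟩, (h p hp).2 (R3_c_ne (i := true) e)⟩

theorem R3_disj (k : ℤ) (f g : ℝ × ℝ × ℝ → ℝ) :
    Disjoint (embS '' (boxP k ∩ {p | R3_c false (f p) (g p)}))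
      (embS '' (boxP k ∩ {p | R3_c true (f p) (g p)})) := by
  rw [disjoint_iff_inter_eq_empty, R3_inter, image_eq_empty, eq_empty_iff_forall_notMem]
  rintro p ⟨-, h1, h2⟩
  exact lt_asymm (show g p < f p from h1) h2

theorem isOpen_Box (k : Fin 22) : IsOpen (Box k) := embS_isOpenMap _ (R3_open _)

theorem isOpen_Bp (k : Fin 22) (i : Bool) : IsOpen (Bp k i) := by
  rw [R3_Bp]
  exact embS_isOpenMap _ ((R3_open _).inter (R3_c_open i (R3_stp_cont _) (by fun_prop)))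

theorem isOpen_Bm (k : Fin 22) (j : Bool) : IsOpen (Bm k j) := by
  rw [R3_Bm]
  exact embS_isOpenMap _ ((R3_open _).inter
    (R3_c_open j (continuous_const.sub (R3_stp_cont _)) (by fun_prop)))

theorem contractible_Box (k : Fin 22) : ContractibleSpace (Box k) := by
  have h := R3_contr (k : ℕ) (fun _ _ => True) (1 / 3) (2 / 3) 0 le_rfl (by norm_num) le_rfl
    isOpen_univ (fun _ _ h1 h2 _ => ⟨h1, h2⟩) (by norm_num) (fun _ _ _ => trivial)
    fun _ _ _ _ _ _ _ _ => trivial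
  rwa [Set.ofPred_true, inter_univ] at h

theorem contractible_Bp (k : Fin 22) (i : Bool) : ContractibleSpace (Bp k i) := by
  rw [R3_Bp]
  exact R3_contr (k : ℕ) (fun t x => R3_c i t x) (1 / 3) (2 / 3) _ le_rfl (by norm_num) le_rfl
    (R3_c_open i (R3_stp_cont _) (by fun_prop)) (fun _ _ h1 h2 _ => ⟨h1, h2⟩) (R3_x0_lt i)
    (fun _ h1 h2 => R3_x0 i (stp_pos h1) (stp_lt_one h2)) fun _ _ _ _ => R3_c_conv

theorem contractible_Bm (k : Fin 22) (j : Bool) : ContractibleSpace (Bm k j) := by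
  rw [R3_Bm]
  exact R3_contr (k : ℕ) (fun t x => R3_c j (1 - t) x) (1 / 3) (2 / 3) _ le_rfl (by norm_num)
    le_rfl (R3_c_open j (continuous_const.sub (R3_stp_cont _)) (by fun_prop))
    (fun _ _ h1 h2 _ => ⟨h1, h2⟩) (R3_x0_lt j)
    (fun _ h1 h2 => R3_x0 j (sub_pos.2 (stp_lt_one h2)) (sub_lt_self _ (stp_pos h1)))
    fun _ _ _ _ => R3_c_conv

theorem contractible_quad (k : Fin 22) (i j : Bool) :
    ContractibleSpace (Bp k i ∩ Bm k j : Set S3) := by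
  rw [R3_Bp, R3_Bm, R3_inter]
  have key := fun al be x0 h1 h2 h3 hI hx hm =>
    R3_contr (k : ℕ) (fun t x => R3_c i t x ∧ R3_c j (1 - t) x) al be x0 h1 h2 h3
      ((R3_c_open i (R3_stp_cont _) (by fun_prop)).inter
        (R3_c_open j (continuous_const.sub (R3_stp_cont _)) (by fun_prop))) hI hx hm
      fun _ _ _ _ hx hy h0 h1 => ⟨R3_c_conv hx.1 hy.1 h0 h1, R3_c_conv hx.2 hy.2 h0 h1⟩
  by_cases hij : i = j
  · subst hij
    exact key (1 / 3) (2 / 3) _ le_rfl (by norm_num) le_rfl (fun _ _ h1 h2 _ => ⟨h1, h2⟩)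
      (R3_x0_lt i) fun _ h1 h2 => ⟨R3_x0 i (stp_pos h1) (stp_lt_one h2),
        R3_x0 i (sub_pos.2 (stp_lt_one h2)) (sub_lt_self _ (stp_pos h1))⟩
  cases i <;> cases j
  · exact absurd rfl hij
  · refine key (1 / 2) (2 / 3) (1 / 2) (by norm_num) (by norm_num) le_rfl
      (fun τ x _ h2 h => ⟨?_, h2⟩) (by norm_num) fun τ h1 _ => ⟨half_lt_stp h1, ?_⟩
    · have h3 : x < stp τ := h.1
      have h4 : 1 - stp τ < x := h.2
      rcases lt_trichotomy τ (1 / 2) with e | e | e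
      · linarith [stp_lt_half e]
      · rw [e, stp_half] at h3 h4
        linarith
      · exact e
    · change 1 - stp τ < 1 / 2
      linarith [half_lt_stp h1]
  · refine key (1 / 3) (1 / 2) (1 / 2) le_rfl (by norm_num) (by norm_num)
      (fun τ x h1 _ h => ⟨h1, ?_⟩) (by norm_num) fun τ _ h2 => ⟨stp_lt_half h2, ?_⟩
    · have h3 : stp τ < x := h.1
      have h4 : x < 1 - stp τ := h.2
      rcases lt_trichotomy τ (1 / 2) with e | e | e
      · exact e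
      · rw [e, stp_half] at h3 h4
        linarith
      · linarith [half_lt_stp e]
    · change 1 / 2 < 1 - stp τ
      linarith [stp_lt_half h2]
  · exact absurd rfl hij

theorem disjoint_Box {k l : Fin 22} (h : k ≠ l) : Disjoint (Box k) (Box l) := by
  rw [Set.disjoint_left]
  rintro _ ⟨p, hp, rfl⟩ ⟨q, hq, e⟩
  obtain ⟨-, j, -, hj⟩ := R3_eq hq hp e
  exact h (Fin.ext (by omega))

theorem disjoint_Bp (k : Fin 22) : Disjoint (Bp k false) (Bp k true) := by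
  rw [R3_Bp, R3_Bp]
  exact R3_disj _ _ _

theorem disjoint_Bm (k : Fin 22) : Disjoint (Bm k false) (Bm k true) := by
  rw [R3_Bm, R3_Bm]
  exact R3_disj _ _ _

theorem Box_inter_Up (k : Fin 22) : Box k ∩ Up = Bp k false ∪ Bp k true := by
  rw [R3_Bp, R3_Bp]
  refine R3_split _ _ _ ?_
  rintro ⟨ψ, a, b⟩ hp
  have hb := abs_lt.1 hp.2.2.2
  rw [embS_mem_Up]
  refine ⟨fun h e => lt_asymm (h _ ((R3_str hp).2 (Or.inl ⟨e, rfl⟩))) hb.2, fun h b' hb' => ?_⟩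
  rcases (R3_str hp).1 hb' with ⟨e, -⟩ | ⟨-, e⟩
  · exact absurd e h
  · rw [e]
    exact hb.1

theorem Box_inter_Um (k : Fin 22) : Box k ∩ Um = Bm k false ∪ Bm k true := by
  rw [R3_Bm, R3_Bm]
  refine R3_split _ _ _ ?_
  rintro ⟨ψ, a, b⟩ hp
  have hb := abs_lt.1 hp.2.2.2
  rw [embS_mem_Um]
  refine ⟨fun h e => lt_asymm (h _ ((R3_str hp).2 (Or.inr ⟨e, rfl⟩))) hb.1, fun h b' hb' => ?_⟩
  rcases (R3_str hp).1 hb' with ⟨-, e⟩ | ⟨e, -⟩
  · rw [e]
    exact hb.2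
  · exact absurd e h

end Pool.Agent.MP_bc14e1_gt
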