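import Pool.Agent.MP_bc14e1_gt.K.RDef

/-! The regions partition the intersection of the upper and the lower piece. -/

open Set Metric

namespace Pool.Agent.MP_bc14e1_gt

theorem R4_mu_add (ψ : ℝ) (j : ℤ) : mu (ψ + 22 * j) = mu ψ := by
  unfold mu
  rw [floor_add22, fract_add22, sd_add_mul]

theorem R4_hi_add (s ψ : ℝ) (j : ℤ) : hi s (ψ + 22 * j) = hi s ψ := by
  unfold hi
  rw [R4_mu_add]

theorem R4_sd (k : ℤ) : (sd k : ℝ) = 1 ∨ (sd k : ℝ) = -1 := by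
  rcases sd_cases k with h | h <;> simp [h]

theorem R4_mu_bd (ψ : ℝ) : -(1 / 2) ≤ mu ψ ∧ mu ψ ≤ 1 / 2 := by
  have h0 := stp_nonneg (Int.fract ψ)
  have h1 := stp_le_one (Int.fract ψ)
  have h2 : 0 ≤ min (stp (Int.fract ψ)) (1 - stp (Int.fract ψ)) := le_min h0 (by linarith)
  have h3 := min_le_left (stp (Int.fract ψ)) (1 - stp (Int.fract ψ))
  have h4 := min_le_right (stp (Int.fract ψ)) (1 - stp (Int.fract ψ))
  unfold mu
  rcases R4_sd ⌊ψ⌋ with h | h <;> rw [h] <;> constructor <;> linarith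

theorem R4_hi_le (s ψ : ℝ) : hi s ψ ≤ 1 := by
  unfold hi
  linarith [le_max_right (s * mu ψ) 0]

theorem R4_hi_ge {s : ℝ} (hs : s = 1 ∨ s = -1) (ψ : ℝ) : 1 / 2 ≤ hi s ψ := by
  obtain ⟨h1, h2⟩ := R4_mu_bd ψ
  have : max (s * mu ψ) 0 ≤ 1 / 2 := by
    refine max_le ?_ (by norm_num)
    rcases hs with h | h <;> rw [h] <;> linarith
  unfold hi
  linarith

theorem R4_str (ψ a : ℝ) :
    (∃ b, Str ψ a b) ↔ a = mu ψ ∨ a = hi 1 ψ ∨ a = -hi (-1) ψ := by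
  have h0 := stp_nonneg (Int.fract ψ)
  have h1 := stp_le_one (Int.fract ψ)
  have e : (∃ b, Str ψ a b) ↔ a = sd ⌊ψ⌋ * stp (Int.fract ψ) ∨
      a = sd ⌊ψ⌋ * (1 - stp (Int.fract ψ)) ∨ a = -sd ⌊ψ⌋ := by
    unfold Str
    constructor
    · rintro ⟨b, h | h | h⟩
      exacts [Or.inl h.1, Or.inr (Or.inl h.1), Or.inr (Or.inr h.1)]
    · rintro (h | h | h)
      exacts [⟨_, Or.inl ⟨h, rfl⟩⟩, ⟨_, Or.inr (Or.inl ⟨h, rfl⟩)⟩, ⟨_, Or.inr (Or.inr ⟨h, rfl⟩)⟩]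
  rw [e]
  unfold hi mu
  generalize stp (Int.fract ψ) = S at *
  rcases R4_sd ⌊ψ⌋ with h | h <;> rw [h] <;> rcases le_total S (1 - S) with h2 | h2
  · rw [min_eq_left h2, max_eq_left (by linarith), max_eq_right (by linarith)]
    simp
  · rw [min_eq_right h2, max_eq_left (by linarith), max_eq_right (by linarith)]
    constructor <;> rintro (h | h | h)
    exacts [Or.inr (Or.inl (by linarith)), Or.inl h, Or.inr (Or.inr (by linarith)),
      Or.inr (Or.inl h), Or.inl (by linarith), Or.inr (Or.inr (by linarith))]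
  · rw [min_eq_left h2, max_eq_right (by linarith), max_eq_left (by linarith)]
    constructor <;> rintro (h | h | h)
    exacts [Or.inl h, Or.inr (Or.inr (by linarith)), Or.inr (Or.inl (by linarith)),
      Or.inl h, Or.inr (Or.inr (by linarith)), Or.inr (Or.inl (by linarith))]
  · rw [min_eq_right h2, max_eq_right (by linarith), max_eq_left (by linarith)]
    constructor <;> rintro (h | h | h)
    exacts [Or.inr (Or.inr (by linarith)), Or.inl h, Or.inr (Or.inl (by linarith)),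
      Or.inr (Or.inl h), Or.inr (Or.inr (by linarith)), Or.inl (by linarith)]

theorem R4_mem_UU {ψ a b : ℝ} :
    embS (ψ, a, b) ∈ Up ∩ Um ↔ a ≠ mu ψ ∧ a ≠ hi 1 ψ ∧ a ≠ -hi (-1) ψ := by
  have e := R4_str ψ a
  rw [mem_inter_iff, embS_mem_Up, embS_mem_Um]
  constructor
  · rintro ⟨h1, h2⟩
    have : ¬ ∃ b, Str ψ a b := fun ⟨b', hb⟩ => lt_asymm (h1 b' hb) (h2 b' hb)
    rw [e] at this
    push Not at this
    exact this
  · intro h
    have : ¬ ∃ b, Str ψ a b := by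
      rw [e]
      push Not
      exact h
    exact ⟨fun b' hb => absurd ⟨b', hb⟩ this, fun b' hb => absurd ⟨b', hb⟩ this⟩

theorem R4_mem_Out {s ψ a b : ℝ} : embS (ψ, a, b) ∈ Out s ↔ hi s ψ < s * a := by
  constructor
  · rintro (⟨⟨ψ', a', b'⟩, h, he⟩ | h)
    · obtain ⟨h2, j, hj⟩ := embS_eq_iff.1 he
      obtain ⟨rfl, rfl⟩ := Prod.ext_iff.1 h2
      dsimp only at hj
      rw [hj, R4_hi_add]
      exact h
    · change rad (emb ψ a b) < s * emb ψ a b 2 at h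
      rw [rad_emb, emb_2] at h
      have hp := inv_pos.2 (nrm_pos a b)
      have h1 : 1 < s * a := by
        by_contra hle
        have := mul_le_mul_of_nonneg_left (not_lt.1 hle) hp.le
        linarith
      linarith [R4_hi_le s ψ]
  · exact fun h => Or.inl ⟨(ψ, a, b), h, rfl⟩

theorem R4_not_img {v : S3} (h : rad v.1 = 0) (A : Set (ℝ × ℝ × ℝ)) : v ∉ embS '' A := by
  rintro ⟨p, -, rfl⟩
  exact (rad_emb_pos p.1 p.2.1 p.2.2).ne' h

theorem R4_Out_rad {s : ℝ} {v : S3} (h : rad v.1 = 0) : v ∈ Out s ↔ 0 < s * v.1 2 := by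
  unfold Out
  rw [mem_union, or_iff_right (R4_not_img h _), mem_ofPred_eq, h]

theorem R4_UU_rad {v : S3} (h : rad v.1 = 0) : v ∈ Up ∩ Um ↔ v.1 2 ≠ 0 := by
  rw [mem_inter_iff, mem_Up_of_rad h, mem_Um_of_rad h]
  constructor
  · rintro ⟨h1, h2⟩ h3
    obtain ⟨e0, e1⟩ := rad_eq_zero.1 h
    have hn := E4_norm_sq v.1
    rw [show ‖v.1‖ = 1 by simp, e0, e1, h3] at hn
    have : (v.1 3 - 1) * (v.1 3 + 1) = 0 := by linarith
    rcases mul_eq_zero.1 this with e | e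
    · refine h2 (Subtype.ext (E4_ext ?_ ?_ ?_ ?_)) <;> simp [pole, e0, e1, h3]
      linarith
    · refine h1 (Subtype.ext (E4_ext ?_ ?_ ?_ ?_)) <;> simp [pole, e0, e1, h3]
      linarith
  · intro h3
    constructor <;> rintro rfl <;> simp [pole] at h3

theorem R4_mem_Gap {k : ℤ} {ψ a b : ℝ} : embS (ψ, a, b) ∈ Gap k ↔
    ∃ j : ℤ, k + 1 / 2 < ψ + 22 * j ∧ ψ + 22 * j < k + nx k + 1 / 2 ∧
      sd k * mu ψ < sd k * a ∧ sd k * a < hi (sd k) ψ := by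
  constructor
  · rintro ⟨⟨ψ', a', b'⟩, ⟨h1, h2, h3, h4⟩, he⟩
    obtain ⟨h5, j, hj⟩ := embS_eq_iff.1 he.symm
    obtain ⟨rfl, rfl⟩ := Prod.ext_iff.1 h5
    dsimp only at hj h1 h2 h3 h4
    rw [hj] at h1 h2 h3 h4
    rw [R4_mu_add] at h3
    rw [R4_hi_add] at h4
    exact ⟨j, h1, h2, h3, h4⟩
  · rintro ⟨j, h1, h2, h3, h4⟩
    refine ⟨(ψ + 22 * j, a, b), ⟨h1, h2, ?_, ?_⟩, embS_add22 ψ (a, b) j⟩
    · dsimp only
      rwa [R4_mu_add]
    · dsimp only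
      rwa [R4_hi_add]

theorem R4_nx_add (k j : ℤ) : nx (k + 22 * j) = nx k := by
  unfold nx
  push_cast
  rw [show (22 : ZMod 22) = 0 from rfl, zero_mul, add_zero]

theorem R4_mod (k : ℤ) : ∃ (r : Fin 22) (q : ℤ), k = ((r : ℕ) : ℤ) + 22 * q :=
  ⟨⟨(k % 22).toNat, by omega⟩, k / 22, by
    dsimp only
    omega⟩

theorem R4_nx_bd (k : ℤ) : 1 ≤ nx k ∧ nx k ≤ 4 := by
  unfold nx
  generalize (k : ZMod 22) = r
  revert r
  decide +kernel

theorem R4_between {k d : ℤ} (h0 : 0 < d) (h1 : d < nx k) : sd (k + d) = -sd k := by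
  have t : ∀ (r : Fin 22) (e : Fin 4), 0 < ((e : ℕ) : ℤ) → ((e : ℕ) : ℤ) < nx (r : ℕ) →
      sd (((r : ℕ) : ℤ) + (e : ℕ)) = -sd (r : ℕ) := by
    decide +kernel
  obtain ⟨r, q, rfl⟩ := R4_mod k
  have hb := (R4_nx_bd (((r : ℕ) : ℤ) + 22 * q)).2
  rw [R4_nx_add] at h1 hb
  have e : d = (((⟨d.toNat, by omega⟩ : Fin 4) : ℕ) : ℤ) := by
    dsimp only
    omega
  rw [add_right_comm, sd_add_mul, sd_add_mul, e]
  exact t r _ (e ▸ h0) (e ▸ h1)

theorem R4_last (m : ℤ) {s : ℤ} (hs : s = 1 ∨ s = -1) :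
    ∃ k : ℤ, k ≤ m ∧ m < k + nx k ∧ sd k = s := by
  have t : ∀ r : Fin 22, (∃ e : Fin 4, ((e : ℕ) : ℤ) < nx (((r : ℕ) : ℤ) - (e : ℕ)) ∧
      sd (((r : ℕ) : ℤ) - (e : ℕ)) = 1) ∧
      ∃ e : Fin 4, ((e : ℕ) : ℤ) < nx (((r : ℕ) : ℤ) - (e : ℕ)) ∧
      sd (((r : ℕ) : ℤ) - (e : ℕ)) = -1 := by
    decide +kernel
  obtain ⟨r, q, rfl⟩ := R4_mod m
  obtain ⟨e, h1, h2⟩ : ∃ e : Fin 4, ((e : ℕ) : ℤ) < nx (((r : ℕ) : ℤ) - (e : ℕ)) ∧
      sd (((r : ℕ) : ℤ) - (e : ℕ)) = s := by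
    rcases hs with rfl | rfl
    exacts [(t r).1, (t r).2]
  refine ⟨((r : ℕ) : ℤ) - (e : ℕ) + 22 * q, by omega, ?_, ?_⟩
  · rw [R4_nx_add]
    omega
  · rw [sd_add_mul, h2]

theorem R4_Reg_lt (r : Fin 22) : Reg (r.castLE (by norm_num)) = Gap (r : ℕ) := by
  unfold Reg
  rw [if_pos (by simp)]
  rfl

theorem R4_Reg22 : Reg 22 = Out (-1) := rfl

theorem R4_Reg23 : Reg 23 = Out 1 := rfl

theorem R4_cases (r : Fin 24) :
    (∃ t : Fin 22, r = t.castLE (by norm_num)) ∨ r = 22 ∨ r = 23 := by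
  revert r
  decide +kernel

theorem R4_cover {s : ℤ} (hs : s = 1 ∨ s = -1) {ψ a b : ℝ} (h1 : s * mu ψ < s * a)
    (h2 : s * a < hi s ψ) : ∃ r : Fin 22, embS (ψ, a, b) ∈ Gap (r : ℕ) := by
  obtain ⟨k, hk1, hk2, hk3⟩ := R4_last ⌊ψ - 1 / 2⌋ hs
  have f1 := Int.floor_le (ψ - 1 / 2)
  have f2 := Int.lt_floor_add_one (ψ - 1 / 2)
  have g1 : (k : ℝ) ≤ (⌊ψ - 1 / 2⌋ : ℤ) := by exact_mod_cast hk1
  have g2 : ((⌊ψ - 1 / 2⌋ : ℤ) : ℝ) + 1 ≤ k + nx k := by exact_mod_cast hk2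
  have g3 : (k : ℝ) + 1 / 2 ≠ ψ := by
    intro e
    have e1 : ⌊ψ⌋ = k := by
      rw [Int.floor_eq_iff]
      constructor <;> linarith
    have e2 : Int.fract ψ = 1 / 2 := by
      rw [Int.fract, e1]
      linarith
    have e3 : (s : ℝ) * mu ψ = 1 / 2 := by
      unfold mu
      rw [e1, e2, stp_half, hk3]
      rcases hs with rfl | rfl <;> norm_num
    have e4 : hi s ψ = 1 / 2 := by
      unfold hi
      rw [e3]
      norm_num
    linarith
  have g4 : (k : ℝ) + 1 / 2 < ψ := lt_of_le_of_ne (by linarith) g3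
  obtain ⟨r, q, rfl⟩ := R4_mod k
  rw [R4_nx_add] at g2
  rw [sd_add_mul] at hk3
  push_cast at g2 g4
  refine ⟨r, R4_mem_Gap.2 ⟨-q, ?_, ?_, ?_, ?_⟩⟩
  · push_cast
    linarith
  · push_cast
    linarith
  · rwa [hk3]
  · rwa [hk3]

theorem R4_gap_gap {k k' : ℤ} {ψ : ℝ} (hs : sd k = sd k') (hk : k < k')
    (h1 : (k' : ℝ) + 1 / 2 < ψ) (h2 : ψ < k + nx k + 1 / 2) : False := by
  have h3 : k' < k + nx k := by
    have : (k' : ℝ) < k + nx k := by linarith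
    exact_mod_cast this
  have h4 := R4_between (k := k) (d := k' - k) (by omega) (by omega)
  rw [add_sub_cancel] at h4
  rcases sd_cases k with h | h <;> omega

theorem R4_disj_gap {r r' : Fin 22} (h : r ≠ r') : Disjoint (Gap (r : ℕ)) (Gap (r' : ℕ)) := by
  rw [Set.disjoint_left]
  intro v hv hv'
  obtain ⟨⟨ψ, a, b⟩, -, rfl⟩ := id hv
  obtain ⟨j, h1, h2, h3, h4⟩ := R4_mem_Gap.1 hv
  obtain ⟨j', h1', h2', h3', h4'⟩ := R4_mem_Gap.1 hv'
  by_cases hs : sd (r : ℕ) = sd (r' : ℕ)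
  · have hs' : sd (((r : ℕ) : ℤ) + 22 * -j) = sd (((r' : ℕ) : ℤ) + 22 * -j') := by
      rwa [sd_add_mul, sd_add_mul]
    rcases lt_trichotomy (((r : ℕ) : ℤ) + 22 * -j) (((r' : ℕ) : ℤ) + 22 * -j') with hk | hk | hk
    · refine R4_gap_gap (ψ := ψ) hs' hk ?_ ?_
      · push_cast at h1' ⊢
        linarith
      · rw [R4_nx_add]
        push_cast at h2 ⊢
        linarith
    · refine h (Fin.ext ?_)
      have := r.2
      have := r'.2
      omega
    · refine R4_gap_gap (ψ := ψ) hs'.symm hk ?_ ?_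
      · push_cast at h1 ⊢
        linarith
      · rw [R4_nx_add]
        push_cast at h2' ⊢
        linarith
  · rcases sd_cases (r : ℕ) with e | e <;> rcases sd_cases (r' : ℕ) with e' | e'
    · exact hs (e.trans e'.symm)
    · rw [e] at h3
      rw [e'] at h3'
      push_cast at h3 h3'
      linarith
    · rw [e] at h3
      rw [e'] at h3'
      push_cast at h3 h3'
      linarith
    · exact hs (e.trans e'.symm)

theorem R4_disj_out (k : ℤ) {s : ℝ} (hs : s = 1 ∨ s = -1) : Disjoint (Gap k) (Out s) := by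
  rw [Set.disjoint_left]
  intro v hv hv'
  obtain ⟨⟨ψ, a, b⟩, -, rfl⟩ := id hv
  obtain ⟨j, -, -, h3, h4⟩ := R4_mem_Gap.1 hv
  have h5 := R4_mem_Out.1 hv'
  have h6 := R4_hi_ge hs ψ
  obtain ⟨h7, h8⟩ := R4_mu_bd ψ
  rcases R4_sd k with e | e <;> rw [e] at h3 h4 <;> rcases hs with rfl | rfl <;> linarith

theorem R4_out_out : Disjoint (Out (-1)) (Out 1) := by
  rw [Set.disjoint_left]
  intro v hv hv'
  by_cases h : rad v.1 = 0
  · rw [R4_Out_rad h] at hv hv'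
    linarith
  · obtain ⟨⟨ψ, a, b⟩, rfl⟩ := exists_embS v h
    rw [R4_mem_Out] at hv hv'
    linarith [R4_hi_ge (Or.inl rfl) ψ, R4_hi_ge (Or.inr rfl) ψ]

theorem disjoint_Reg {r r' : Fin 24} (h : r ≠ r') : Disjoint (Reg r) (Reg r') := by
  rcases R4_cases r with ⟨t, rfl⟩ | rfl | rfl <;> rcases R4_cases r' with ⟨t', rfl⟩ | rfl | rfl
  · rw [R4_Reg_lt, R4_Reg_lt]
    exact R4_disj_gap fun e => h (by rw [e])
  · rw [R4_Reg_lt]
    exact R4_disj_out _ (Or.inr rfl)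
  · rw [R4_Reg_lt]
    exact R4_disj_out _ (Or.inl rfl)
  · rw [R4_Reg_lt]
    exact (R4_disj_out _ (Or.inr rfl)).symm
  · exact absurd rfl h
  · exact R4_out_out
  · rw [R4_Reg_lt]
    exact (R4_disj_out _ (Or.inl rfl)).symm
  · exact R4_out_out.symm
  · exact absurd rfl h

theorem R4_out_sub {s : ℝ} (hs : s = 1 ∨ s = -1) : Out s ⊆ Up ∩ Um := by
  intro v hv
  by_cases h : rad v.1 = 0
  · rw [R4_Out_rad h] at hv
    rw [R4_UU_rad h]
    intro e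
    rw [e, mul_zero] at hv
    exact lt_irrefl _ hv
  · obtain ⟨⟨ψ, a, b⟩, rfl⟩ := exists_embS v h
    rw [R4_mem_Out] at hv
    rw [R4_mem_UU]
    have h1 := R4_hi_ge (Or.inl rfl) ψ
    have h2 := R4_hi_ge (Or.inr rfl) ψ
    obtain ⟨h7, h8⟩ := R4_mu_bd ψ
    rcases hs with rfl | rfl <;> refine ⟨?_, ?_, ?_⟩ <;> intro e <;> linarith

theorem Up_inter_Um : Up ∩ Um = ⋃ r, Reg r := by
  refine Subset.antisymm (fun v hv => ?_) (iUnion_subset fun r => ?_)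
  · rw [mem_iUnion]
    by_cases h : rad v.1 = 0
    · rw [R4_UU_rad h] at hv
      rcases lt_or_gt_of_ne hv with e | e
      · exact ⟨22, (R4_Out_rad h).2 (by linarith)⟩
      · exact ⟨23, (R4_Out_rad h).2 (by linarith)⟩
    · obtain ⟨⟨ψ, a, b⟩, rfl⟩ := exists_embS v h
      obtain ⟨h1, h2, h3⟩ := R4_mem_UU.1 hv
      rcases lt_or_gt_of_ne h2 with e2 | e2
      swap
      · exact ⟨23, R4_mem_Out.2 (by linarith)⟩
      rcases lt_or_gt_of_ne h3 with e3 | e3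
      · exact ⟨22, R4_mem_Out.2 (by linarith)⟩
      obtain ⟨r, hr⟩ : ∃ r : Fin 22, embS (ψ, a, b) ∈ Gap (r : ℕ) := by
        rcases lt_or_gt_of_ne h1 with e1 | e1
        · refine R4_cover (s := -1) (Or.inr rfl) ?_ ?_ <;> push_cast <;> linarith
        · refine R4_cover (s := 1) (Or.inl rfl) ?_ ?_ <;> push_cast <;> linarith
      exact ⟨r.castLE (by norm_num), by rwa [R4_Reg_lt]⟩
  · rcases R4_cases r with ⟨t, rfl⟩ | rfl | rfl
    · rw [R4_Reg_lt]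
      intro v hv
      obtain ⟨⟨ψ, a, b⟩, -, rfl⟩ := id hv
      obtain ⟨j, -, -, h3, h4⟩ := R4_mem_Gap.1 hv
      rw [R4_mem_UU]
      have h1 := R4_hi_ge (Or.inl rfl) ψ
      have h2 := R4_hi_ge (Or.inr rfl) ψ
      obtain ⟨h7, h8⟩ := R4_mu_bd ψ
      rcases R4_sd (t : ℕ) with e | e <;> rw [e] at h3 h4 <;> refine ⟨?_, ?_, ?_⟩ <;> intro e <;>
        linarith
    · exact R4_out_sub (Or.inr rfl)
    · exact R4_out_sub (Or.inl rfl)

theorem R4_box {k : ℤ} {ψ : ℝ} (h1 : (k : ℝ) + 1 / 3 < ψ) (h2 : ψ < k + 2 / 3) :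
    sd k * mu ψ = min (stp (ψ - k)) (1 - stp (ψ - k)) := by
  have e1 : ⌊ψ⌋ = k := by
    rw [Int.floor_eq_iff]
    constructor <;> linarith
  unfold mu
  rw [Int.fract, e1, ← mul_assoc]
  rcases R4_sd k with e | e <;> rw [e] <;> norm_num

theorem R4_tab (k : Fin 22) :
    (∃ (r : Fin 22) (e : Fin 2), qd k false false = r.castLE (by norm_num) ∧
      ((r : ℕ) : ℤ) < (k : ℕ) + 22 * (e : ℕ) ∧
      ((k : ℕ) : ℤ) + 22 * (e : ℕ) < (r : ℕ) + nx (r : ℕ) ∧ sd (r : ℕ) = -sd (k : ℕ)) ∧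
    (∃ (r : Fin 22) (e : Fin 2), qd k true false = r.castLE (by norm_num) ∧
      ((r : ℕ) : ℤ) + nx (r : ℕ) = (k : ℕ) + 22 * (e : ℕ) ∧ sd (r : ℕ) = sd (k : ℕ)) ∧
    ((qd k true true = 22 ∧ sd (k : ℕ) = -1) ∨ (qd k true true = 23 ∧ sd (k : ℕ) = 1)) := by
  revert k
  decide +kernel

theorem quad_subset (k : Fin 22) (i j : Bool) : Bp k i ∩ Bm k j ⊆ Reg (qd k i j) := by
  rintro v ⟨⟨⟨ψ, a, b⟩, ⟨⟨h1, h2, h3, -⟩, hi'⟩, rfl⟩, ⟨ψ', a', b'⟩, ⟨⟨h1', h2', -, -⟩, hj'⟩, he⟩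
  obtain ⟨h5, q, hq⟩ := embS_eq_iff.1 he
  obtain ⟨rfl, rfl⟩ := Prod.ext_iff.1 h5
  dsimp only at h1 h2 h3 h1' h2' hq
  have hq0 : q = 0 := by
    have a1 : (-1 : ℝ) < q := by linarith
    have a2 : (q : ℝ) < 1 := by linarith
    have a3 : (-1 : ℤ) < q := by exact_mod_cast a1
    have a4 : q < 1 := by exact_mod_cast a2
    omega
  rw [hq0, Int.cast_zero, mul_zero, add_zero] at hq
  subst hq
  have hm := R4_box h1 h2
  rw [mem_ofPred_eq] at hi' hj'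
  dsimp only at hi' hj'
  rw [Int.cast_natCast] at hm h1 h2
  have s0 := stp_nonneg (ψ - (k : ℕ))
  have s1 := stp_le_one (ψ - (k : ℕ))
  obtain ⟨t1, t2, t3⟩ := R4_tab k
  have n1 : (1 : ℝ) ≤ nx (k : ℕ) := by exact_mod_cast (R4_nx_bd _).1
  cases i <;> cases j <;> simp only [if_true, Bool.false_eq_true, if_false] at hi' hj'
  · obtain ⟨r, e, hr, g1, g2, g3⟩ := t1
    have g1' : ((r : ℕ) : ℝ) + 1 ≤ (k : ℕ) + 22 * (e : ℕ) := by exact_mod_cast g1
    have g2' : ((k : ℕ) : ℝ) + 22 * (e : ℕ) + 1 ≤ (r : ℕ) + nx (r : ℕ) := by exact_mod_cast g2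
    rw [hr, R4_Reg_lt]
    refine R4_mem_Gap.2 ⟨(e : ℕ), ?_, ?_, ?_, ?_⟩
    · push_cast
      linarith
    · push_cast
      linarith
    · rw [g3]
      push_cast
      have := lt_min hi' hj'
      linarith
    · unfold hi
      rw [g3]
      push_cast
      have : 0 ≤ min (stp (ψ - (k : ℕ))) (1 - stp (ψ - (k : ℕ))) := le_min s0 (by linarith)
      rw [max_eq_right (by linarith)]
      linarith
  · have g : 1 / 2 < ψ - (k : ℕ) := by
      by_contra hc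
      rcases (not_lt.1 hc).eq_or_lt with e | e
      · rw [e, stp_half] at hi' hj'
        linarith
      · linarith [stp_lt_half e]
    rw [min_eq_right (by linarith)] at hm
    change _ ∈ Reg (k.castLE (by norm_num))
    rw [R4_Reg_lt]
    refine R4_mem_Gap.2 ⟨0, ?_, ?_, ?_, ?_⟩
    · push_cast
      linarith
    · push_cast
      linarith
    · linarith
    · unfold hi
      rw [hm, max_eq_left (by linarith)]
      linarith
  · have g : ψ - (k : ℕ) < 1 / 2 := by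
      by_contra hc
      rcases (not_lt.1 hc).eq_or_lt with e | e
      · rw [← e, stp_half] at hi' hj'
        linarith
      · linarith [half_lt_stp e]
    rw [min_eq_left (by linarith)] at hm
    obtain ⟨r, e, hr, g1, g3⟩ := t2
    have g1' : ((r : ℕ) : ℝ) + nx (r : ℕ) = (k : ℕ) + 22 * (e : ℕ) := by exact_mod_cast g1
    have n2 : (1 : ℝ) ≤ nx (r : ℕ) := by exact_mod_cast (R4_nx_bd _).1
    rw [hr, R4_Reg_lt]
    refine R4_mem_Gap.2 ⟨(e : ℕ), ?_, ?_, ?_, ?_⟩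
    · push_cast
      linarith
    · push_cast
      linarith
    · rw [g3]
      linarith
    · unfold hi
      rw [g3, hm, max_eq_left s0]
      linarith
  · have g : hi (sd (k : ℕ)) ψ < sd (k : ℕ) * a' := by
      unfold hi
      rw [hm, max_eq_left (le_min s0 (by linarith))]
      rcases le_total (stp (ψ - (k : ℕ))) (1 - stp (ψ - (k : ℕ))) with e | e
      · rw [min_eq_left e]
        linarith
      · rw [min_eq_right e]
        linarith
    rcases t3 with ⟨hr, e⟩ | ⟨hr, e⟩ <;> rw [hr] <;> rw [e] at g <;> push_cast at g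
    · exact R4_mem_Out.2 g
    · exact R4_mem_Out.2 g

end Pool.Agent.MP_bc14e1_gt
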