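import Pool.Agent.MP_bc14e1_gt.K.Ori

/-! Slice knots bound discs as in the definition of `0`-positive knots. -/

open Set Metric
open scoped Manifold ContDiff

namespace Pool.Agent.MP_bc14e1_gt

section SZ

variable {F : Type} [NormedAddCommGroup F] [InnerProductSpace ℝ F]
  [Fact (Module.finrank ℝ F = 4 + 1)]

/-- The transition map between two opposite stereographic charts is an inversion. -/
theorem SZ_trans (v : sphere (0 : F) 1) : ∃ A : E 4 ≃L[ℝ] E 4,
    (stereographic' 4 (-v)).symm (A 0) = v ∧ ∀ x, x ≠ 0 →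
      (stereographic' 4 (-v)).symm (A x) = (stereographic' 4 v).symm ((‖x‖ ^ 2)⁻¹ • x) := by
  let U : (ℝ ∙ (v : F))ᗮ ≃ₗᵢ[ℝ] E 4 :=
    (OrthonormalBasis.fromOrthogonalSpanSingleton 4 (ne_zero_of_mem_unit_sphere v)).repr
  let U' : (ℝ ∙ ((-v : sphere (0 : F) 1) : F))ᗮ ≃ₗᵢ[ℝ] E 4 :=
    (OrthonormalBasis.fromOrthogonalSpanSingleton 4 (ne_zero_of_mem_unit_sphere (-v))).repr
  have hv : (ℝ ∙ (v : F))ᗮ = (ℝ ∙ ((-v : sphere (0 : F) 1) : F))ᗮ := by
    rw [coe_neg_sphere, ← Set.neg_singleton, Submodule.span_neg]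
  let B : E 4 ≃ₗᵢ[ℝ] E 4 := (U.symm.trans (LinearIsometryEquiv.ofEq _ _ hv)).trans U'
  let A : E 4 ≃L[ℝ] E 4 :=
    (ContinuousLinearEquiv.smulLeft (Units.mk0 (4 : ℝ) four_ne_zero)).trans
      B.toContinuousLinearEquiv
  have hA : ∀ x, (U'.symm (A x) : F) = (4 : ℝ) • (U.symm x : F) := by
    intro x
    have h1 : A x = U' (LinearIsometryEquiv.ofEq _ _ hv (U.symm ((4 : ℝ) • x))) := rfl
    rw [h1, U'.symm_apply_apply, map_smul U.symm]
    rfl
  have hn : ∀ x, ‖(U.symm x : F)‖ = ‖x‖ := fun x => U.symm.norm_map x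
  refine ⟨A, Subtype.ext ?_, fun x hx => Subtype.ext ?_⟩
  · rw [stereographic'_symm_apply]
    change (‖(U'.symm (A 0) : F)‖ ^ 2 + 4)⁻¹ • (4 : ℝ) • (U'.symm (A 0) : F) +
      (‖(U'.symm (A 0) : F)‖ ^ 2 + 4)⁻¹ • (‖(U'.symm (A 0) : F)‖ ^ 2 - 4) • (-(v : F)) = v
    rw [hA, map_zero, ZeroMemClass.coe_zero, smul_zero, norm_zero]
    match_scalars
    norm_num
  · rw [stereographic'_symm_apply, stereographic'_symm_apply]
    change (‖(U'.symm (A x) : F)‖ ^ 2 + 4)⁻¹ • (4 : ℝ) • (U'.symm (A x) : F) +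
      (‖(U'.symm (A x) : F)‖ ^ 2 + 4)⁻¹ • (‖(U'.symm (A x) : F)‖ ^ 2 - 4) • (-(v : F)) =
      (‖(U.symm ((‖x‖ ^ 2)⁻¹ • x) : F)‖ ^ 2 + 4)⁻¹ • (4 : ℝ) • (U.symm ((‖x‖ ^ 2)⁻¹ • x) : F) +
      (‖(U.symm ((‖x‖ ^ 2)⁻¹ • x) : F)‖ ^ 2 + 4)⁻¹ •
        (‖(U.symm ((‖x‖ ^ 2)⁻¹ • x) : F)‖ ^ 2 - 4) • (v : F)
    have h0 : 0 < ‖x‖ := norm_pos_iff.mpr hx
    rw [hA, hn, norm_smul, norm_smul, hn, map_smul, Submodule.coe_smul, Real.norm_eq_abs,
      Real.norm_eq_abs, abs_of_pos (by positivity : (0 : ℝ) < (‖x‖ ^ 2)⁻¹),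
      abs_of_pos (by norm_num : (0 : ℝ) < 4)]
    match_scalars
    · field_simp
      ring
    · field_simp
      ring

theorem SZ_norm_inv (x : E 4) : ‖(‖x‖ ^ 2)⁻¹ • x‖ = ‖x‖⁻¹ := by
  rw [norm_smul, Real.norm_eq_abs, abs_of_nonneg (by positivity)]
  by_cases h : ‖x‖ = 0
  · simp [h]
  · field_simp

theorem SZ_main [CompactSpace (sphere (0 : F) 1)] (o : Orientation4 (sphere (0 : F) 1))
    (v : sphere (0 : F) 1) {K : Set (E 4)} (hK : K ⊆ sphere 0 1) (h : Slice K) (ε : ℤ) :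
    ZeroSign ε K := by
  obtain ⟨d, d1, d2, d3, d4, d5, d6⟩ := h
  obtain ⟨A, j0, j1⟩ := SZ_trans v
  have hm : ∀ w : sphere (0 : F) 1,
      stereographic' 4 w ∈ IsManifold.maximalAtlas (𝓡 4) ∞ (sphere (0 : F) 1) :=
    fun w => IsManifold.subset_maximalAtlas ⟨w, rfl⟩
  have hs := stereographic'_source (n := 4) v
  have ht := stereographic'_target (n := 4) v
  have ht' := stereographic'_target (n := 4) (-v)
  have hc := hm v
  have hc' := hm (-v)
  generalize stereographic' 4 v = c at j1 hs ht hc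
  generalize stereographic' 4 (-v) = c' at j0 j1 ht' hc'
  have mt : ∀ y, y ∈ c.target := fun y => ht ▸ mem_univ y
  have mt' : ∀ y, y ∈ c'.target := fun y => ht' ▸ mem_univ y
  have hemb : Topology.IsEmbedding fun x => c'.symm (A x) :=
    (c'.symm.isOpenEmbedding ht').isEmbedding.comp A.toHomeomorph.isEmbedding
  have hjc : ∀ x y, c'.symm (A x) = c.symm y → ‖x‖ * ‖y‖ = 1 := by
    intro x y e
    by_cases hx : x = 0
    · have h1 := c.map_target (mt y)
      rw [← e, hx, j0, hs] at h1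
      exact absurd rfl h1
    · rw [j1 x hx] at e
      rw [← c.symm.injOn (mt _) (mt _) e, SZ_norm_inv, mul_inv_cancel₀ (norm_ne_zero_iff.mpr hx)]
  have hV : (c.symm '' ball 0 1)ᶜ = (fun x => c'.symm (A x)) '' closedBall 0 1 := by
    ext w
    constructor
    · intro hw
      by_cases hv : w = v
      · exact ⟨0, mem_closedBall_self zero_le_one, j0.trans hv.symm⟩
      · have h1 : c.symm (c w) = w := c.left_inv (by rw [hs]; exact hv)
        have h2 : 1 ≤ ‖c w‖ := by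
          by_contra h3
          exact hw ⟨c w, mem_ball_zero_iff.mpr (not_le.mp h3), h1⟩
        have h3 : ‖c w‖ ≠ 0 := by positivity
        have h4 := SZ_norm_inv (c w)
        refine ⟨(‖c w‖ ^ 2)⁻¹ • c w, ?_, ?_⟩
        · rw [mem_closedBall_zero_iff, h4]
          exact inv_le_one_of_one_le₀ h2
        · change c'.symm (A _) = w
          rw [j1 _ (norm_ne_zero_iff.mp (by rw [h4]; exact inv_ne_zero h3)), h4, smul_smul, inv_pow,
            inv_inv, mul_inv_cancel₀ (pow_ne_zero 2 h3), one_smul, h1]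
    · rintro ⟨x, hx, rfl⟩ ⟨y, hy, e⟩
      have h1 := hjc x y e.symm
      rw [mem_closedBall_zero_iff] at hx
      rw [mem_ball_zero_iff] at hy
      nlinarith [norm_nonneg x, norm_nonneg y]
  have hcon : ContractibleSpace (closedBall (0 : E 4) 1) :=
    (convex_closedBall 0 1).contractibleSpace ⟨0, mem_closedBall_self zero_le_one⟩
  have hcon' : ContractibleSpace ((c.symm '' ball 0 1)ᶜ : Set (sphere (0 : F) 1)) := by
    rw [hV]
    exact (hemb.homeomorphImage _).symm.contractibleSpace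
  have hsm : ∀ x ∈ closedBall (0 : E 2) 1,
      ContMDiffAt (𝓡 2) (𝓡 4) ∞ (fun x => c'.symm (A (d x))) x := fun x hx =>
    (contMDiffAt_symm_of_mem_maximalAtlas hc' (mt' _)).comp x
      (A.contDiff.contDiffAt.comp x (d1 x hx)).contMDiffAt
  refine ⟨sphere (0 : F) 1, inferInstance, inferInstance, inferInstance, inferInstance,
    inferInstance, o, c, _, fun x => c'.symm (A (d x)), 0, Fin.elim0, hc, fun y _ => mt y, rfl,
    SimplyConnectedSpace.ofContractible _, hsm, fun x hx y hy e => d2 hx hy (hemb.injective e),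
    fun x hx => ?_, fun x hx => ?_, ?_, fun u hu => ?_, fun i => i.elim0, fun z hz hb => ?_,
    fun i => i.elim0⟩
  · have h1 : MDifferentiableAt (𝓡 4) (𝓡 4) c' (c'.symm (A (d x))) :=
      (contMDiffAt_of_mem_maximalAtlas hc' (c'.map_target (mt' _))).mdifferentiableAt (by simp)
    have h2 := mfderiv_comp x h1 ((hsm x hx).mdifferentiableAt (by simp))
    have h3 : (c' ∘ fun x => c'.symm (A (d x))) = A ∘ d := funext fun y => c'.right_inv (mt' _)
    rw [h3, mfderiv_eq_fderiv, A.comp_fderiv] at h2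
    intro a b e
    have h4 : A (fderiv ℝ d x a) = _ := DFunLike.congr_fun h2 a
    have h5 : A (fderiv ℝ d x b) = _ := DFunLike.congr_fun h2 b
    refine d3 x hx (A.injective (h4.trans (Eq.trans ?_ h5.symm)))
    exact congrArg (mfderiv (𝓡 4) (𝓡 4) c' (c'.symm (A (d x)))) e
  · rintro ⟨y, hy, e⟩
    have h1 := hjc _ y e.symm
    have h2 := d4 x hx
    rw [mem_closedBall_zero_iff] at hy
    nlinarith [norm_nonneg (d x), norm_nonneg y]
  · rw [← image_image (fun x => c'.symm (A x)) d, d5]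
    refine image_congr fun x hx => ?_
    have h1 : ‖x‖ = 1 := mem_sphere_zero_iff_norm.mp (hK hx)
    rw [j1 x (norm_ne_zero_iff.mp (by rw [h1]; exact one_ne_zero)), h1, one_pow, inv_one, one_smul]
  · have h1 : ‖d ((1 : ℝ) • u)‖ = 1 := by
      rw [one_smul]
      exact mem_sphere_zero_iff_norm.mp (hK (d5 ▸ mem_image_of_mem d hu))
    have h2 := d6 u hu
    have h3 := (differentiableAt_of_deriv_ne_zero h2.ne').hasDerivAt
    have h4 : ‖d ((1 : ℝ) • u)‖ ≠ 0 := by rw [h1]; exact one_ne_zero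
    have h5 : (fun r : ℝ => ‖c (c'.symm (A (d (r • u))))‖) =ᶠ[nhds 1]
        (fun r : ℝ => ‖d (r • u)‖)⁻¹ := by
      filter_upwards [h3.continuousAt.eventually_ne h4] with r hr
      rw [j1 _ (norm_ne_zero_iff.mp hr), c.right_inv (mt _), SZ_norm_inv, Pi.inv_apply]
    rw [h5.deriv_eq, (h3.inv h4).deriv, h1, one_pow, div_one]
    exact neg_lt_zero.mpr h2
  · obtain ⟨b, hb1, hb2⟩ := (MP_4f4d9f_gt.sacyc_of_contractible ℤ
      ((c.symm '' ball 0 1)ᶜ : Set (sphere (0 : F) 1))).succ 1 z hz hb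
    refine ⟨Fin.elim0, ⟨b, hb1, ?_⟩, fun _ _ => Subsingleton.elim _ _⟩
    have h1 : bd ℤ _ 2 b = z := hb2
    rw [h1, Fin.sum_univ_zero, sub_zero, sub_self]
    exact Submodule.zero_mem _

end SZ

theorem zeroSign_of_slice {K : Set (E 4)} (hK : K ⊆ sphere 0 1) (h : Slice K) (ε : ℤ) :
    ZeroSign ε K := by
  have : Fact (Module.finrank ℝ (E 5) = 4 + 1) := ⟨finrank_euclideanSpace_fin⟩
  obtain ⟨o⟩ := orient_sphere
  exact SZ_main o ⟨EuclideanSpace.single 0 1, by simp⟩ hK h ε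

end Pool.Agent.MP_bc14e1_gt
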