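import Pool.Agent.MP_bc14e1_gt.K.SumA

/-! The sum of an odd long knot with itself is slice. -/

open Set Metric Filter Topology
open scoped ContDiff

namespace Pool.Agent.MP_bc14e1_gt

/-- The half curve that is spun. -/
structure Sum_Half (M : ℝ → E 3) (δ T : ℝ) : Prop where
  smooth : ContDiff ℝ ∞ M
  inj : Function.Injective M
  imm : ∀ t, deriv M t ≠ 0
  pos : ∀ t, 0 < t → 0 < M t 0
  hδ : 0 < δ
  small : ∀ t, t ≤ δ → M t = EuclideanSpace.single 0 t
  large : ∀ t, T ≤ t → M t = EuclideanSpace.single 0 t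

/-- The spun curve. -/
noncomputable def Sum_D (M : ℝ → E 3) (y : E 2) : E 4 :=
  ‖y‖⁻¹ • !₂[M ‖y‖ 0 * y 0, M ‖y‖ 1 * y 0 - M ‖y‖ 2 * y 1, M ‖y‖ 1 * y 1 + M ‖y‖ 2 * y 0,
    M ‖y‖ 0 * y 1]

/-- The first complex coordinate, its modulus. -/
noncomputable def Sum_rho (w : E 4) : ℝ := √(w 0 ^ 2 + w 3 ^ 2)

/-- The first complex coordinate, its argument. -/
noncomputable def Sum_U (w : E 4) : E 2 := (Sum_rho w)⁻¹ • !₂[w 0, w 3]

/-- Rotating back. -/
noncomputable def Sum_G (w : E 4) : E 3 :=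
  !₂[Sum_rho w, (Sum_rho w)⁻¹ * (w 1 * w 0 + w 2 * w 3), (Sum_rho w)⁻¹ * (w 2 * w 0 - w 1 * w 3)]

open Classical in
/-- The positive factor in the last coordinate. -/
noncomputable def Sum_k (M : ℝ → E 3) (y : E 2) : ℝ := if y = 0 then 1 else ‖y‖⁻¹ * M ‖y‖ 0

variable {M : ℝ → E 3} {δ T : ℝ}

theorem Sum_D_lin {y : E 2} (h : M ‖y‖ = EuclideanSpace.single 0 ‖y‖) :
    Sum_D M y = !₂[y 0, 0, 0, y 1] := by
  rcases eq_or_ne y 0 with rfl | hy
  · refine Sum_ext4 ?_ ?_ ?_ ?_ <;> simp [Sum_D]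
  · have hn : ‖y‖ ≠ 0 := norm_ne_zero_iff.2 hy
    unfold Sum_D
    rw [h]
    refine Sum_ext4 ?_ ?_ ?_ ?_ <;> simp [hn]

theorem Sum_D_ev (H : Sum_Half M δ T) :
    Sum_D M =ᶠ[𝓝 0] fun y : E 2 => (!₂[y 0, 0, 0, y 1] : E 4) := by
  filter_upwards [closedBall_mem_nhds (0 : E 2) H.hδ] with y hy
  exact Sum_D_lin (H.small _ (by simpa using hy))

theorem Sum_D_cd (H : Sum_Half M δ T) (y : E 2) : ContDiffAt ℝ ∞ (Sum_D M) y := by
  rcases eq_or_ne y 0 with rfl | hy
  · refine ContDiffAt.congr_of_eventuallyEq (ContDiff.contDiffAt ?_) (Sum_D_ev H)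
    rw [contDiff_euclidean]
    intro i
    fin_cases i <;> simp <;> fun_prop
  · have h1 : ContDiffAt ℝ ∞ (fun z : E 2 => ‖z‖) y := contDiffAt_norm ℝ hy
    have h2 : ContDiffAt ℝ ∞ (fun z : E 2 => M ‖z‖) y := H.smooth.contDiffAt.comp y h1
    have h3 : ∀ i, ContDiffAt ℝ ∞ (fun z : E 2 => M ‖z‖ i) y := contDiffAt_euclidean.1 h2
    have h4 := h3 0
    have h5 := h3 1
    have h6 := h3 2
    unfold Sum_D
    refine ContDiffAt.smul (h1.inv (norm_ne_zero_iff.2 hy)) ?_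
    rw [contDiffAt_euclidean]
    intro i
    fin_cases i <;> simp <;> fun_prop

theorem Sum_rho_D (H : Sum_Half M δ T) {y : E 2} (hy : y ≠ 0) :
    Sum_rho (Sum_D M y) = M ‖y‖ 0 := by
  have hn : ‖y‖ ≠ 0 := norm_ne_zero_iff.2 hy
  have hp := H.pos _ (norm_pos_iff.2 hy)
  have h2 := Sum_sq2 y
  unfold Sum_rho
  rw [← Real.sqrt_sq hp.le]
  congr 1
  simp only [Sum_D, PiLp.smul_apply, smul_eq_mul, Matrix.cons_val_zero, Matrix.cons_val]
  field_simp
  rw [h2]

theorem Sum_U_D (H : Sum_Half M δ T) {y : E 2} (hy : y ≠ 0) :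
    Sum_U (Sum_D M y) = ‖y‖⁻¹ • y := by
  have hp := (H.pos _ (norm_pos_iff.2 hy)).ne'
  unfold Sum_U
  rw [Sum_rho_D H hy]
  refine Sum_ext2 ?_ ?_ <;>
    simp only [Sum_D, PiLp.smul_apply, smul_eq_mul, Matrix.cons_val_zero, Matrix.cons_val_one,
      Matrix.cons_val] <;> field_simp

theorem Sum_G_D (H : Sum_Half M δ T) {y : E 2} (hy : y ≠ 0) : Sum_G (Sum_D M y) = M ‖y‖ := by
  have hn : ‖y‖ ≠ 0 := norm_ne_zero_iff.2 hy
  have hp := (H.pos _ (norm_pos_iff.2 hy)).ne'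
  have h2 := Sum_sq2 y
  unfold Sum_G
  rw [Sum_rho_D H hy]
  refine Sum_ext3 rfl ?_ ?_ <;>
    simp only [Sum_D, PiLp.smul_apply, smul_eq_mul, Matrix.cons_val_zero, Matrix.cons_val_one,
      Matrix.cons_val] <;> field_simp <;> rw [h2] <;> ring

theorem Sum_rho_diff {w : E 4} (h : Sum_rho w ≠ 0) : DifferentiableAt ℝ Sum_rho w := by
  refine DifferentiableAt.sqrt (f := fun w : E 4 => w 0 ^ 2 + w 3 ^ 2) (by fun_prop) ?_
  intro h0
  exact h (by rw [Sum_rho, h0, Real.sqrt_zero])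

theorem Sum_U_diff {w : E 4} (h : Sum_rho w ≠ 0) : DifferentiableAt ℝ Sum_U w := by
  unfold Sum_U
  refine DifferentiableAt.smul ((Sum_rho_diff h).inv h) ?_
  rw [differentiableAt_euclidean]
  intro i
  fin_cases i <;> simp <;> fun_prop

theorem Sum_G_diff {w : E 4} (h : Sum_rho w ≠ 0) : DifferentiableAt ℝ Sum_G w := by
  have h1 := Sum_rho_diff h
  have h2 : DifferentiableAt ℝ (fun w => (Sum_rho w)⁻¹) w := h1.inv h
  unfold Sum_G
  rw [differentiableAt_euclidean]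
  intro i
  fin_cases i
  · exact h1
  · exact h2.mul (by fun_prop)
  · exact h2.mul (by fun_prop)

theorem Sum_D_injective (H : Sum_Half M δ T) : Function.Injective (Sum_D M) := by
  have key : ∀ y : E 2, y ≠ 0 → Sum_D M y ≠ Sum_D M 0 := by
    intro y hy e
    have h1 := Sum_rho_D H hy
    have h2 := H.pos _ (norm_pos_iff.2 hy)
    rw [e] at h1
    simp [Sum_rho, Sum_D] at h1
    exact h2.ne h1
  intro y z e
  rcases eq_or_ne y 0 with rfl | hy
  · by_contra hz
    exact key z (Ne.symm hz) e.symm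
  rcases eq_or_ne z 0 with rfl | hz
  · exact absurd e (key y hy)
  have h1 : ‖y‖ = ‖z‖ := H.inj (by rw [← Sum_G_D H hy, ← Sum_G_D H hz, e])
  have h2 : ‖y‖⁻¹ • y = ‖z‖⁻¹ • z := by rw [← Sum_U_D H hy, ← Sum_U_D H hz, e]
  rw [h1] at h2
  exact smul_right_injective _ (inv_ne_zero (norm_ne_zero_iff.2 hz)) h2

theorem Sum_D_imm (H : Sum_Half M δ T) (y : E 2) :
    Function.Injective (fderiv ℝ (Sum_D M) y) := by
  have hD : DifferentiableAt ℝ (Sum_D M) y := (Sum_D_cd H y).differentiableAt (by simp)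
  rcases eq_or_ne y 0 with rfl | hy
  · refine Sum_inj (g := fun w : E 4 => (!₂[w 0, w 3] : E 2)) hD ?_ ?_
    · rw [differentiableAt_euclidean]
      intro i
      fin_cases i <;> simp <;> fun_prop
    · filter_upwards [Sum_D_ev H] with z hz
      rw [hz]
      exact Sum_ext2 rfl rfl
  refine (injective_iff_map_eq_zero _).2 fun v hv => ?_
  have hr : Sum_rho (Sum_D M y) ≠ 0 := by
    rw [Sum_rho_D H hy]
    exact (H.pos _ (norm_pos_iff.2 hy)).ne'
  have hne : ∀ᶠ z in 𝓝 y, z ≠ 0 := isOpen_ne.mem_nhds hy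
  have hn : DifferentiableAt ℝ (fun z : E 2 => ‖z‖) y :=
    (contDiffAt_norm ℝ (n := 1) hy).differentiableAt (by simp)
  have h1 : fderiv ℝ (fun z : E 2 => M ‖z‖) y v = 0 :=
    Sum_ker hD (Sum_G_diff hr) (hne.mono fun z hz => Sum_G_D H hz) hv
  have h2 : fderiv ℝ (fun z : E 2 => ‖z‖⁻¹ • z) y v = 0 :=
    Sum_ker hD (Sum_U_diff hr) (hne.mono fun z hz => Sum_U_D H hz) hv
  have h3 : fderiv ℝ (fun z : E 2 => ‖z‖) y v = 0 := by
    rw [fderiv_fun_comp y (H.smooth.differentiable (by simp) _) hn,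
      ContinuousLinearMap.comp_apply, fderiv_eq_smul_deriv] at h1
    exact (smul_eq_zero.1 h1).resolve_right (H.imm _)
  have hu : DifferentiableAt ℝ (fun z : E 2 => ‖z‖⁻¹ • z) y :=
    (hn.inv (norm_ne_zero_iff.2 hy)).smul differentiableAt_id
  have h4 := Sum_ker (f := fun z : E 2 => (‖z‖, ‖z‖⁻¹ • z)) (g := fun p : ℝ × E 2 => p.1 • p.2)
    (h := fun z => z) (v := v) (hn.prodMk hu) (by fun_prop)
    (hne.mono fun z hz => by simp [smul_smul, norm_ne_zero_iff.2 hz])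
    (by rw [hn.fderiv_prodMk hu]; simp [h2, h3])
  simpa using h4

theorem Sum_D_3 (y : E 2) : Sum_D M y 3 = Sum_k M y * y 1 := by
  unfold Sum_k
  split_ifs with h
  · simp [Sum_D, h]
  · simp [Sum_D, mul_assoc]

theorem Sum_k_pos (H : Sum_Half M δ T) (y : E 2) : 0 < Sum_k M y := by
  unfold Sum_k
  split_ifs with h
  · exact one_pos
  · exact mul_pos (inv_pos.2 (norm_pos_iff.2 h)) (H.pos _ (norm_pos_iff.2 h))

theorem Sum_k_cont (H : Sum_Half M δ T) (y : E 2) : ContinuousAt (Sum_k M) y := by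
  rcases eq_or_ne y 0 with rfl | hy
  · refine (continuousAt_const (y := (1 : ℝ))).congr ?_
    filter_upwards [closedBall_mem_nhds (0 : E 2) H.hδ] with z hz
    unfold Sum_k
    split_ifs with h
    · rfl
    · rw [H.small _ (by simpa using hz)]
      simp [norm_ne_zero_iff.2 h]
  · have h1 : ContinuousAt (fun z : E 2 => ‖z‖⁻¹ * M ‖z‖ 0) y := by
      have := H.smooth.continuous
      have hn : ‖y‖ ≠ 0 := norm_ne_zero_iff.2 hy
      fun_prop (disch := exact hn)
    refine h1.congr ?_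
    filter_upwards [isOpen_ne.mem_nhds hy] with z hz
    rw [Sum_k, if_neg hz]

open Classical in
/-- The slice disc. -/
noncomputable def Sum_d (M : ℝ → E 3) (x : E 2) : E 4 :=
  if x = !₂[-1, 0] then !₂[-1, 0, 0, 0] else Sum_C (Sum_D M (Sum_xi x))

theorem Sum_d_ev {x : E 2} (hx : x ≠ !₂[-1, 0]) :
    Sum_d M =ᶠ[𝓝 x] fun z => Sum_C (Sum_D M (Sum_xi z)) := by
  filter_upwards [isOpen_ne.mem_nhds hx] with z hz
  rw [Sum_d, if_neg hz]

theorem Sum_d_pole (H : Sum_Half M δ T) :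
    Sum_d M =ᶠ[𝓝 !₂[-1, 0]] fun z : E 2 => (!₂[z 0, z 1, 0, 0] : E 4) := by
  filter_upwards [Sum_xi_big T] with z hz
  unfold Sum_d
  split_ifs with h
  · rw [h]
    rfl
  · rw [Sum_D_lin (H.large _ (hz h)), Sum_C_lin, Sum_c_xi (Sum_n_pos h).ne']

theorem Sum_N_D (H : Sum_Half M δ T) {x : E 2} (hx : x ≠ !₂[-1, 0]) (h1 : ‖x‖ ≤ 1) :
    0 < Sum_N (Sum_D M (Sum_xi x)) := by
  refine Sum_N_pos ?_
  rw [Sum_D_3, Sum_xi_1]
  have h2 : 0 ≤ 1 - ‖x‖ ^ 2 := by nlinarith [norm_nonneg x]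
  have h3 := Sum_k_pos H (Sum_xi x)
  have h4 := Sum_n_pos hx
  positivity

theorem Sum_norm_d {x : E 2} (hx : x ≠ !₂[-1, 0]) (h : Sum_N (Sum_D M (Sum_xi x)) ≠ 0) :
    ‖Sum_d M x‖ ^ 2 = 1 - (1 - ‖x‖ ^ 2) *
      (4 * Sum_k M (Sum_xi x) * (Sum_n x)⁻¹ / Sum_N (Sum_D M (Sum_xi x))) := by
  rw [Sum_d, if_neg hx, Sum_norm_C h, Sum_D_3, Sum_xi_1]
  ring

theorem Sum_slice (H : Sum_Half M δ T) (L : ℝ → E 3) (h0 : L 0 = 0)
    (hp : ∀ t, 0 < t → L t = M t) (hn : ∀ t, 0 < t → L (-t) = -M t) : Slice (closeUp L) := by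
  have hbd : ∀ t : ℝ, Sum_C (Sum_D M !₂[t, 0]) = stereoInv (L t) := by
    intro t
    rw [← Sum_C_stereo]
    congr 1
    have hnorm : ‖(!₂[t, 0] : E 2)‖ = |t| := by
      rw [← sq_eq_sq₀ (norm_nonneg _) (abs_nonneg _), Sum_sq2, sq_abs]
      simp
    unfold Sum_D
    rw [hnorm]
    rcases lt_trichotomy t 0 with ht | rfl | ht
    · have := hn (-t) (by linarith)
      rw [neg_neg] at this
      have ht' := ht.ne
      rw [this, abs_of_neg ht]
      refine Sum_ext4 ?_ ?_ ?_ ?_ <;> simp <;> field_simp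
    · refine Sum_ext4 ?_ ?_ ?_ ?_ <;> simp [h0]
    · have ht' := ht.ne'
      rw [hp t ht, abs_of_pos ht]
      refine Sum_ext4 ?_ ?_ ?_ ?_ <;> simp <;> field_simp
  have hlin : ContDiff ℝ ∞ fun z : E 2 => (!₂[z 0, z 1, 0, 0] : E 4) := by
    rw [contDiff_euclidean]
    intro i
    fin_cases i <;> simp <;> fun_prop
  refine ⟨Sum_d M, fun x hx => ?_, fun x hx y hy e => ?_, fun x hx => ?_, fun x hx => ?_, ?_,
    fun u hu => ?_⟩
  · rcases eq_or_ne x !₂[-1, 0] with rfl | h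
    · exact hlin.contDiffAt.congr_of_eventuallyEq (Sum_d_pole H)
    · refine ContDiffAt.congr_of_eventuallyEq ?_ (Sum_d_ev h)
      exact ContDiffAt.comp (g := Sum_C) (f := fun z => Sum_D M (Sum_xi z)) x
        (Sum_C_cd (Sum_N_D H h (by simpa using hx)).ne')
        ((Sum_D_cd H _).comp x (Sum_xi_cd (Sum_n_pos h).ne'))
  · have hx' : ‖x‖ ≤ 1 := by simpa using hx
    have hy' : ‖y‖ ≤ 1 := by simpa using hy
    unfold Sum_d at e
    split_ifs at e with h1 h2 h2
    · rw [h1, h2]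
    · exact absurd e.symm (Sum_C_ne (Sum_N_D H h2 hy').ne')
    · exact absurd e (Sum_C_ne (Sum_N_D H h1 hx').ne')
    · have h3 := congrArg Sum_C' e
      rw [Sum_C'_C (Sum_N_D H h1 hx').ne', Sum_C'_C (Sum_N_D H h2 hy').ne'] at h3
      rw [← Sum_c_xi (Sum_n_pos h1).ne', ← Sum_c_xi (Sum_n_pos h2).ne', Sum_D_injective H h3]
  · rcases eq_or_ne x !₂[-1, 0] with rfl | h
    · rw [(Sum_d_pole H).fderiv_eq]
      refine Sum_inj (g := fun w : E 4 => (!₂[w 0, w 1] : E 2))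
        (hlin.differentiable (by simp) _) ?_ (Eventually.of_forall fun z => Sum_ext2 rfl rfl)
      rw [differentiableAt_euclidean]
      intro i
      fin_cases i <;> simp <;> fun_prop
    · have hN := (Sum_N_D H h (by simpa using hx)).ne'
      have d1 : DifferentiableAt ℝ Sum_xi x :=
        (Sum_xi_cd (Sum_n_pos h).ne').differentiableAt (by simp)
      have d2 : DifferentiableAt ℝ (Sum_D M) (Sum_xi x) :=
        (Sum_D_cd H _).differentiableAt (by simp)
      have d3 : DifferentiableAt ℝ Sum_C (Sum_D M (Sum_xi x)) :=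
        (Sum_C_cd hN).differentiableAt (by simp)
      rw [(Sum_d_ev h).fderiv_eq, fderiv_fun_comp x (f := fun z => Sum_D M (Sum_xi z)) d3
        (d2.comp x d1), fderiv_fun_comp x d2 d1, ContinuousLinearMap.coe_comp,
        ContinuousLinearMap.coe_comp]
      exact (Sum_C_inj hN).comp ((Sum_D_imm H _).comp (Sum_xi_inj (Sum_n_pos h).ne'))
  · have hx' : ‖x‖ < 1 := by simpa using hx
    have h : x ≠ !₂[-1, 0] := by
      rintro rfl
      have : ‖(!₂[-1, 0] : E 2)‖ ^ 2 = 1 := by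
        rw [Sum_sq2]
        simp
      nlinarith [norm_nonneg (!₂[-1, 0] : E 2)]
    have hN := Sum_N_D H h hx'.le
    have h1 := Sum_norm_d h hN.ne'
    have h2 : 0 < 1 - ‖x‖ ^ 2 := by nlinarith [norm_nonneg x]
    have h3 := Sum_k_pos H (Sum_xi x)
    have h4 := Sum_n_pos h
    have h5 : 0 < (1 - ‖x‖ ^ 2) *
      (4 * Sum_k M (Sum_xi x) * (Sum_n x)⁻¹ / Sum_N (Sum_D M (Sum_xi x))) := by positivity
    nlinarith [norm_nonneg (Sum_d M x)]
  · ext v
    constructor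
    · rintro ⟨x, hx, rfl⟩
      have hx' : ‖x‖ = 1 := by simpa using hx
      unfold Sum_d
      split_ifs with h
      · exact mem_insert _ _
      · refine mem_insert_of_mem _ ⟨Sum_xi x 0, ?_⟩
        have : Sum_xi x = !₂[Sum_xi x 0, 0] := Sum_ext2 rfl (by rw [Sum_xi_1, hx']; simp)
        rw [this]
        exact (hbd _).symm
    · rintro (rfl | ⟨t, rfl⟩)
      · refine ⟨!₂[-1, 0], ?_, if_pos rfl⟩
        rw [mem_sphere_zero_iff_norm, ← sq_eq_sq₀ (norm_nonneg _) zero_le_one, Sum_sq2]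
        simp
      · obtain ⟨x, h1, h2, h3⟩ := Sum_boundary t
        exact ⟨x, by simpa using h1, by rw [Sum_d, if_neg h2, h3, hbd]⟩
  · have hu' : ‖u‖ = 1 := by simpa using hu
    have hc : Tendsto (fun r : ℝ => r • u) (𝓝 1) (𝓝 u) := by
      have : Continuous fun r : ℝ => r • u := by fun_prop
      simpa using this.tendsto 1
    have hnorm : ∀ r : ℝ, ‖r • u‖ ^ 2 = r ^ 2 := fun r => by
      rw [norm_smul, hu', mul_one, Real.norm_eq_abs, sq_abs]
    rcases eq_or_ne u !₂[-1, 0] with h | h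
    · refine Sum_radial (g := fun _ => 1) (fun _ => norm_nonneg _) continuousAt_const one_pos ?_
      filter_upwards [hc.eventually (h ▸ Sum_d_pole H)] with r hr
      rw [hr, Sum_sq4, ← hnorm r, Sum_sq2]
      simp
    · have hN := Sum_N_D H h hu'.le
      have hn0 := Sum_n_pos h
      have c1 : ContinuousAt Sum_xi u := (Sum_xi_cd hn0.ne').continuousAt
      have c2 : ContinuousAt (fun z => Sum_N (Sum_D M (Sum_xi z))) u :=
        Sum_N_cd.continuous.continuousAt.comp ((Sum_D_cd H _).continuousAt.comp c1)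
      have c3 : ContinuousAt (fun z => 4 * Sum_k M (Sum_xi z) * (Sum_n z)⁻¹ /
          Sum_N (Sum_D M (Sum_xi z))) u :=
        ((continuousAt_const.mul ((Sum_k_cont H _).comp c1)).mul
          (Sum_n_cd.continuous.continuousAt.inv₀ hn0.ne')).div c2 hN.ne'
      refine Sum_radial (g := fun r => 4 * Sum_k M (Sum_xi (r • u)) * (Sum_n (r • u))⁻¹ /
          Sum_N (Sum_D M (Sum_xi (r • u)))) (fun _ => norm_nonneg _) ?_ ?_ ?_
      · exact ContinuousAt.comp (f := fun r : ℝ => r • u) (by rwa [one_smul]) (by fun_prop)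
      · have h3 := Sum_k_pos H (Sum_xi u)
        rw [one_smul]
        positivity
      · filter_upwards [hc.eventually (isOpen_ne.mem_nhds h),
          hc.eventually (c2.eventually_ne hN.ne')] with r h1 h2
        rw [Sum_norm_d h1 h2, hnorm]

theorem slice_sum (K : LongKnot) (hodd : ∀ t, K.f (-t) = -K.f t) {R₀ : ℝ} (h0 : R₀ < K.R)
    (hfar : ∀ t, R₀ ≤ |t| → K.f t = EuclideanSpace.single 0 t) :
    Slice (closeUp (sumCurve K K)) := by
  have hs : ∀ t : ℝ, (EuclideanSpace.single 0 (t - K.R) : E 3) + EuclideanSpace.single 0 K.R =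
      EuclideanSpace.single 0 t := fun t => by
    refine Sum_ext3 ?_ ?_ ?_ <;> simp
  have H : Sum_Half (fun t => K.f (t - K.R) + EuclideanSpace.single 0 K.R) (K.R - R₀)
      (2 * K.R) := by
    refine ⟨(K.smooth.comp (by fun_prop)).add contDiff_const, fun a b e => ?_, fun t => ?_,
      fun t ht => ?_, by linarith, fun t ht => ?_, fun t ht => ?_⟩
    · have := K.inj (add_right_cancel e)
      linarith
    · rw [deriv_add_const, deriv_comp_sub_const]
      exact K.imm _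
    · rcases le_or_gt K.R |t - K.R| with h | h
      · rw [K.far _ h, hs]
        simpa using ht
      · have h1 := K.near _ h
        have h2 := PiLp.norm_apply_le (K.f (t - K.R)) 0
        have h3 := neg_abs_le (K.f (t - K.R) 0)
        rw [Real.norm_eq_abs] at h2
        simp only [PiLp.add_apply, PiLp.single_apply, if_true]
        linarith
    · rw [hfar _ (le_trans (by linarith) (neg_le_abs _)), hs]
    · rw [K.far _ (le_trans (by linarith) (le_abs_self _)), hs]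
  refine Sum_slice H _ ?_ (fun t ht => ?_) fun t ht => ?_
  · rw [sumCurve, if_pos le_rfl, zero_add, K.far _ (le_abs_self _), sub_self]
  · rw [sumCurve, if_neg (not_le.2 ht)]
  · rw [sumCurve, if_pos (by linarith), show -t + K.R = -(t - K.R) by ring, hodd]
    abel

end Pool.Agent.MP_bc14e1_gt
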