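import Pool.Agent.MP_bc14e1_gt.Defs

/-! Auxiliary maps for the slice disc: Cayley maps and the spun curve. -/

open Set Metric Filter Topology
open scoped ContDiff

namespace Pool.Agent.MP_bc14e1_gt

theorem Sum_ext2 {v w : E 2} (h0 : v 0 = w 0) (h1 : v 1 = w 1) : v = w := by
  ext i
  fin_cases i
  exacts [h0, h1]

theorem Sum_ext3 {v w : E 3} (h0 : v 0 = w 0) (h1 : v 1 = w 1) (h2 : v 2 = w 2) : v = w := by
  ext i
  fin_cases i
  exacts [h0, h1, h2]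

theorem Sum_ext4 {v w : E 4} (h0 : v 0 = w 0) (h1 : v 1 = w 1) (h2 : v 2 = w 2)
    (h3 : v 3 = w 3) : v = w := by
  ext i
  fin_cases i
  exacts [h0, h1, h2, h3]

theorem Sum_sq2 (v : E 2) : ‖v‖ ^ 2 = v 0 ^ 2 + v 1 ^ 2 := by
  rw [EuclideanSpace.real_norm_sq_eq, Fin.sum_univ_two]

theorem Sum_sq3 (v : E 3) : ‖v‖ ^ 2 = v 0 ^ 2 + v 1 ^ 2 + v 2 ^ 2 := by
  rw [EuclideanSpace.real_norm_sq_eq, Fin.sum_univ_three]

theorem Sum_sq4 (v : E 4) : ‖v‖ ^ 2 = v 0 ^ 2 + v 1 ^ 2 + v 2 ^ 2 + v 3 ^ 2 := by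
  rw [EuclideanSpace.real_norm_sq_eq, Fin.sum_univ_four]

section Ker

variable {X Y Z : Type} [NormedAddCommGroup X] [NormedSpace ℝ X] [NormedAddCommGroup Y]
  [NormedSpace ℝ Y] [NormedAddCommGroup Z] [NormedSpace ℝ Z]

theorem Sum_ker {f : X → Y} {g : Y → Z} {h : X → Z} {x v : X} (hf : DifferentiableAt ℝ f x)
    (hg : DifferentiableAt ℝ g (f x)) (e : (fun y => g (f y)) =ᶠ[𝓝 x] h)
    (hv : fderiv ℝ f x v = 0) : fderiv ℝ h x v = 0 := by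
  rw [← e.fderiv_eq, fderiv_fun_comp x hg hf, ContinuousLinearMap.comp_apply, hv, map_zero]

theorem Sum_inj {f : X → Y} {g : Y → X} {x : X} (hf : DifferentiableAt ℝ f x)
    (hg : DifferentiableAt ℝ g (f x)) (e : ∀ᶠ y in 𝓝 x, g (f y) = y) :
    Function.Injective (fderiv ℝ f x) := by
  refine (injective_iff_map_eq_zero _).2 fun v hv => ?_
  have := Sum_ker (h := fun y => y) hf hg e hv
  simpa using this

end Ker

theorem Sum_radial {φ g : ℝ → ℝ} (h0 : ∀ r, 0 ≤ φ r) (hg : ContinuousAt g 1) (hp : 0 < g 1)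
    (e : ∀ᶠ r in 𝓝 (1 : ℝ), φ r ^ 2 = 1 - (1 - r ^ 2) * g r) : 0 < deriv φ 1 := by
  have h1 : HasDerivAt (fun r : ℝ => 1 - (1 - r ^ 2) * g r) (2 * g 1) 1 := by
    rw [hasDerivAt_iff_tendsto_slope]
    have h2 : Tendsto (fun r : ℝ => (1 + r) * g r) (𝓝[≠] 1) (𝓝 (2 * g 1)) := by
      have h3 : ContinuousAt (fun r : ℝ => (1 + r) * g r) 1 := by fun_prop
      have h4 := h3.tendsto.mono_left (nhdsWithin_le_nhds (s := {1}ᶜ))
      rwa [one_add_one_eq_two] at h4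
    refine h2.congr' ?_
    filter_upwards [self_mem_nhdsWithin] with r hr
    have hr' : r - 1 ≠ 0 := sub_ne_zero.2 hr
    rw [slope_def_field]
    field_simp
    ring
  have h5 := h1.sqrt (by norm_num)
  have h6 : φ =ᶠ[𝓝 1] fun r : ℝ => √(1 - (1 - r ^ 2) * g r) := by
    filter_upwards [e] with r hr
    rw [← hr, Real.sqrt_sq (h0 r)]
  rw [h6.deriv_eq, h5.deriv]
  norm_num
  exact hp

/-! ### The Cayley map of the half space -/

/-- Denominator of the Cayley map. -/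
noncomputable def Sum_N (w : E 4) : ℝ := w 0 ^ 2 + w 1 ^ 2 + w 2 ^ 2 + (1 + w 3) ^ 2

/-- The Cayley map. -/
noncomputable def Sum_C (w : E 4) : E 4 :=
  (Sum_N w)⁻¹ • !₂[1 - w 0 ^ 2 - w 1 ^ 2 - w 2 ^ 2 - w 3 ^ 2, 2 * w 0, 2 * w 1, 2 * w 2]

/-- Denominator of the inverse Cayley map. -/
noncomputable def Sum_N' (v : E 4) : ℝ := (1 + v 0) ^ 2 + v 1 ^ 2 + v 2 ^ 2 + v 3 ^ 2

/-- The inverse Cayley map. -/
noncomputable def Sum_C' (v : E 4) : E 4 :=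
  (Sum_N' v)⁻¹ • !₂[2 * v 1, 2 * v 2, 2 * v 3, 1 - v 0 ^ 2 - v 1 ^ 2 - v 2 ^ 2 - v 3 ^ 2]

theorem Sum_N_cd : ContDiff ℝ ∞ Sum_N := by
  unfold Sum_N
  fun_prop

theorem Sum_N'_cd : ContDiff ℝ ∞ Sum_N' := by
  unfold Sum_N'
  fun_prop

theorem Sum_N_pos {w : E 4} (h : 0 ≤ w 3) : 0 < Sum_N w := by
  unfold Sum_N
  positivity

theorem Sum_C_cd {w : E 4} (h : Sum_N w ≠ 0) : ContDiffAt ℝ ∞ Sum_C w := by
  unfold Sum_C
  refine ContDiffAt.smul (Sum_N_cd.contDiffAt.inv h) (ContDiff.contDiffAt ?_)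
  rw [contDiff_euclidean]
  intro i
  fin_cases i <;> simp <;> fun_prop

theorem Sum_C'_cd {v : E 4} (h : Sum_N' v ≠ 0) : ContDiffAt ℝ ∞ Sum_C' v := by
  unfold Sum_C'
  refine ContDiffAt.smul (Sum_N'_cd.contDiffAt.inv h) (ContDiff.contDiffAt ?_)
  rw [contDiff_euclidean]
  intro i
  fin_cases i <;> simp <;> fun_prop

theorem Sum_N'_C {w : E 4} (h : Sum_N w ≠ 0) : Sum_N' (Sum_C w) = 4 / Sum_N w := by
  simp only [Sum_N', Sum_C, PiLp.smul_apply, smul_eq_mul, Matrix.cons_val_zero,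
    Matrix.cons_val_one, Matrix.cons_val]
  field_simp
  unfold Sum_N
  ring

theorem Sum_norm_C {w : E 4} (h : Sum_N w ≠ 0) :
    ‖Sum_C w‖ ^ 2 = 1 - 4 * w 3 / Sum_N w := by
  rw [Sum_sq4]
  simp only [Sum_C, PiLp.smul_apply, smul_eq_mul, Matrix.cons_val_zero,
    Matrix.cons_val_one, Matrix.cons_val]
  field_simp
  unfold Sum_N
  ring

theorem Sum_C'_C {w : E 4} (h : Sum_N w ≠ 0) : Sum_C' (Sum_C w) = w := by
  have h1 := Sum_norm_C h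
  rw [Sum_sq4] at h1
  have h2 : 1 - Sum_C w 0 ^ 2 - Sum_C w 1 ^ 2 - Sum_C w 2 ^ 2 - Sum_C w 3 ^ 2 =
      4 * w 3 / Sum_N w := by linarith
  unfold Sum_C'
  rw [Sum_N'_C h, h2]
  refine Sum_ext4 ?_ ?_ ?_ ?_ <;>
    simp only [Sum_C, PiLp.smul_apply, smul_eq_mul, Matrix.cons_val_zero,
      Matrix.cons_val_one, Matrix.cons_val] <;> field_simp <;> ring

theorem Sum_C_inj {w : E 4} (h : Sum_N w ≠ 0) : Function.Injective (fderiv ℝ Sum_C w) := by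
  refine Sum_inj (g := Sum_C') ((Sum_C_cd h).differentiableAt (by simp))
    ((Sum_C'_cd ?_).differentiableAt (by simp)) ?_
  · rw [Sum_N'_C h]
    exact div_ne_zero four_ne_zero h
  · filter_upwards [Sum_N_cd.continuous.continuousAt.eventually_ne h] with y hy
    exact Sum_C'_C hy

theorem Sum_C_ne {w : E 4} (h : Sum_N w ≠ 0) : Sum_C w ≠ !₂[-1, 0, 0, 0] := by
  intro e
  have h1 := Sum_N'_C h
  rw [e] at h1
  simp [Sum_N'] at h1
  exact div_ne_zero four_ne_zero h h1.symm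

theorem Sum_C_stereo (w : E 3) : Sum_C !₂[w 0, w 1, w 2, 0] = stereoInv w := by
  have h : Sum_N !₂[w 0, w 1, w 2, 0] = 1 + ‖w‖ ^ 2 := by
    rw [Sum_sq3]
    simp [Sum_N]
    ring
  unfold Sum_C stereoInv
  rw [h, Sum_sq3]
  congr 1
  refine Sum_ext4 ?_ ?_ ?_ ?_ <;> simp
  ring

/-! ### The Cayley map of the half plane -/

/-- Denominator of the disc coordinate. -/
noncomputable def Sum_n (x : E 2) : ℝ := (1 + x 0) ^ 2 + x 1 ^ 2

/-- From the disc to the half plane. -/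
noncomputable def Sum_xi (x : E 2) : E 2 :=
  (Sum_n x)⁻¹ • !₂[2 * x 1, 1 - x 0 ^ 2 - x 1 ^ 2]

/-- Denominator of the inverse map. -/
noncomputable def Sum_n' (y : E 2) : ℝ := y 0 ^ 2 + (1 + y 1) ^ 2

/-- From the half plane to the disc. -/
noncomputable def Sum_c (y : E 2) : E 2 :=
  (Sum_n' y)⁻¹ • !₂[1 - y 0 ^ 2 - y 1 ^ 2, 2 * y 0]

theorem Sum_n_cd : ContDiff ℝ ∞ Sum_n := by
  unfold Sum_n
  fun_prop

theorem Sum_n'_cd : ContDiff ℝ ∞ Sum_n' := by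
  unfold Sum_n'
  fun_prop

theorem Sum_n_pos {x : E 2} (h : x ≠ !₂[-1, 0]) : 0 < Sum_n x := by
  unfold Sum_n
  by_contra h1
  have h2 : 1 + x 0 = 0 := by nlinarith [sq_nonneg (1 + x 0), sq_nonneg (x 1)]
  have h3 : x 1 = 0 := by nlinarith [sq_nonneg (1 + x 0), sq_nonneg (x 1)]
  exact h (Sum_ext2 (by simp; linarith) (by simp [h3]))

theorem Sum_xi_cd {x : E 2} (h : Sum_n x ≠ 0) : ContDiffAt ℝ ∞ Sum_xi x := by
  unfold Sum_xi
  refine ContDiffAt.smul (Sum_n_cd.contDiffAt.inv h) (ContDiff.contDiffAt ?_)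
  rw [contDiff_euclidean]
  intro i
  fin_cases i <;> simp <;> fun_prop

theorem Sum_c_cd {y : E 2} (h : Sum_n' y ≠ 0) : ContDiffAt ℝ ∞ Sum_c y := by
  unfold Sum_c
  refine ContDiffAt.smul (Sum_n'_cd.contDiffAt.inv h) (ContDiff.contDiffAt ?_)
  rw [contDiff_euclidean]
  intro i
  fin_cases i <;> simp <;> fun_prop

theorem Sum_xi_0 (x : E 2) : Sum_xi x 0 = (Sum_n x)⁻¹ * (2 * x 1) := by simp [Sum_xi]

theorem Sum_xi_1 (x : E 2) : Sum_xi x 1 = (Sum_n x)⁻¹ * (1 - ‖x‖ ^ 2) := by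
  rw [Sum_sq2, ← sub_sub]
  simp [Sum_xi]

theorem Sum_n'_xi {x : E 2} (h : Sum_n x ≠ 0) : Sum_n' (Sum_xi x) = 4 / Sum_n x := by
  simp only [Sum_n', Sum_xi, PiLp.smul_apply, smul_eq_mul, Matrix.cons_val_zero,
    Matrix.cons_val_one]
  field_simp
  unfold Sum_n
  ring

theorem Sum_norm_xi {x : E 2} (h : Sum_n x ≠ 0) :
    ‖Sum_xi x‖ ^ 2 = 1 - 4 * x 0 / Sum_n x := by
  rw [Sum_sq2]
  simp only [Sum_xi, PiLp.smul_apply, smul_eq_mul, Matrix.cons_val_zero,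
    Matrix.cons_val_one]
  field_simp
  unfold Sum_n
  ring

theorem Sum_c_xi {x : E 2} (h : Sum_n x ≠ 0) : Sum_c (Sum_xi x) = x := by
  have h1 := Sum_norm_xi h
  rw [Sum_sq2] at h1
  have h2 : 1 - Sum_xi x 0 ^ 2 - Sum_xi x 1 ^ 2 = 4 * x 0 / Sum_n x := by linarith
  unfold Sum_c
  rw [Sum_n'_xi h, h2]
  refine Sum_ext2 ?_ ?_ <;>
    simp only [Sum_xi, PiLp.smul_apply, smul_eq_mul, Matrix.cons_val_zero,
      Matrix.cons_val_one] <;> field_simp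
  ring

theorem Sum_xi_inj {x : E 2} (h : Sum_n x ≠ 0) : Function.Injective (fderiv ℝ Sum_xi x) := by
  refine Sum_inj (g := Sum_c) ((Sum_xi_cd h).differentiableAt (by simp))
    ((Sum_c_cd ?_).differentiableAt (by simp)) ?_
  · rw [Sum_n'_xi h]
    exact div_ne_zero four_ne_zero h
  · filter_upwards [Sum_n_cd.continuous.continuousAt.eventually_ne h] with y hy
    exact Sum_c_xi hy

theorem Sum_C_lin (y : E 2) : Sum_C !₂[y 0, 0, 0, y 1] = !₂[Sum_c y 0, Sum_c y 1, 0, 0] := by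
  have h : Sum_N !₂[y 0, 0, 0, y 1] = Sum_n' y := by simp [Sum_N, Sum_n']
  unfold Sum_C
  rw [h]
  refine Sum_ext4 ?_ ?_ ?_ ?_ <;> simp [Sum_c]

theorem Sum_xi_big (T : ℝ) :
    ∀ᶠ x in 𝓝 (!₂[-1, 0] : E 2), x ≠ !₂[-1, 0] → T ≤ ‖Sum_xi x‖ := by
  have h1 : Continuous fun x : E 2 => Sum_n x - 4 * x 0 - T ^ 2 * Sum_n x := by
    have := Sum_n_cd.continuous
    fun_prop
  have h2 : ∀ᶠ x in 𝓝 (!₂[-1, 0] : E 2), 0 < Sum_n x - 4 * x 0 - T ^ 2 * Sum_n x :=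
    h1.continuousAt.eventually (lt_mem_nhds (by simp [Sum_n]))
  filter_upwards [h2] with x hx hne
  have hp := Sum_n_pos hne
  refine le_trans (le_abs_self T) (abs_le_of_sq_le_sq' ?_ (norm_nonneg _)).2
  rw [sq_abs, Sum_norm_xi hp.ne', one_sub_div hp.ne', le_div_iff₀ hp]
  linarith

theorem Sum_boundary (t : ℝ) : ∃ x : E 2, ‖x‖ = 1 ∧ x ≠ !₂[-1, 0] ∧ Sum_xi x = !₂[t, 0] := by
  have ht : (1 + t ^ 2) ≠ 0 := by positivity
  have hn : Sum_n !₂[(1 - t ^ 2) / (1 + t ^ 2), 2 * t / (1 + t ^ 2)] = 4 / (1 + t ^ 2) := by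
    simp only [Sum_n, Matrix.cons_val_zero, Matrix.cons_val_one]
    field_simp
    ring
  have h1 : ‖(!₂[(1 - t ^ 2) / (1 + t ^ 2), 2 * t / (1 + t ^ 2)] : E 2)‖ ^ 2 = 1 := by
    rw [Sum_sq2]
    simp only [Matrix.cons_val_zero, Matrix.cons_val_one]
    field_simp
    ring
  refine ⟨!₂[(1 - t ^ 2) / (1 + t ^ 2), 2 * t / (1 + t ^ 2)], ?_, ?_, ?_⟩
  · exact (pow_eq_one_iff_of_nonneg (norm_nonneg _) two_ne_zero).1 h1
  · intro e
    rw [e] at hn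
    simp [Sum_n] at hn
    exact div_ne_zero four_ne_zero ht hn.symm
  · refine Sum_ext2 ?_ ?_
    · rw [Sum_xi_0, hn]
      simp only [Matrix.cons_val_zero, Matrix.cons_val_one]
      field_simp
      ring
    · rw [Sum_xi_1, h1]
      simp

end Pool.Agent.MP_bc14e1_gt
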